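import Mathlib

/-!
# Flat sets: a set of `q / 2` elements of a field with `q` elements, with constant products of
differences, is an additive subgroup
-/

set_option autoImplicit false

namespace Pool.Agent.H49.HO

open Finset Polynomial

section

variable {K : Type} [Field K] [Fintype K] [DecidableEq K]

/-- the trace to the prime field, for a field with `2 ^ n` elements -/
def tr (n : ℕ) (x : K) : K := ∑ i ∈ range n, x ^ 2 ^ i

theorem tr_add [CharP K 2] (n : ℕ) (x y : K) : tr n (x + y) = tr n x + tr n y := by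
  unfold tr
  rw [← sum_add_distrib]
  exact sum_congr rfl fun i _ => add_pow_char_pow x y 2 i

omit [Fintype K] [DecidableEq K] in
theorem tr_zero (n : ℕ) : tr n (0 : K) = 0 := by
  unfold tr
  exact sum_eq_zero fun i _ => zero_pow (by positivity)

theorem charP_two {n : ℕ} (hn : 0 < n) (hK : Fintype.card K = 2 ^ n) : CharP K 2 := by
  obtain ⟨p, hp⟩ := CharP.exists K
  obtain ⟨m, hp', hm⟩ := FiniteField.card K p
  have h1 : p ∣ 2 ^ n := by
    rw [← hK, hm]
    exact dvd_pow_self p m.pos.ne'
  have h2 : p = 2 := (Nat.prime_dvd_prime_iff_eq hp' Nat.prime_two).mp (hp'.dvd_of_dvd_pow h1)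
  rw [← h2]
  exact hp

theorem tr_sq [CharP K 2] {n : ℕ} (hn : 0 < n) (hK : Fintype.card K = 2 ^ n) (x : K) :
    tr n x ^ 2 = tr n x := by
  unfold tr
  rw [CharTwo.sum_sq]
  have h : ∀ i, (x ^ 2 ^ i) ^ 2 = x ^ 2 ^ (i + 1) := fun i => by rw [← pow_mul, pow_succ]
  simp only [h]
  obtain ⟨m, rfl⟩ : ∃ m, n = m + 1 := ⟨n - 1, by omega⟩
  rw [sum_range_succ, sum_range_succ', ← hK, FiniteField.pow_card, pow_zero, pow_one]

theorem tr_cases [CharP K 2] {n : ℕ} (hn : 0 < n) (hK : Fintype.card K = 2 ^ n) (x : K) :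
    tr n x = 0 ∨ tr n x = 1 := by
  have h := tr_sq hn hK x
  have h1 : tr n x * (tr n x - 1) = 0 := by linear_combination h
  rcases mul_eq_zero.mp h1 with h2 | h2
  · exact Or.inl h2
  · exact Or.inr (sub_eq_zero.mp h2)

/-- the polynomial of the function `x ↦ tr (a x)` -/
noncomputable def trP (n : ℕ) (a : K) : K[X] := ∑ i ∈ range n, C (a ^ 2 ^ i) * X ^ 2 ^ i

omit [Fintype K] [DecidableEq K] in
theorem eval_trP (n : ℕ) (a x : K) : (trP n a).eval x = tr n (a * x) := by
  unfold trP tr
  rw [eval_finsetSum]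
  refine sum_congr rfl fun i _ => ?_
  rw [eval_mul, eval_C, eval_pow, eval_X, mul_pow]

omit [Fintype K] [DecidableEq K] in
theorem natDegree_trP_le (n : ℕ) (a : K) : (trP (n + 1) a).natDegree ≤ 2 ^ n := by
  unfold trP
  refine natDegree_sum_le_of_forall_le _ _ fun i hi => ?_
  refine le_trans (natDegree_C_mul_X_pow_le _ _) ?_
  exact Nat.pow_le_pow_right (by norm_num) (by rw [mem_range] at hi; omega)

omit [Fintype K] [DecidableEq K] in
theorem coeff_trP (n : ℕ) (a : K) : (trP (n + 1) a).coeff (2 ^ n) = a ^ 2 ^ n := by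
  unfold trP
  rw [finsetSum_coeff, sum_eq_single n]
  · rw [coeff_C_mul_X_pow, if_pos rfl]
  · intro i _ hin
    rw [coeff_C_mul_X_pow, if_neg]
    intro h
    exact hin (Nat.pow_right_injective (le_refl 2) h).symm
  · intro h
    exact absurd (mem_range.mpr (Nat.lt_succ_self n)) h

omit [Fintype K] [DecidableEq K] in
theorem trP_ne_zero (n : ℕ) {a : K} (ha : a ≠ 0) : trP (n + 1) a ≠ 0 := by
  intro h
  have := coeff_trP n a
  rw [h, coeff_zero] at this
  exact pow_ne_zero _ ha this.symm

theorem exists_tr_ne_zero {n : ℕ} (hn : 0 < n) (hK : Fintype.card K = 2 ^ n) {a : K} (ha : a ≠ 0) :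
    ∃ x, tr n (a * x) ≠ 0 := by
  by_contra hcon
  push Not at hcon
  obtain ⟨m, rfl⟩ : ∃ m, n = m + 1 := ⟨n - 1, by omega⟩
  apply trP_ne_zero m ha
  apply eq_zero_of_degree_lt_of_eval_finset_eq_zero (univ : Finset K)
  · rw [card_univ, hK]
    refine lt_of_le_of_lt degree_le_natDegree ?_
    rw [Nat.cast_lt]
    refine lt_of_le_of_lt (natDegree_trP_le m a) ?_
    exact Nat.pow_lt_pow_right (by norm_num) (Nat.lt_succ_self m)
  · intro x _
    rw [eval_trP]
    exact hcon x

/-- at most half of the elements have trace zero -/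
theorem card_tr_le {n : ℕ} (hn : 0 < n) {a : K} (ha : a ≠ 0) {Y : Finset K}
    (hY : ∀ x ∈ Y, tr n (a * x) = 0) : Y.card ≤ 2 ^ (n - 1) := by
  obtain ⟨m, rfl⟩ : ∃ m, n = m + 1 := ⟨n - 1, by omega⟩
  by_contra hcon
  push Not at hcon
  apply trP_ne_zero m ha
  apply eq_zero_of_degree_lt_of_eval_finset_eq_zero Y
  · refine lt_of_le_of_lt degree_le_natDegree ?_
    rw [Nat.cast_lt]
    exact lt_of_le_of_lt (natDegree_trP_le m a) hcon
  · intro x hx
    rw [eval_trP]
    exact hY x hx

theorem nodal_univ : Lagrange.nodal (univ : Finset K) id = X ^ Fintype.card K - X := by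
  have h1 : (X ^ Fintype.card K - X : K[X]).Monic := by
    apply monic_X_pow_sub
    rw [degree_X]
    exact_mod_cast Fintype.one_lt_card
  have h2 := prod_multiset_X_sub_C_of_monic_of_roots_card_eq h1 (by
    rw [FiniteField.roots_X_pow_card_sub_X, FiniteField.X_pow_card_sub_X_natDegree_eq K
      Fintype.one_lt_card]
    rfl)
  rw [FiniteField.roots_X_pow_card_sub_X] at h2
  rw [← h2]
  rfl

/-- **flat sets are subgroups** -/
theorem flat [CharP K 2] {n : ℕ} (hn : 0 < n) (hK : Fintype.card K = 2 ^ n) {Y : Finset K} {e : K}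
    (hcard : Y.card = 2 ^ (n - 1)) (h0 : (0 : K) ∈ Y)
    (he : ∀ y ∈ Y, ∏ w ∈ Y.erase y, (y + w) = e) :
    e ≠ 0 ∧ ∀ x, x ∈ Y ↔ tr n (e ^ 2 * x) = 0 := by
  have h2n : 2 ^ n = 2 * 2 ^ (n - 1) := by
    rw [← pow_succ']
    congr 1
    omega
  set P : K[X] := Lagrange.nodal Y id with hP
  set R : K[X] := Lagrange.nodal Yᶜ id with hR
  have hPdeg : P.natDegree = 2 ^ (n - 1) := by rw [hP, Lagrange.natDegree_nodal, hcard]
  have hRdeg : R.natDegree = 2 ^ (n - 1) := by
    rw [hR, Lagrange.natDegree_nodal, card_compl, hcard, hK]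
    omega
  have hPm : P.Monic := Lagrange.nodal_monic
  have hRm : R.Monic := Lagrange.nodal_monic
  have hmul : P * R = X ^ 2 ^ n - X := by
    rw [hP, hR, Lagrange.nodal, Lagrange.nodal, prod_mul_prod_compl, ← hK, ← nodal_univ]
    rfl
  have hq0 : ((2 ^ n : ℕ) : K) = 0 := by
    rw [← hK]
    exact Nat.cast_card_eq_zero K
  have hpos : 0 < 2 ^ (n - 1) := by positivity
  -- the derivative of `P` is constant
  have hP' : derivative P = C e := by
    apply Polynomial.eq_of_degrees_lt_of_eval_finset_eq Y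
    · rw [hcard]
      refine lt_of_lt_of_le (degree_derivative_lt hPm.ne_zero) ?_
      rw [degree_eq_natDegree hPm.ne_zero, hPdeg]
    · rw [hcard]
      refine lt_of_le_of_lt degree_C_le ?_
      exact_mod_cast hpos
    · intro y hy
      have h := Lagrange.eval_nodal_derivative_eval_node_eq (v := (id : K → K)) hy
      rw [id_eq] at h
      rw [hP, h, Lagrange.eval_nodal, eval_C, ← he y hy]
      refine prod_congr rfl fun w _ => ?_
      rw [CharTwo.sub_eq_add, id_eq]
  have hder : C e * R + P * derivative R = -1 := by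
    have h := congrArg derivative hmul
    rw [derivative_mul, hP', derivative_sub, derivative_X, derivative_X_pow, hq0, C_0, zero_mul,
      zero_sub] at h
    exact h
  have hR0 : derivative R ≠ 0 := by
    intro h
    rw [h, mul_zero, add_zero] at hder
    by_cases he0 : e = 0
    · rw [he0, C_0, zero_mul] at hder
      exact neg_ne_zero.mpr one_ne_zero hder.symm
    · have h3 := congrArg natDegree hder
      rw [natDegree_C_mul he0, hRdeg, natDegree_neg, natDegree_one] at h3
      omega
  have hR' : (derivative R).natDegree = 0 := by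
    have h3 : P * derivative R = -1 - C e * R := by linear_combination hder
    have h4 : (P * derivative R).natDegree = 2 ^ (n - 1) + (derivative R).natDegree := by
      rw [hPm.natDegree_mul' hR0, hPdeg]
    have h5 : (-1 - C e * R).natDegree ≤ 2 ^ (n - 1) := by
      refine le_trans (natDegree_sub_le _ _) ?_
      rw [natDegree_neg, natDegree_one]
      refine max_le (Nat.zero_le _) ?_
      exact le_trans (natDegree_C_mul_le _ _) hRdeg.le
    rw [h3] at h4
    omega
  obtain ⟨κ, hκ⟩ : ∃ κ, derivative R = C κ := ⟨_, eq_C_of_natDegree_eq_zero hR'⟩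
  have hκe : e + κ = 0 := by
    have h3 : (C e * R + P * derivative R).coeff (2 ^ (n - 1)) = (-1 : K[X]).coeff (2 ^ (n - 1)) := by
      rw [hder]
    rw [hκ, coeff_add, coeff_C_mul, coeff_mul_C] at h3
    have h4 : R.coeff (2 ^ (n - 1)) = 1 := by rw [← hRdeg]; exact hRm
    have h5 : P.coeff (2 ^ (n - 1)) = 1 := by rw [← hPdeg]; exact hPm
    rw [h4, h5, coeff_neg, coeff_one, if_neg (by omega), neg_zero, mul_one, one_mul] at h3
    exact h3
  have hκe' : κ = e := (CharTwo.add_eq_zero.mp hκe).symm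
  have he0 : e ≠ 0 := by
    intro h
    rw [hκ, hκe', h, C_0] at hR0
    exact hR0 rfl
  refine ⟨he0, ?_⟩
  -- the quadratic equation
  have h2K : (2 : K[X]) = 0 := by
    have : CharP K[X] 2 := inferInstance
    exact CharTwo.two_eq_zero
  have hsum : C e * (P + R) = 1 := by
    rw [hκ, hκe'] at hder
    linear_combination hder - h2K
  obtain ⟨m, hm⟩ : ∃ m, n = m + 1 := ⟨n - 1, by omega⟩
  have hU : (C e * P) * (C e * P + 1) = C (e ^ 2) * (X ^ 2 ^ n - X) := by
    rw [← hmul, C_pow]
    linear_combination (-(C e * P)) * hsum + (C e * P) ^ 2 * h2K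
  have hT : trP n (e ^ 2) * (trP n (e ^ 2) + 1) = C (e ^ 2) * (X ^ 2 ^ n - X) := by
    have h3 : trP n (e ^ 2) ^ 2 = trP n (e ^ 2) + C (e ^ 2) * (X ^ 2 ^ n - X) := by
      unfold trP
      have : CharP K[X] 2 := inferInstance
      rw [CharTwo.sum_sq]
      have h4 : ∀ i, (C ((e ^ 2) ^ 2 ^ i) * X ^ 2 ^ i : K[X]) ^ 2 =
          C ((e ^ 2) ^ 2 ^ (i + 1)) * X ^ 2 ^ (i + 1) := fun i => by
        rw [mul_pow, ← C_pow, ← pow_mul (e ^ 2), ← pow_mul X, ← pow_succ]
      simp only [h4]
      have h5 : (e ^ 2) ^ 2 ^ n = e ^ 2 := by rw [← hK, FiniteField.pow_card]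
      rw [hm, sum_range_succ, sum_range_succ', ← hm, h5, pow_zero, pow_one, pow_one]
      ring
    linear_combination h3 + (trP n (e ^ 2)) * h2K
  have hprod : (C e * P - trP n (e ^ 2)) * (C e * P + trP n (e ^ 2) + 1) = 0 := by
    linear_combination hU - hT
  have hP0 : P.eval 0 = 0 := by
    have := Lagrange.eval_nodal_at_node (v := (id : K → K)) h0
    exact this
  have hU2 : C e * P = trP n (e ^ 2) := by
    rcases mul_eq_zero.mp hprod with h | h
    · exact sub_eq_zero.mp h
    · exfalso
      have h3 := congrArg (eval 0) h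
      simp only [eval_add, eval_mul, hP0, eval_trP, mul_zero, tr_zero, eval_one, eval_zero,
        zero_add] at h3
      exact one_ne_zero h3
  intro x
  rw [← eval_trP, ← hU2, eval_mul, eval_C, mul_eq_zero]
  constructor
  · intro hx
    right
    exact Lagrange.eval_nodal_at_node (v := (id : K → K)) hx
  · intro hx
    by_contra hxY
    rcases hx with hx | hx
    · exact he0 hx
    · refine Lagrange.eval_nodal_not_at_node (v := (id : K → K)) (s := Y) ?_ hx
      intro i hi h
      rw [id_eq] at h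
      exact hxY (h ▸ hi)

end

end Pool.Agent.H49.HO
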