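import Mathlib
import Pool.Agent.H49.HO.Flat

/-!
# Periods of o-polynomials

`f` is an o-polynomial with `f 0 = 0` of the field `K` with `2 ^ n` elements; a period is a `v` with
`f (x + v) = f x + f v` for all `x`.
-/

set_option autoImplicit false

namespace Pool.Agent.H49.HO

open Finset Polynomial

section

variable {K : Type} [Field K] [Fintype K] [DecidableEq K]

/-- an o-polynomial (as a function) with `f 0 = 0` -/
structure IsO (f : K → K) : Prop where
  inj : Function.Injective f
  zero : f 0 = 0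
  slope : ∀ x y z, y ≠ x → z ≠ x → (f x + f y) / (x + y) = (f x + f z) / (x + z) → y = z

/-- `v` is a period of `f` -/
def Per (f : K → K) (v : K) : Prop := ∀ x, f (x + v) = f x + f v

omit [Fintype K] [DecidableEq K] in
theorem add_ne_zero' [CharP K 2] {x y : K} (h : y ≠ x) : x + y ≠ 0 := fun h1 =>
  h (CharTwo.add_eq_zero.mp h1).symm

theorem prod_add [CharP K 2] (x : K) : ∏ z ∈ univ.erase x, (x + z) = 1 := by
  have h := Lagrange.eval_nodal_derivative_eval_node_eq (v := (id : K → K)) (mem_univ x)
  rw [nodal_univ, Lagrange.eval_nodal, derivative_sub, derivative_X, derivative_X_pow,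
    Nat.cast_card_eq_zero K, C_0, zero_mul, zero_sub, eval_neg, eval_one] at h
  rw [← CharTwo.neg_eq (1 : K), h]
  refine prod_congr rfl fun z _ => ?_
  rw [CharTwo.sub_eq_add, id_eq, id_eq]

theorem image_slope [CharP K 2] {f : K → K} (h : IsO f) (x : K) :
    (univ.erase x).image (fun y => (f x + f y) / (x + y)) = univ.erase (0 : K) := by
  apply eq_of_subset_of_card_le
  · intro s hs
    rw [mem_image] at hs
    obtain ⟨y, hy, rfl⟩ := hs
    rw [mem_erase] at hy ⊢
    refine ⟨div_ne_zero ?_ (add_ne_zero' hy.1), mem_univ _⟩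
    intro h1
    exact hy.1 (h.inj (CharTwo.add_eq_zero.mp h1)).symm
  · rw [card_image_of_injOn, card_erase_of_mem (mem_univ _), card_erase_of_mem (mem_univ _)]
    intro y hy z hz hyz
    rw [mem_coe, mem_erase] at hy hz
    exact h.slope x y z hy.1 hz.1 hyz

theorem slope_iff [CharP K 2] {f : K → K} {b x y : K} (hy : y ≠ x) :
    (f x + f y) / (x + y) = b ↔ f y + b * y = f x + b * x := by
  have h2 := CharTwo.two_eq_zero (R := K)
  rw [div_eq_iff (add_ne_zero' hy)]
  constructor
  · intro h
    linear_combination h + (-f x + b * y) * h2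
  · intro h
    linear_combination h + (f x - b * y) * h2

/-- partners exist -/
theorem exists_partner [CharP K 2] {f : K → K} (h : IsO f) {b : K} (hb : b ≠ 0) (x : K) :
    ∃ y, y ≠ x ∧ f y + b * y = f x + b * x := by
  have h1 : b ∈ (univ.erase x).image (fun y => (f x + f y) / (x + y)) := by
    rw [image_slope h, mem_erase]
    exact ⟨hb, mem_univ _⟩
  rw [mem_image] at h1
  obtain ⟨y, hy, hy2⟩ := h1
  rw [mem_erase] at hy
  exact ⟨y, hy.1, (slope_iff hy.1).mp hy2⟩

theorem partner_unique [CharP K 2] {f : K → K} (h : IsO f) {b x y z : K} (hy : y ≠ x) (hz : z ≠ x)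
    (h1 : f y + b * y = f x + b * x) (h2 : f z + b * z = f x + b * x) : y = z :=
  h.slope x y z hy hz (((slope_iff hy).mpr h1).trans ((slope_iff hz).mpr h2).symm)

theorem card_fiber [CharP K 2] {f : K → K} (h : IsO f) {b : K} (hb : b ≠ 0) (x : K) :
    (univ.filter fun y => f y + b * y = f x + b * x).card = 2 := by
  obtain ⟨x', hx', hxx⟩ := exists_partner h hb x
  have h1 : (univ.filter fun y => f y + b * y = f x + b * x) = {x, x'} := by
    ext y
    rw [mem_filter, mem_insert, mem_singleton]
    constructor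
    · rintro ⟨_, hy⟩
      by_cases hyx : y = x
      · exact Or.inl hyx
      · exact Or.inr (partner_unique h hyx hx' hy hxx)
    · rintro (rfl | rfl)
      · exact ⟨mem_univ _, rfl⟩
      · exact ⟨mem_univ _, hxx⟩
  rw [h1, card_pair hx'.symm]

/-- the image of `x ↦ f x + b x` -/
def Im (f : K → K) (b : K) : Finset K := univ.image fun y => f y + b * y

theorem card_Im [CharP K 2] {f : K → K} (h : IsO f) {b : K} (hb : b ≠ 0) {n : ℕ} (hn : 0 < n)
    (hK : Fintype.card K = 2 ^ n) : (Im f b).card = 2 ^ (n - 1) := by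
  have h1 : (univ : Finset K).card = 2 * (Im f b).card := by
    rw [card_eq_sum_card_fiberwise (f := fun y => f y + b * y) (s := univ) (t := Im f b)
      (fun y _ => mem_coe.mpr (mem_image_of_mem _ (mem_univ _)))]
    rw [sum_const_nat (m := 2), mul_comm]
    intro y hy
    rw [Im, mem_image] at hy
    obtain ⟨x, _, rfl⟩ := hy
    exact card_fiber h hb x
  rw [card_univ, hK] at h1
  have h2 : 2 ^ n = 2 * 2 ^ (n - 1) := by
    rw [← pow_succ']
    congr 1
    omega
  omega

/-- **the main identity** -/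
theorem main_identity [CharP K 2] {f : K → K} (h : IsO f) {b x x' : K} (hb : b ≠ 0)
    (hx : x' ≠ x) (hxx : f x' + b * x' = f x + b * x) :
    b * (x + x') * (∏ w ∈ (Im f b).erase (f x + b * x), (f x + b * x + w)) ^ 2 = 1 := by
  set s : Finset K := (univ.erase x).erase x' with hs
  have hx'm : x' ∈ univ.erase x := mem_erase.mpr ⟨hx, mem_univ _⟩
  -- the product over the fibres
  have h1 : (∏ w ∈ (Im f b).erase (f x + b * x), (f x + b * x + w)) ^ 2 =
      ∏ z ∈ s, (f x + b * x + (f z + b * z)) := by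
    rw [← prod_fiberwise_of_maps_to (s := s) (t := (Im f b).erase (f x + b * x))
      (g := fun z => f z + b * z), ← prod_pow]
    · refine prod_congr rfl fun w hw => ?_
      rw [mem_erase, Im, mem_image] at hw
      obtain ⟨hw1, z, _, rfl⟩ := hw
      have h2 : (s.filter fun y => f y + b * y = f z + b * z) =
          univ.filter fun y => f y + b * y = f z + b * z := by
        ext y
        rw [mem_filter, mem_filter, hs, mem_erase, mem_erase]
        constructor
        · rintro ⟨_, hy⟩
          exact ⟨mem_univ _, hy⟩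
        · rintro ⟨_, hy⟩
          refine ⟨⟨?_, ?_, mem_univ _⟩, hy⟩
          · rintro rfl
            exact hw1 (hy.symm.trans hxx)
          · rintro rfl
            exact hw1 hy.symm
      rw [prod_congr rfl (g := fun _ => f x + b * x + (f z + b * z))]
      · rw [prod_const, h2, card_fiber h hb]
      · intro y hy
        rw [mem_filter] at hy
        rw [hy.2]
    · intro z hz
      rw [hs, mem_erase, mem_erase] at hz
      rw [mem_erase]
      refine ⟨?_, mem_image_of_mem _ (mem_univ _)⟩
      intro hz2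
      exact hz.1 (partner_unique h hz.2.1 hx hz2 hxx)
  have h2 : ∏ z ∈ s, (f x + b * x + (f z + b * z)) =
      (∏ z ∈ s, (x + z)) * ∏ z ∈ s, ((f x + f z) / (x + z) + b) := by
    rw [← prod_mul_distrib]
    refine prod_congr rfl fun z hz => ?_
    rw [hs, mem_erase, mem_erase] at hz
    have := add_ne_zero' hz.2.1
    field_simp
    ring
  have h3 : (x + x') * ∏ z ∈ s, (x + z) = 1 := by
    rw [← prod_add x, ← mul_prod_erase _ _ hx'm]
  have hinj : Set.InjOn (fun y => (f x + f y) / (x + y)) ((univ.erase x : Finset K) : Set K) := by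
    intro y hy z hz hyz
    rw [mem_coe, mem_erase] at hy hz
    exact h.slope x y z hy.1 hz.1 hyz
  have h4 : (∏ z ∈ s, ((f x + f z) / (x + z) + b)) * b = 1 := by
    have h5 : s.image (fun y => (f x + f y) / (x + y)) = (univ.erase b).erase (0 : K) := by
      rw [hs, erase_right_comm (a := b), ← image_slope h x]
      ext t
      rw [mem_image, mem_erase, mem_image]
      constructor
      · rintro ⟨y, hy, rfl⟩
        rw [mem_erase] at hy
        refine ⟨?_, y, hy.2, rfl⟩
        intro h6
        exact hy.1 (hinj (mem_coe.mpr hy.2) (mem_coe.mpr hx'm)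
          (h6.trans ((slope_iff hx).mpr hxx).symm))
      · rintro ⟨ht, y, hy, rfl⟩
        refine ⟨y, mem_erase.mpr ⟨?_, hy⟩, rfl⟩
        rintro rfl
        exact ht ((slope_iff hx).mpr hxx)
    have h6 : ∏ z ∈ s, ((f x + f z) / (x + z) + b) = ∏ t ∈ (univ.erase b).erase (0 : K), (b + t) := by
      rw [← h5, prod_image]
      · exact prod_congr rfl fun z _ => add_comm _ _
      · intro y hy z hz hyz
        exact hinj (mem_coe.mpr (mem_of_mem_erase hy)) (mem_coe.mpr (mem_of_mem_erase hz)) hyz
    have h7 := mul_prod_erase (univ.erase b) (fun t => b + t)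
      (mem_erase.mpr ⟨hb.symm, mem_univ (0 : K)⟩)
    rw [add_zero, prod_add] at h7
    rw [h6, mul_comm]
    exact h7
  rw [h1, h2]
  calc b * (x + x') * ((∏ z ∈ s, (x + z)) * ∏ z ∈ s, ((f x + f z) / (x + z) + b))
      = ((x + x') * ∏ z ∈ s, (x + z)) * ((∏ z ∈ s, ((f x + f z) / (x + z) + b)) * b) := by ring
    _ = 1 := by rw [h3, h4, mul_one]

omit [Fintype K] [DecidableEq K] in
theorem sq_inj [CharP K 2] {x y : K} (h : x ^ 2 = y ^ 2) : x = y := by
  have h2 := CharTwo.two_eq_zero (R := K)
  have h1 : (x - y) ^ 2 = 0 := by linear_combination h + (y ^ 2 - x * y) * h2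
  exact sub_eq_zero.mp (pow_eq_zero_iff (two_ne_zero)|>.mp h1)

theorem f_ne_zero {f : K → K} (h : IsO f) {v : K} (hv : v ≠ 0) : f v ≠ 0 := fun h1 =>
  hv (h.inj (h1.trans h.zero.symm))

theorem zero_mem_Im {f : K → K} (h : IsO f) (b : K) : (0 : K) ∈ Im f b := by
  rw [Im, mem_image]
  exact ⟨0, mem_univ _, by rw [h.zero, mul_zero, add_zero]⟩

/-- **Lemma F**: a period gives a trace identity -/
theorem tr_of_per [CharP K 2] {f : K → K} (h : IsO f) {n : ℕ} (hn : 0 < n)
    (hK : Fintype.card K = 2 ^ n) {v : K} (hv : v ≠ 0) (hp : Per f v) (x : K) :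
    tr n (f x / f v) = tr n (x / v) := by
  have h2 := CharTwo.two_eq_zero (R := K)
  have hfv := f_ne_zero h hv
  have hb : f v / v ≠ 0 := div_ne_zero hfv hv
  have hbv : f v / v * v = f v := div_mul_cancel₀ _ hv
  have hpart : ∀ x, x + v ≠ x ∧ f (x + v) + f v / v * (x + v) = f x + f v / v * x := by
    intro x
    refine ⟨fun h1 => hv (by simpa using h1), ?_⟩
    rw [hp x]
    linear_combination hbv + f v * h2
  -- the product of differences is constant
  have hid : ∀ x, f v * (∏ w ∈ (Im f (f v / v)).erase (f x + f v / v * x),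
      (f x + f v / v * x + w)) ^ 2 = 1 := by
    intro x
    have h1 := main_identity h hb (hpart x).1 (hpart x).2
    have h3 : f v / v * (x + (x + v)) = f v := by
      linear_combination hbv + (f v / v * x) * h2
    rw [h3] at h1
    exact h1
  set e : K := ∏ w ∈ (Im f (f v / v)).erase (f 0 + f v / v * 0), (f 0 + f v / v * 0 + w) with he
  have he2 : f v * e ^ 2 = 1 := hid 0
  have hflat := flat hn hK (card_Im h hb hn hK) (zero_mem_Im h _) (e := e) (by
    intro y hy
    rw [Im, mem_image] at hy
    obtain ⟨x, _, rfl⟩ := hy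
    apply sq_inj
    exact mul_left_cancel₀ hfv ((hid x).trans he2.symm))
  have h3 := (hflat.2 (f x + f v / v * x)).mp (mem_image_of_mem _ (mem_univ _))
  have h4 : e ^ 2 * (f x + f v / v * x) = f x / f v + x / v := by
    have h5 : e ^ 2 = 1 / f v := by
      rw [eq_div_iff hfv, mul_comm]
      exact he2
    rw [h5]
    field_simp
  rw [h4, tr_add] at h3
  exact CharTwo.add_eq_zero.mp h3

/-- **Lemma C**: a trace identity gives a period -/
theorem per_of_tr [CharP K 2] {f : K → K} (h : IsO f) {n : ℕ} (hn : 0 < n)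
    (hK : Fintype.card K = 2 ^ n) {a c : K} (ha : a ≠ 0)
    (htr : ∀ x, tr n (a * f x) = tr n (c * x)) :
    c ≠ 0 ∧ ∀ x, f (x + 1 / c) = f x + 1 / a := by
  have h2 := CharTwo.two_eq_zero (R := K)
  have hsurj : Function.Surjective f := Finite.injective_iff_surjective.mp h.inj
  have hc : c ≠ 0 := by
    rintro rfl
    obtain ⟨y, hy⟩ := exists_tr_ne_zero hn hK ha
    obtain ⟨x, rfl⟩ := hsurj y
    rw [htr x, zero_mul, tr_zero] at hy
    exact hy rfl
  refine ⟨hc, ?_⟩
  set b : K := c / a with hb'
  have hb : b ≠ 0 := div_ne_zero hc ha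
  have hab : a * b = c := mul_div_cancel₀ _ ha
  have hY : Im f b = univ.filter fun y => tr n (a * y) = 0 := by
    apply eq_of_subset_of_card_le
    · intro y hy
      rw [Im, mem_image] at hy
      obtain ⟨x, _, rfl⟩ := hy
      rw [mem_filter]
      refine ⟨mem_univ _, ?_⟩
      rw [mul_add, ← mul_assoc, hab, tr_add, htr x, CharTwo.add_self_eq_zero]
    · rw [card_Im h hb hn hK]
      apply card_tr_le hn ha
      intro x hx
      exact (mem_filter.mp hx).2
  have hadd : ∀ {y w : K}, y ∈ Im f b → w ∈ Im f b → y + w ∈ Im f b := by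
    intro y w hy hw
    rw [hY, mem_filter] at hy hw ⊢
    refine ⟨mem_univ _, ?_⟩
    rw [mul_add, tr_add, hy.2, hw.2, add_zero]
  set e : K := ∏ w ∈ (Im f b).erase 0, w with he
  have hconst : ∀ y ∈ Im f b, ∏ w ∈ (Im f b).erase y, (y + w) = e := by
    intro y hy
    rw [he]
    refine prod_bij (fun w _ => y + w) ?_ ?_ ?_ ?_
    · intro w hw
      rw [mem_erase] at hw ⊢
      exact ⟨add_ne_zero' hw.1, hadd hy hw.2⟩
    · intro w _ w' _ hww
      exact add_left_cancel hww
    · intro w hw
      rw [mem_erase] at hw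
      refine ⟨y + w, ?_, ?_⟩
      · rw [mem_erase]
        refine ⟨?_, hadd hy hw.2⟩
        intro h1
        exact hw.1 (by simpa using h1)
      · linear_combination y * h2
    · intro w _
      rfl
  have hflat := flat hn hK (card_Im h hb hn hK) (zero_mem_Im h _) hconst
  have hea : a = e ^ 2 := by
    by_contra hne
    have hne' : a + e ^ 2 ≠ 0 := fun h1 => hne (CharTwo.add_eq_zero.mp h1)
    obtain ⟨x, hx⟩ := exists_tr_ne_zero hn hK hne'
    rw [add_mul, tr_add] at hx
    have h3 : tr n (a * x) = 0 ↔ tr n (e ^ 2 * x) = 0 := by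
      rw [← hflat.2 x, hY, mem_filter]
      exact ⟨fun h4 => ⟨mem_univ _, h4⟩, fun h4 => h4.2⟩
    rcases tr_cases hn hK (a * x) with h4 | h4
    · rw [h4, h3.mp h4, add_zero] at hx
      exact hx rfl
    · rcases tr_cases hn hK (e ^ 2 * x) with h5 | h5
      · rw [h3.mpr h5] at h4
        exact zero_ne_one h4
      · rw [h4, h5, CharTwo.add_self_eq_zero] at hx
        exact hx rfl
  intro x
  obtain ⟨x', hx', hxx⟩ := exists_partner h hb x
  have h3 := main_identity h hb hx' hxx
  rw [hconst _ (mem_image_of_mem _ (mem_univ _)), ← hea] at h3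
  have h4 : x + x' = 1 / c := by
    rw [eq_div_iff hc, ← hab]
    linear_combination h3
  have h5 : x' = x + 1 / c := by
    rw [← h4]
    linear_combination (-x) * h2
  have h6 : b * (1 / c) = 1 / a := by
    rw [hb']
    field_simp
  rw [h5] at hxx
  linear_combination hxx - h6 - (1 / a) * h2

theorem per_zero {f : K → K} (h : IsO f) : Per f 0 := fun x => by
  rw [add_zero, h.zero, add_zero]

theorem per_add {f : K → K} {v w : K} (hv : Per f v) (hw : Per f w) : Per f (v + w) := fun x => by
  rw [← add_assoc, hw, hv, hw v, add_assoc]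

/-- **Lemma D** -/
theorem per_harmonic [CharP K 2] {f : K → K} (h : IsO f) {n : ℕ} (hn : 0 < n)
    (hK : Fintype.card K = 2 ^ n) {v w : K} (hv0 : v ≠ 0) (hw0 : w ≠ 0) (hvw : v ≠ w)
    (hv : Per f v) (hw : Per f w) :
    Per f (1 / (1 / v + 1 / w)) ∧ f (1 / (1 / v + 1 / w)) = 1 / (1 / f v + 1 / f w) := by
  have ha : 1 / f v + 1 / f w ≠ 0 := by
    intro h1
    have h3 := CharTwo.add_eq_zero.mp h1
    rw [one_div, one_div] at h3
    exact hvw (h.inj (inv_injective h3))
  have h3 := per_of_tr h hn hK (c := 1 / v + 1 / w) ha (by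
    intro x
    rw [add_mul, add_mul, tr_add, tr_add, one_div_mul_eq_div, one_div_mul_eq_div,
      one_div_mul_eq_div, one_div_mul_eq_div, tr_of_per h hn hK hv0 hv, tr_of_per h hn hK hw0 hw])
  have h4 : f (1 / (1 / v + 1 / w)) = 1 / (1 / f v + 1 / f w) := by
    have h5 := h3.2 0
    rw [zero_add, h.zero, zero_add] at h5
    exact h5
  refine ⟨fun x => ?_, h4⟩
  rw [h4]
  exact h3.2 x

/-- **Lemma E** -/
theorem per_sq_div [CharP K 2] {f : K → K} (h : IsO f) {n : ℕ} (hn : 0 < n)
    (hK : Fintype.card K = 2 ^ n) {u z : K} (hu0 : u ≠ 0) (hz0 : z ≠ 0)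
    (hu : Per f u) (hz : Per f z) :
    Per f (u ^ 2 / z) ∧ f (u ^ 2 / z) = f u ^ 2 / f z := by
  have h2 := CharTwo.two_eq_zero (R := K)
  have hfu := f_ne_zero h hu0
  have hfz := f_ne_zero h hz0
  by_cases huz : u = z
  · subst huz
    have h1 : u ^ 2 / u = u := by field_simp
    have h1' : f u ^ 2 / f u = f u := by field_simp
    rw [h1, h1']
    exact ⟨hu, rfl⟩
  have huz' : u + z ≠ 0 := fun h1 => huz (CharTwo.add_eq_zero.mp h1)
  have hne : u ≠ u + z := fun h1 => hz0 (by simpa using h1)
  obtain ⟨h3, h4⟩ := per_harmonic h hn hK hu0 huz' hne hu (per_add hu hz)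
  have hfuz : f u + f z ≠ 0 := fun h1 => huz (h.inj (CharTwo.add_eq_zero.mp h1))
  have h5 : 1 / (1 / u + 1 / (u + z)) = u ^ 2 / z + u := by
    have h6 : 1 / u + 1 / (u + z) = z / (u * (u + z)) := by
      rw [div_add_div _ _ hu0 huz']
      congr 1
      linear_combination u * h2
    rw [h6, one_div_div]
    field_simp
  have h5' : 1 / (1 / f u + 1 / (f u + f z)) = f u ^ 2 / f z + f u := by
    have h6 : 1 / f u + 1 / (f u + f z) = f z / (f u * (f u + f z)) := by
      rw [div_add_div _ _ hfu hfuz]
      congr 1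
      linear_combination f u * h2
    rw [h6, one_div_div]
    field_simp
  rw [h5] at h3 h4
  rw [hz u, h5'] at h4
  have h7 := per_add h3 hu
  have h8 : u ^ 2 / z + u + u = u ^ 2 / z := by linear_combination u * h2
  rw [h8] at h7
  refine ⟨h7, ?_⟩
  have h9 := hu (u ^ 2 / z + u)
  rw [h8, h4] at h9
  rw [h9]
  linear_combination f u * h2

end

end Pool.Agent.H49.HO
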