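import Mathlib
import Pool.Agent.H49.HO.Core
import Pool.Agent.H53.OM.Lucas

/-!
# Functions whose difference quotients have constant trace are affine
-/

set_option autoImplicit false

namespace Pool.Agent.H49.HO

open Finset Polynomial Pool.Agent.H53.OM

section

variable {K : Type} [Field K] [Fintype K] [DecidableEq K]

/-- the moments of `h` -/
def mom (h : K → K) (l j : ℕ) : K := ∑ y, h y ^ 2 ^ l * y ^ j

omit [DecidableEq K] in
theorem sum_pow [CharP K 2] {m : ℕ} (hK : Fintype.card K = 2 ^ m) {e : ℕ} (he : 0 < e) :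
    ∑ z : K, z ^ e = if 2 ^ m - 1 ∣ e then 1 else 0 := by
  classical
  have h1 := FiniteField.sum_pow_units K e
  rw [hK] at h1
  have h2 : ∑ z : K, z ^ e = ∑ z : Kˣ, (z ^ e : K) := by
    rw [← Finset.sum_subset (subset_univ (univ.erase (0 : K)))]
    · symm
      refine sum_bij (fun (z : Kˣ) _ => (z : K)) ?_ ?_ ?_ ?_
      · intro z _
        exact mem_erase.mpr ⟨z.ne_zero, mem_univ _⟩
      · intro z _ w _ hzw
        exact Units.ext hzw
      · intro z hz
        exact ⟨Units.mk0 z (mem_erase.mp hz).1, mem_univ _, rfl⟩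
      · intro z _
        rfl
    · intro z _ hz
      rw [mem_erase, not_and_or, not_not] at hz
      rcases hz with rfl | hz
      · exact zero_pow he.ne'
      · exact absurd (mem_univ z) hz
  rw [h2, h1]
  split_ifs
  · exact CharTwo.neg_eq 1
  · rfl

theorem mom_key [CharP K 2] {m : ℕ} {h : K → K} {ε : K}
    (hyp : ∀ y w, y ≠ w → ∑ l ∈ range m, ((h y + h w) / (y + w)) ^ 2 ^ l = ε)
    (c s : ℕ) (hs : s < m) (z : K) :
    ∑ l ∈ range m, ∑ k ∈ range c, (c.choose (k + 1) : K) * mom h l (c - (k + 1)) *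
      z ^ (2 ^ m - 2 ^ s - 2 ^ l + (k + 1)) = ε * (∑ y : K, y ^ c) * z ^ (2 ^ m - 2 ^ s) := by
  have h2 := CharTwo.two_eq_zero (R := K)
  have hs2 : 2 ^ s < 2 ^ m := Nat.pow_lt_pow_right (by norm_num) hs
  by_cases hz : z = 0
  · subst hz
    rw [zero_pow (by omega), mul_zero]
    refine sum_eq_zero fun l _ => sum_eq_zero fun k _ => ?_
    rw [zero_pow (by omega), mul_zero]
  have hA : ∀ l, ∑ y : K, (h y ^ 2 ^ l + h (y + z) ^ 2 ^ l) * y ^ c =
      ∑ k ∈ range c, (c.choose (k + 1) : K) * mom h l (c - (k + 1)) * z ^ (k + 1) := by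
    intro l
    have h3 : ∑ y : K, h (y + z) ^ 2 ^ l * y ^ c = ∑ y : K, h y ^ 2 ^ l * (z + y) ^ c := by
      rw [← Equiv.sum_comp (Equiv.addRight z)]
      refine sum_congr rfl fun y _ => ?_
      have h4 : y + z + z = y := by linear_combination z * h2
      show h (y + z + z) ^ 2 ^ l * (y + z) ^ c = _
      rw [h4, add_comm y z]
    have h5 : ∀ y : K, h y ^ 2 ^ l * (z + y) ^ c = ∑ k ∈ range (c + 1),
        (c.choose k : K) * (h y ^ 2 ^ l * y ^ (c - k)) * z ^ k := by
      intro y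
      rw [add_pow, mul_sum]
      refine sum_congr rfl fun k _ => ?_
      ring
    have h6 : ∑ y : K, h y ^ 2 ^ l * (z + y) ^ c = ∑ k ∈ range (c + 1),
        (c.choose k : K) * mom h l (c - k) * z ^ k := by
      simp only [h5]
      rw [sum_comm]
      refine sum_congr rfl fun k _ => ?_
      rw [mom, mul_sum, sum_mul]
    simp only [add_mul]
    rw [sum_add_distrib, h3, h6, sum_range_succ']
    have h7 : ∑ y : K, h y ^ 2 ^ l * y ^ c = mom h l c := rfl
    rw [h7, Nat.choose_zero_right, Nat.cast_one, one_mul, pow_zero, mul_one, Nat.sub_zero]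
    linear_combination (mom h l c) * h2
  have hB : ∑ l ∈ range m, (∑ y : K, (h y ^ 2 ^ l + h (y + z) ^ 2 ^ l) * y ^ c) / z ^ 2 ^ l =
      ε * ∑ y : K, y ^ c := by
    have h3 : ∀ y : K, ∑ l ∈ range m, (h y ^ 2 ^ l + h (y + z) ^ 2 ^ l) * y ^ c / z ^ 2 ^ l =
        ε * y ^ c := by
      intro y
      have h4 := hyp y (y + z) (fun h5 => hz (by simpa using h5))
      have h6 : y + (y + z) = z := by linear_combination y * h2
      rw [h6] at h4
      rw [← h4, sum_mul]
      refine sum_congr rfl fun l _ => ?_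
      rw [div_pow, add_pow_char_pow _ _ 2 l]
      ring
    simp only [sum_div]
    rw [sum_comm, mul_sum]
    exact sum_congr rfl fun y _ => h3 y
  rw [← hB, sum_mul]
  refine sum_congr rfl fun l hl => ?_
  rw [hA, sum_div, sum_mul]
  refine sum_congr rfl fun k _ => ?_
  have hl2 : 2 ^ l ≤ 2 ^ m - 2 ^ s := by
    rw [mem_range] at hl
    have h3 : 2 ^ l ≤ 2 ^ (m - 1) := Nat.pow_le_pow_right (by norm_num) (by omega)
    have h4 : 2 ^ s ≤ 2 ^ (m - 1) := Nat.pow_le_pow_right (by norm_num) (by omega)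
    have h5 : 2 ^ m = 2 * 2 ^ (m - 1) := by
      rw [← pow_succ']
      congr 1
      omega
    omega
  have h8 : z ^ (2 ^ m - 2 ^ s) = z ^ (2 ^ m - 2 ^ s - 2 ^ l) * z ^ 2 ^ l := by
    rw [← pow_add, Nat.sub_add_cancel hl2]
  rw [pow_add, h8]
  field_simp

/-- the relations between the moments -/
theorem mom_rel [CharP K 2] {m : ℕ} (hK : Fintype.card K = 2 ^ m) {h : K → K} {ε : K}
    (hyp : ∀ y w, y ≠ w → ∑ l ∈ range m, ((h y + h w) / (y + w)) ^ 2 ^ l = ε)
    {c s : ℕ} (hc : c < 2 ^ m) (hs : s < m) (hne : s ≠ 0 ∨ c ≠ 2 ^ m - 1) :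
    ∑ l ∈ range m, (c.choose (2 ^ s + 2 ^ l - 1) : K) * mom h l (c - (2 ^ s + 2 ^ l - 1)) = 0 := by
  have hs2 : 2 ^ s < 2 ^ m := Nat.pow_lt_pow_right (by norm_num) hs
  have hs1 : 1 ≤ 2 ^ s := Nat.one_le_two_pow
  have h1 : ∑ z : K, ∑ l ∈ range m, ∑ k ∈ range c, (c.choose (k + 1) : K) *
      mom h l (c - (k + 1)) * z ^ (2 ^ m - 2 ^ s - 2 ^ l + (k + 1)) = 0 := by
    simp only [mom_key hyp c s hs]
    rw [← mul_sum]
    by_cases hs0 : s = 0
    · have hc1 : c ≠ 2 ^ m - 1 := by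
        rcases hne with h | h
        · exact absurd hs0 h
        · exact h
      have h2 : ∑ y : K, y ^ c = 0 := by
        rcases Nat.eq_zero_or_pos c with h0 | h0
        · rw [h0]
          simp only [pow_zero, sum_const, card_univ, nsmul_eq_mul, mul_one]
          exact Nat.cast_card_eq_zero K
        · rw [sum_pow hK h0, if_neg]
          intro h3
          have := Nat.le_of_dvd h0 h3
          omega
      rw [h2, mul_zero, zero_mul]
    · have h6 : ∑ z : K, z ^ (2 ^ m - 2 ^ s) = 0 := by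
        rw [sum_pow hK (Nat.sub_pos_of_lt hs2), if_neg]
        intro h3
        have h4 := Nat.le_of_dvd (Nat.sub_pos_of_lt hs2) h3
        have h5 : 2 ^ 1 ≤ 2 ^ s := Nat.pow_le_pow_right (by norm_num) (by omega)
        omega
      rw [h6, mul_zero]
  rw [sum_comm] at h1
  rw [← h1]
  refine sum_congr rfl fun l hl => ?_
  rw [mem_range] at hl
  rw [sum_comm]
  have hl1 : 1 ≤ 2 ^ l := Nat.one_le_two_pow
  have h5 : 2 ^ m = 2 * 2 ^ (m - 1) := by
    rw [← pow_succ']
    congr 1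
    omega
  have h3 : 2 ^ l ≤ 2 ^ (m - 1) := Nat.pow_le_pow_right (by norm_num) (by omega)
  have h4 : 2 ^ s ≤ 2 ^ (m - 1) := Nat.pow_le_pow_right (by norm_num) (by omega)
  have h6 : ∀ k ∈ range c, ∑ z : K, (c.choose (k + 1) : K) * mom h l (c - (k + 1)) *
      z ^ (2 ^ m - 2 ^ s - 2 ^ l + (k + 1)) = if k + 1 = 2 ^ s + 2 ^ l - 1 then
      (c.choose (k + 1) : K) * mom h l (c - (k + 1)) else 0 := by
    intro k hk
    rw [mem_range] at hk
    rw [← mul_sum, sum_pow hK (by omega)]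
    have h7 : (2 ^ m - 1 ∣ 2 ^ m - 2 ^ s - 2 ^ l + (k + 1)) ↔ k + 1 = 2 ^ s + 2 ^ l - 1 := by
      constructor
      · rintro ⟨d, hd⟩
        have hd1 : d = 1 := by
          rcases Nat.lt_or_ge d 2 with h8 | h8
          · rcases Nat.eq_zero_or_pos d with h9 | h9
            · rw [h9, mul_zero] at hd
              omega
            · omega
          · exfalso
            have h9 : (2 ^ m - 1) * 2 ≤ (2 ^ m - 1) * d := Nat.mul_le_mul_left _ h8
            omega
        rw [hd1, mul_one] at hd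
        omega
      · intro h8
        exact ⟨1, by omega⟩
    by_cases h8 : k + 1 = 2 ^ s + 2 ^ l - 1
    · rw [if_pos (h7.mpr h8), if_pos h8, mul_one]
    · rw [if_neg (fun h9 => h8 (h7.mp h9)), if_neg h8, mul_zero]
  rw [sum_congr rfl h6]
  by_cases h7 : 2 ^ s + 2 ^ l - 1 ≤ c
  · rw [sum_eq_single (2 ^ s + 2 ^ l - 2)]
    · have h8 : 2 ^ s + 2 ^ l - 2 + 1 = 2 ^ s + 2 ^ l - 1 := by omega
      rw [h8, if_pos rfl]
    · intro k _ hk
      rw [if_neg (by omega)]
    · intro h8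
      exfalso
      rw [mem_range] at h8
      omega
  · rw [Nat.choose_eq_zero_of_lt (by omega), Nat.cast_zero, zero_mul]
    symm
    refine sum_eq_zero fun k hk => ?_
    rw [mem_range] at hk
    rw [if_neg (by omega)]

omit [Fintype K] [DecidableEq K] in
theorem cast_choose [CharP K 2] (c k : ℕ) :
    ((c.choose k : ℕ) : K) = 0 ∨ Dom k c ∧ ((c.choose k : ℕ) : K) = 1 := by
  rcases Nat.even_or_odd (c.choose k) with h | h
  · left
    exact (CharP.cast_eq_zero_iff K 2 _).mpr h.two_dvd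
  · right
    refine ⟨(odd_choose c k).mp h, ?_⟩
    obtain ⟨r, hr⟩ := h
    rw [hr]
    push_cast
    rw [CharTwo.two_eq_zero, zero_mul, zero_add]

theorem testBit_iff (x i : ℕ) : x.testBit i = true ↔ x / 2 ^ i % 2 = 1 := by
  rw [Nat.testBit_eq_decide_div_mod_eq, decide_eq_true_eq]

/-- a number with digit `p` equal to zero -/
theorem add_two_pow_lt {j p m : ℕ} (hj : j < 2 ^ m) (hp : p < m) (h : j / 2 ^ p % 2 = 0) :
    j + 2 ^ p < 2 ^ m := by
  obtain ⟨r, rfl⟩ : ∃ r, m = p + 1 + r := ⟨m - p - 1, by omega⟩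
  have h1 : 2 ^ (p + 1 + r) = 2 ^ p * (2 * 2 ^ r) := by rw [pow_add, pow_succ]; ring
  rw [h1] at hj ⊢
  have h2 : j / 2 ^ p < 2 * 2 ^ r := Nat.div_lt_of_lt_mul hj
  have h3 : j / 2 ^ p + 2 ≤ 2 * 2 ^ r := by omega
  have h4 : j < 2 ^ p * (j / 2 ^ p + 1) := by
    have := Nat.lt_mul_div_succ j (show 0 < 2 ^ p by positivity)
    exact this
  have h5 : 2 ^ p * (j / 2 ^ p + 2) ≤ 2 ^ p * (2 * 2 ^ r) := Nat.mul_le_mul_left _ h3
  have h6 : 2 ^ p * (j / 2 ^ p + 2) = 2 ^ p * (j / 2 ^ p + 1) + 2 ^ p := by ring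
  omega

omit [Fintype K] [DecidableEq K] in
theorem choose_add_two_pow [CharP K 2] {j p : ℕ} (h : j / 2 ^ p % 2 = 0) :
    (((j + 2 ^ p).choose (2 ^ p) : ℕ) : K) = 1 := by
  have h1 : Dom (2 ^ p) (j + 2 ^ p) := by
    intro i hi
    rw [Nat.testBit_two_pow] at hi
    have hip : p = i := by simpa using hi
    subst hip
    rw [testBit_iff, Nat.add_div_right _ (by positivity)]
    omega
  have h2 := (odd_choose (j + 2 ^ p) (2 ^ p)).mpr h1
  obtain ⟨r, hr⟩ := h2
  rw [hr]
  push_cast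
  rw [CharTwo.two_eq_zero, zero_mul, zero_add]

/-- even exponents with another digit zero -/
theorem mom_even [CharP K 2] {m : ℕ} (hK : Fintype.card K = 2 ^ m) {h : K → K} {ε : K}
    (hyp : ∀ y w, y ≠ w → ∑ l ∈ range m, ((h y + h w) / (y + w)) ^ 2 ^ l = ε)
    {j p : ℕ} (hj : j < 2 ^ m) (hj2 : j % 2 = 0) (hp1 : 1 ≤ p) (hp : p < m)
    (hjp : j / 2 ^ p % 2 = 0) : mom h 0 j = 0 := by
  have h0 : 2 ^ p % 2 = 0 := by
    obtain ⟨r, rfl⟩ : ∃ r, p = r + 1 := ⟨p - 1, by omega⟩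
    rw [pow_succ]
    exact Nat.mul_mod_left _ _
  have h1 := mom_rel hK hyp (c := j + 2 ^ p) (add_two_pow_lt hj hp hjp) hp
    (Or.inl (by omega))
  rw [sum_eq_single 0] at h1
  · have h2 : 2 ^ p + 2 ^ 0 - 1 = 2 ^ p := by rw [pow_zero, Nat.add_sub_cancel]
    rw [h2, choose_add_two_pow hjp, one_mul, Nat.add_sub_cancel] at h1
    exact h1
  · intro l _ hl
    rcases cast_choose (K := K) (j + 2 ^ p) (2 ^ p + 2 ^ l - 1) with h2 | ⟨h2, _⟩
    · rw [h2, zero_mul]
    · exfalso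
      have h3 : 2 ^ l % 2 = 0 := by
        obtain ⟨r, rfl⟩ : ∃ r, l = r + 1 := ⟨l - 1, by omega⟩
        rw [pow_succ]
        exact Nat.mul_mod_left _ _
      have h4 := h2 0 (by
        rw [testBit_iff, pow_zero, Nat.div_one]
        have := Nat.one_le_two_pow (n := l)
        have := Nat.one_le_two_pow (n := p)
        omega)
      rw [testBit_iff, pow_zero, Nat.div_one] at h4
      omega
  · intro h2
    exfalso
    rw [mem_range] at h2
    omega

omit [DecidableEq K] in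
theorem mom_pow [CharP K 2] (h : K → K) (l k j : ℕ) :
    mom h l j ^ 2 ^ k = mom h (l + k) (j * 2 ^ k) := by
  unfold mom
  rw [sum_pow_char_pow]
  refine sum_congr rfl fun y _ => ?_
  rw [mul_pow, ← pow_mul, ← pow_mul, ← pow_add]

omit [DecidableEq K] in
theorem mom_wrap {m : ℕ} (hK : Fintype.card K = 2 ^ m) (h : K → K) (a b : ℕ) :
    mom h m (2 ^ m * a + b) = mom h 0 (a + b) := by
  unfold mom
  refine sum_congr rfl fun y _ => ?_
  rw [pow_zero, pow_one, ← hK, FiniteField.pow_card, pow_add, pow_mul, FiniteField.pow_card,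
    pow_add]

/-- digit `l` zero, `l ≥ 1`, and digit `0` zero -/
theorem mom_rot [CharP K 2] {m : ℕ} (hK : Fintype.card K = 2 ^ m) {h : K → K} {ε : K}
    (hyp : ∀ y w, y ≠ w → ∑ l ∈ range m, ((h y + h w) / (y + w)) ^ 2 ^ l = ε)
    {l H L : ℕ} (hl1 : 1 ≤ l) (hl : l < m) (hH : H < 2 ^ (m - l - 1)) (hL : 2 * L < 2 ^ l) :
    mom h l (2 ^ (l + 1) * H + 2 * L) = 0 := by
  have h1 : mom h l (2 ^ (l + 1) * H + 2 * L) ^ 2 ^ (m - l) = 0 := by
    rw [mom_pow, Nat.add_sub_cancel' hl.le]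
    have h2 : (2 ^ (l + 1) * H + 2 * L) * 2 ^ (m - l) = 2 ^ m * (2 * H) + 2 ^ (m - l + 1) * L := by
      have h3 : 2 ^ (l + 1) * 2 ^ (m - l) = 2 ^ m * 2 := by
        rw [← pow_add, ← pow_succ]
        congr 1
        omega
      rw [pow_succ 2 (m - l)]
      linear_combination H * h3
    rw [h2, mom_wrap hK]
    have hml : 2 ^ (m - l) = 2 * 2 ^ (m - l - 1) := by
      rw [← pow_succ']
      congr 1
      omega
    have hlt : 2 * H < 2 ^ (m - l) := by omega
    refine mom_even hK hyp (p := m - l) ?_ ?_ (by omega) (by omega) ?_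
    · have hl2 : 2 ^ l = 2 * 2 ^ (l - 1) := by
        rw [← pow_succ']
        congr 1
        omega
      have hL' : L + 1 ≤ 2 ^ (l - 1) := by omega
      have h3 : 2 ^ (m - l + 1) * (L + 1) ≤ 2 ^ (m - l + 1) * 2 ^ (l - 1) :=
        Nat.mul_le_mul_left _ hL'
      have h4 : 2 ^ (m - l + 1) * 2 ^ (l - 1) = 2 ^ m := by
        rw [← pow_add]
        congr 1
        omega
      have h5 : 2 ^ (m - l + 1) = 2 ^ (m - l) * 2 := pow_succ _ _
      have h6 : 2 ^ (m - l + 1) * (L + 1) = 2 ^ (m - l + 1) * L + 2 ^ (m - l + 1) := by ring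
      omega
    · rw [pow_succ, mul_comm (2 ^ (m - l)) 2, mul_assoc, ← mul_add]
      exact Nat.mul_mod_right _ _
    · have h3 : 2 * H + 2 ^ (m - l + 1) * L = 2 * H + 2 ^ (m - l) * (2 * L) := by
        rw [pow_succ]; ring
      rw [h3, Nat.add_mul_div_left _ _ (by positivity), Nat.div_eq_of_lt hlt, zero_add]
      exact Nat.mul_mod_right _ _
  exact pow_eq_zero_iff (by positivity) |>.mp h1

/-- odd exponents with a digit zero -/
theorem mom_odd [CharP K 2] {m : ℕ} (hK : Fintype.card K = 2 ^ m) {h : K → K} {ε : K}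
    (hyp : ∀ y w, y ≠ w → ∑ l ∈ range m, ((h y + h w) / (y + w)) ^ 2 ^ l = ε) (s : ℕ) :
    ∀ j, 1 ≤ s → s < m → j < 2 ^ m → j % 2 ^ (s + 1) = 2 ^ s - 1 → mom h 0 j = 0 := by
  induction s using Nat.strong_induction_on with
  | _ s ih =>
  intro j hs1 hs hj hjs
  have hs2 : 2 ^ (s + 1) = 2 * 2 ^ s := pow_succ' _ _
  have hspos : 2 ≤ 2 ^ s := by
    calc 2 = 2 ^ 1 := (pow_one 2).symm
      _ ≤ 2 ^ s := Nat.pow_le_pow_right (by norm_num) hs1
  -- digit `s` of `j` is zero
  have hbit : j / 2 ^ s % 2 = 0 := by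
    have h1 := Nat.mod_mul_right_div_self j (2 ^ s) 2
    rw [mul_comm (2 ^ s) 2, ← hs2, hjs, Nat.div_eq_of_lt (by omega)] at h1
    exact h1.symm
  have h1 := mom_rel hK hyp (c := j + 2 ^ s) (add_two_pow_lt hj hs hbit) hs (Or.inl (by omega))
  rw [sum_eq_single 0] at h1
  · have h2 : 2 ^ s + 2 ^ 0 - 1 = 2 ^ s := by rw [pow_zero, Nat.add_sub_cancel]
    rw [h2, choose_add_two_pow hbit, one_mul, Nat.add_sub_cancel] at h1
    exact h1
  · intro l hl hl0
    rw [mem_range] at hl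
    rcases Nat.lt_or_ge l s with hls | hls
    · -- the digits below `l` are removed
      have hlpos : 2 ≤ 2 ^ l := by
        calc 2 = 2 ^ 1 := (pow_one 2).symm
          _ ≤ 2 ^ l := Nat.pow_le_pow_right (by norm_num) (by omega)
      obtain ⟨r, rfl⟩ : ∃ r, s = l + r := ⟨s - l, by omega⟩
      have hpow : 2 ^ (l + r) = 2 ^ l * 2 ^ r := pow_add _ _ _
      have hpow' : 2 ^ (l + r + 1) = 2 ^ l * 2 ^ (r + 1) := by rw [← pow_add]; rfl
      have hmodl : j % 2 ^ l = 2 ^ l - 1 := by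
        have h3 : j % 2 ^ (l + r + 1) % 2 ^ l = j % 2 ^ l := by
          rw [hpow', Nat.mod_mul_right_mod]
        rw [← h3, hjs, hpow]
        have hr1 : 1 ≤ 2 ^ r := Nat.one_le_two_pow
        have h4 : 2 ^ l * 2 ^ r - 1 = 2 ^ l * (2 ^ r - 1) + (2 ^ l - 1) := by
          have h5 : 2 ^ l * 2 ^ r = 2 ^ l * (2 ^ r - 1) + 2 ^ l := by
            obtain ⟨u, hu⟩ : ∃ u, 2 ^ r = u + 1 := ⟨2 ^ r - 1, by omega⟩
            rw [hu, Nat.add_sub_cancel]
            ring
          omega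
        rw [h4, Nat.mul_add_mod, Nat.mod_eq_of_lt (by omega)]
      have hj' : j + 2 ^ (l + r) - (2 ^ (l + r) + 2 ^ l - 1) = (j / 2 ^ l) * 2 ^ l := by
        have h3 := Nat.div_add_mod j (2 ^ l)
        rw [hmodl] at h3
        rw [mul_comm (j / 2 ^ l)]
        omega
      have hdiv : j / 2 ^ l % 2 ^ (r + 1) = 2 ^ r - 1 := by
        have h3 := Nat.mod_mul_right_div_self j (2 ^ l) (2 ^ (r + 1))
        rw [← hpow', hjs] at h3
        rw [← h3, hpow]
        have hr1 : 1 ≤ 2 ^ r := Nat.one_le_two_pow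
        have h4 : 2 ^ l * 2 ^ r - 1 = 2 ^ l * (2 ^ r - 1) + (2 ^ l - 1) := by
          have h5 : 2 ^ l * 2 ^ r = 2 ^ l * (2 ^ r - 1) + 2 ^ l := by
            obtain ⟨u, hu⟩ : ∃ u, 2 ^ r = u + 1 := ⟨2 ^ r - 1, by omega⟩
            rw [hu, Nat.add_sub_cancel]
            ring
          omega
        rw [h4, Nat.mul_add_div (by omega), Nat.div_eq_of_lt (by omega), add_zero]
      have h5 := ih r (by omega) (j / 2 ^ l) (by omega) (by omega)
        (lt_of_le_of_lt (Nat.div_le_self _ _) hj) hdiv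
      have h6 : mom h l (j / 2 ^ l * 2 ^ l) = 0 := by
        have h7 := mom_pow h 0 l (j / 2 ^ l)
        rw [h5, zero_pow (by positivity), zero_add] at h7
        exact h7.symm
      rw [hj', h6, mul_zero]
    · rcases cast_choose (K := K) (j + 2 ^ s) (2 ^ s + 2 ^ l - 1) with h2 | ⟨h2, _⟩
      · rw [h2, zero_mul]
      · -- digit `l` of `c` is one
        have hlpos : 2 ^ s ≤ 2 ^ l := Nat.pow_le_pow_right (by norm_num) hls
        have hl2 : 2 ^ (l + 1) = 2 * 2 ^ l := pow_succ' _ _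
        set c := j + 2 ^ s with hc
        have hcm : c < 2 ^ m := add_two_pow_lt hj hs hbit
        have hcl : c / 2 ^ l % 2 = 1 := by
          rw [← testBit_iff]
          apply h2
          rw [testBit_iff]
          rcases eq_or_lt_of_le hls with h3 | h3
          · subst h3
            have h4 : 2 ^ s + 2 ^ s - 1 = 2 ^ s * 1 + (2 ^ s - 1) := by omega
            rw [h4, Nat.mul_add_div (by omega), Nat.div_eq_of_lt (by omega)]
          · have h5 : 2 ^ s < 2 ^ l := Nat.pow_lt_pow_right (by norm_num) h3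
            have h4 : 2 ^ s + 2 ^ l - 1 = 2 ^ l * 1 + (2 ^ s - 1) := by omega
            rw [h4, Nat.mul_add_div (by omega), Nat.div_eq_of_lt (by omega)]
        have hcs : c % 2 ^ (s + 1) = 2 ^ (s + 1) - 1 := by
          rw [hc, Nat.add_mod, hjs, Nat.mod_eq_of_lt (show 2 ^ s < 2 ^ (s + 1) by omega),
            Nat.mod_eq_of_lt (by omega)]
          omega
        -- the decomposition of `c`
        have hdm := Nat.div_add_mod c (2 ^ l)
        have hdm2 := Nat.div_add_mod (c / 2 ^ l) 2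
        rw [hcl] at hdm2
        have hlow : c % 2 ^ l < 2 ^ l := Nat.mod_lt _ (by positivity)
        have hc2 : c = 2 ^ (l + 1) * (c / 2 ^ l / 2) + 2 ^ l + c % 2 ^ l := by
          have h3 : 2 ^ l * (c / 2 ^ l) = 2 ^ (l + 1) * (c / 2 ^ l / 2) + 2 ^ l := by
            rw [← hdm2, hl2]
            have h4 : (2 * (c / 2 ^ l / 2) + 1) / 2 = c / 2 ^ l / 2 := by omega
            rw [h4]
            ring
          omega
        have hlow2 : 2 ^ s - 1 ≤ c % 2 ^ l ∧ c % 2 ^ l % 2 = 1 := by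
          have hodd : c % 2 = 1 := by
            have h3 : c % 2 ^ (s + 1) % 2 = c % 2 := by
              rw [hs2, Nat.mod_mul_right_mod]
            rw [← h3, hcs]
            omega
          have hl3 : c % 2 ^ l % 2 = 1 := by
            obtain ⟨r, rfl⟩ : ∃ r, l = r + 1 := ⟨l - 1, by omega⟩
            rw [pow_succ', Nat.mod_mul_right_mod]
            exact hodd
          refine ⟨?_, hl3⟩
          obtain ⟨r, hr⟩ : ∃ r, l = s + r := ⟨l - s, by omega⟩
          have h3 : c % 2 ^ l % 2 ^ s = 2 ^ s - 1 := by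
            have h4 : c % 2 ^ l % 2 ^ s = c % 2 ^ s := by
              rw [hr, pow_add, Nat.mod_mul_right_mod]
            have h5 : c % 2 ^ (s + 1) % 2 ^ s = c % 2 ^ s := by
              rw [pow_succ, Nat.mod_mul_right_mod]
            rw [h4, ← h5, hcs, hs2]
            have h6 : 2 * 2 ^ s - 1 = 2 ^ s * 1 + (2 ^ s - 1) := by omega
            rw [h6, Nat.mul_add_mod, Nat.mod_eq_of_lt (by omega)]
          have h4 := Nat.mod_le (c % 2 ^ l) (2 ^ s)
          omega
        obtain ⟨r, hr⟩ : ∃ r, 2 ^ s = 2 * r := by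
          obtain ⟨u, rfl⟩ : ∃ u, s = u + 1 := ⟨s - 1, by omega⟩
          exact ⟨2 ^ u, pow_succ' _ _⟩
        obtain ⟨L, hL⟩ : ∃ L, c % 2 ^ l - (2 ^ s - 1) = 2 * L :=
          ⟨(c % 2 ^ l - (2 ^ s - 1)) / 2, by omega⟩
        have h3 : c - (2 ^ s + 2 ^ l - 1) = 2 ^ (l + 1) * (c / 2 ^ l / 2) + 2 * L := by omega
        rw [h3, mom_rot hK hyp (by omega) hl ?_ (by omega), mul_zero]
        have h4 : 2 ^ m = 2 ^ (l + 1) * 2 ^ (m - l - 1) := by
          rw [← pow_add]
          congr 1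
          omega
        have h5 : 2 ^ (l + 1) * (c / 2 ^ l / 2) < 2 ^ (l + 1) * 2 ^ (m - l - 1) := by omega
        exact Nat.lt_of_mul_lt_mul_left h5
  · intro h2
    exfalso
    rw [mem_range] at h2
    omega

/-- all moments but two vanish -/
theorem mom_zero [CharP K 2] {m : ℕ} (hK : Fintype.card K = 2 ^ m) {h : K → K} {ε : K}
    (hyp : ∀ y w, y ≠ w → ∑ l ∈ range m, ((h y + h w) / (y + w)) ^ 2 ^ l = ε)
    {j : ℕ} (hj : j + 2 < 2 ^ m) : mom h 0 j = 0 := by
  -- there is a digit `p ≥ 1` of `j` which is zero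
  have hex : ∃ p, 1 ≤ p ∧ p < m ∧ j / 2 ^ p % 2 = 0 := by
    by_contra hcon
    push Not at hcon
    have h1 : ∀ p, 1 ≤ p → p ≤ m → 2 ^ p - 2 ≤ j % 2 ^ p := by
      intro p hp1
      induction p, hp1 using Nat.le_induction with
      | base => intro _; simp
      | succ p hp1 ih =>
        intro hpm
        have h2 := ih (by omega)
        have h3 := hcon p hp1 (by omega)
        have h4 : j % 2 ^ (p + 1) = j % 2 ^ p + 2 ^ p * (j / 2 ^ p % 2) := by
          rw [pow_succ, Nat.mod_mul]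
        have h5 : j / 2 ^ p % 2 = 1 := by omega
        rw [h5, mul_one] at h4
        have h6 : 2 ^ (p + 1) = 2 * 2 ^ p := pow_succ' _ _
        have h7 : 2 ≤ 2 ^ p := by
          calc 2 = 2 ^ 1 := (pow_one 2).symm
            _ ≤ 2 ^ p := Nat.pow_le_pow_right (by norm_num) hp1
        omega
    have hm1 : 1 ≤ m := by
      rcases Nat.eq_zero_or_pos m with h0 | h0
      · rw [h0, pow_zero] at hj
        omega
      · exact h0
    have h2 := h1 m hm1 (le_refl m)
    rw [Nat.mod_eq_of_lt (by omega)] at h2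
    omega
  rcases Nat.mod_two_eq_zero_or_one j with h0 | h0
  · obtain ⟨p, hp1, hp, hjp⟩ := hex
    exact mom_even hK hyp (by omega) h0 hp1 hp hjp
  · classical
    set s := Nat.find hex with hs
    obtain ⟨hs1, hsm, hjs⟩ := Nat.find_spec hex
    rw [← hs] at hs1 hsm hjs
    have hmin : ∀ p, 1 ≤ p → p < s → j / 2 ^ p % 2 = 1 := by
      intro p hp1 hps
      have h1 := Nat.find_min hex hps
      by_contra h2
      exact h1 ⟨hp1, by omega, by omega⟩
    have h1 : ∀ p, 1 ≤ p → p ≤ s → j % 2 ^ p = 2 ^ p - 1 := by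
      intro p hp1
      induction p, hp1 using Nat.le_induction with
      | base => intro _; rw [pow_one]; exact h0
      | succ p hp1 ih =>
        intro hpm
        have h2 := ih (by omega)
        have h3 := hmin p hp1 (by omega)
        have h4 : j % 2 ^ (p + 1) = j % 2 ^ p + 2 ^ p * (j / 2 ^ p % 2) := by
          rw [pow_succ, Nat.mod_mul]
        rw [h3, h2, mul_one] at h4
        have h6 : 2 ^ (p + 1) = 2 * 2 ^ p := pow_succ' _ _
        have h7 := Nat.one_le_two_pow (n := p)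
        omega
    refine mom_odd hK hyp s j hs1 hsm (by omega) ?_
    have h4 : j % 2 ^ (s + 1) = j % 2 ^ s + 2 ^ s * (j / 2 ^ s % 2) := by
      rw [pow_succ, Nat.mod_mul]
    rw [h4, hjs, mul_zero, add_zero]
    exact h1 s hs1 (le_refl s)

/-- **Lemma L** -/
theorem affine_of_trace [CharP K 2] {m : ℕ} (hm : 0 < m) (hK : Fintype.card K = 2 ^ m)
    {h : K → K} {ε : K}
    (hyp : ∀ y w, y ≠ w → ∑ l ∈ range m, ((h y + h w) / (y + w)) ^ 2 ^ l = ε) :
    ∃ c d : K, ∀ y, h y = c * y + d := by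
  have h2 := CharTwo.two_eq_zero (R := K)
  have hm2 : 2 ≤ 2 ^ m := by
    calc 2 = 2 ^ 1 := (pow_one 2).symm
      _ ≤ 2 ^ m := Nat.pow_le_pow_right (by norm_num) hm
  refine ⟨mom h 0 (2 ^ m - 2), mom h 0 0 + mom h 0 (2 ^ m - 1), fun y => ?_⟩
  -- interpolation
  have h3 : h y = ∑ x : K, h x * (1 + (x + y) ^ (2 ^ m - 1)) := by
    rw [sum_eq_single y]
    · rw [CharTwo.add_self_eq_zero, zero_pow (by omega), add_zero, mul_one]
    · intro x _ hxy
      have h4 : x + y ≠ 0 := fun h5 => hxy (CharTwo.add_eq_zero.mp h5)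
      rw [← hK, FiniteField.pow_card_sub_one_eq_one _ h4, CharTwo.add_self_eq_zero, mul_zero]
    · intro h4
      exact absurd (mem_univ y) h4
  have h4 : ∀ x : K, h x * (1 + (x + y) ^ (2 ^ m - 1)) = h x ^ 2 ^ 0 * x ^ 0 +
      ∑ k ∈ range (2 ^ m), (h x ^ 2 ^ 0 * x ^ k) * y ^ (2 ^ m - 1 - k) := by
    intro x
    rw [add_pow, mul_add, mul_sum, pow_zero, pow_zero, pow_one, Nat.sub_add_cancel (by omega)]
    congr 1
    refine sum_congr rfl fun k hk => ?_
    rw [mem_range] at hk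
    have h5 : (((2 ^ m - 1).choose k : ℕ) : K) = 1 := by
      have h6 : Dom k (2 ^ m - 1) := by
        intro i hi
        rw [Nat.testBit_two_pow_sub_one, decide_eq_true_eq]
        by_contra h7
        push Not at h7
        rw [Nat.testBit_lt_two_pow (lt_of_lt_of_le hk (Nat.pow_le_pow_right (by norm_num) h7))]
          at hi
        exact absurd hi (by decide)
      obtain ⟨r, hr⟩ := (odd_choose (2 ^ m - 1) k).mpr h6
      rw [hr]
      push_cast
      rw [h2, zero_mul, zero_add]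
    rw [h5]
    ring
  rw [h3]
  simp only [h4]
  rw [sum_add_distrib, sum_comm]
  have h5 : ∀ k ∈ range (2 ^ m), ∑ x : K, h x ^ 2 ^ 0 * x ^ k * y ^ (2 ^ m - 1 - k) =
      mom h 0 k * y ^ (2 ^ m - 1 - k) := by
    intro k _
    rw [mom, sum_mul]
  rw [sum_congr rfl h5]
  obtain ⟨N, hN⟩ : ∃ N, 2 ^ m = N + 2 := ⟨2 ^ m - 2, by omega⟩
  rw [hN, sum_range_succ, sum_range_succ]
  have h6 : ∑ k ∈ range N, mom h 0 k * y ^ (N + 2 - 1 - k) = 0 := by
    refine sum_eq_zero fun k hk => ?_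
    rw [mem_range] at hk
    rw [mom_zero hK hyp (by omega), zero_mul]
  have h7 : N + 2 - 1 - N = 1 := by omega
  have h8 : N + 2 - 1 - (N + 1) = 0 := by omega
  have h9 : N + 2 - 2 = N := by omega
  have h10 : N + 2 - 1 = N + 1 := by omega
  have h11 : ∑ x : K, h x ^ 2 ^ 0 * x ^ 0 = mom h 0 0 := rfl
  rw [h6, h7, h8, h9, h10, h11]
  ring

end

end Pool.Agent.H49.HO
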