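import Mathlib
import Pool.Agent.H49.HO.Core

/-!
# The periods of an o-polynomial form a subfield, up to a factor
-/

set_option autoImplicit false

namespace Pool.Agent.H49.HO

open Finset Polynomial

section

variable {K : Type} [Field K] [Fintype K] [DecidableEq K]

/-- powers of squares stay among the periods -/
theorem per_pow [CharP K 2] {f : K → K} (h : IsO f) {n : ℕ} (hn : 0 < n)
    (hK : Fintype.card K = 2 ^ n) {v x : K} (hv0 : v ≠ 0) (hv : Per f v) (hx0 : x ≠ 0)
    (hx : Per f (v * x)) (k : ℕ) :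
    Per f (v * x ^ 2 ^ k) ∧ f (v * x ^ 2 ^ k) / f v = (f (v * x) / f v) ^ 2 ^ k := by
  have hfv := f_ne_zero h hv0
  induction k with
  | zero =>
    rw [pow_zero, pow_one, pow_one]
    exact ⟨hx, rfl⟩
  | succ k ih =>
    obtain ⟨h1, h2⟩ := ih
    have h3 := per_sq_div h hn hK (mul_ne_zero hv0 (pow_ne_zero (2 ^ k) hx0)) hv0 h1 hv
    have h4 : (v * x ^ 2 ^ k) ^ 2 / v = v * x ^ 2 ^ (k + 1) := by
      rw [pow_succ 2 k, pow_mul]
      field_simp
    rw [h4] at h3
    refine ⟨h3.1, ?_⟩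
    rw [h3.2, pow_succ 2 k, pow_mul, ← h2]
    field_simp

/-- division -/
theorem per_div [CharP K 2] {f : K → K} (h : IsO f) {n : ℕ} (hn : 0 < n)
    (hK : Fintype.card K = 2 ^ n) {v x y : K} (hv0 : v ≠ 0) (hv : Per f v) (hx0 : x ≠ 0)
    (hx : Per f (v * x)) (hy0 : y ≠ 0) (hy : Per f (v * y)) :
    Per f (v * (x / y)) ∧ f (v * (x / y)) / f v = (f (v * x) / f v) / (f (v * y) / f v) := by
  have hfv := f_ne_zero h hv0
  have hfvx := f_ne_zero h (mul_ne_zero hv0 hx0)
  have hfvy := f_ne_zero h (mul_ne_zero hv0 hy0)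
  set z : K := x ^ 2 ^ (n - 1) with hz
  have hz2 : z ^ 2 = x := by
    rw [hz, ← pow_mul, ← pow_succ, Nat.sub_add_cancel hn, ← hK, FiniteField.pow_card]
  have hz0 : z ≠ 0 := pow_ne_zero _ hx0
  have h1 := per_pow h hn hK hv0 hv hx0 hx (n - 1)
  rw [← hz] at h1
  have h2 := per_sq_div h hn hK (mul_ne_zero hv0 hz0) (mul_ne_zero hv0 hy0) h1.1 hy
  have h4 : (v * z) ^ 2 / (v * y) = v * (x / y) := by
    rw [mul_pow, hz2]
    field_simp
  rw [h4] at h2
  refine ⟨h2.1, ?_⟩
  have h5 := (per_pow h hn hK hv0 hv hz0 h1.1 1).2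
  rw [pow_one, hz2] at h5
  rw [h2.2]
  have h6 : f (v * x) * f v = f (v * z) ^ 2 := by
    field_simp at h5
    linear_combination h5
  rw [← h6]
  field_simp

theorem per_one [CharP K 2] {f : K → K} {v : K} (hv : Per f v) : Per f (v * 1) := by
  rw [mul_one]
  exact hv

/-- the subfield of the `x` such that `v x` is a period -/
def perField [CharP K 2] {f : K → K} (h : IsO f) {n : ℕ} (hn : 0 < n)
    (hK : Fintype.card K = 2 ^ n) {v : K} (hv0 : v ≠ 0) (hv : Per f v) : Subfield K where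
  carrier := {x | Per f (v * x)}
  mul_mem' := by
    intro a b ha hb
    by_cases ha0 : a = 0
    · rw [ha0, zero_mul, ← ha0]
      exact ha
    by_cases hb0 : b = 0
    · rw [hb0, mul_zero, ← hb0]
      exact hb
    have h1 := per_div h hn hK hv0 hv one_ne_zero (per_one hv) hb0 hb
    have h2 := per_div h hn hK hv0 hv ha0 ha (one_div_ne_zero hb0) h1.1
    have h3 : a / (1 / b) = a * b := by field_simp
    rw [h3] at h2
    exact h2.1
  one_mem' := per_one hv
  add_mem' := by
    intro a b ha hb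
    show Per f (v * (a + b))
    rw [mul_add]
    exact per_add ha hb
  zero_mem' := by
    show Per f (v * 0)
    rw [mul_zero]
    exact per_zero h
  neg_mem' := by
    intro a ha
    rw [CharTwo.neg_eq]
    exact ha
  inv_mem' := by
    intro b hb
    by_cases hb0 : b = 0
    · rw [hb0, inv_zero, ← hb0]
      exact hb
    have h1 := per_div h hn hK hv0 hv one_ne_zero (per_one hv) hb0 hb
    rw [one_div] at h1
    exact h1.1

theorem mem_perField [CharP K 2] {f : K → K} (h : IsO f) {n : ℕ} (hn : 0 < n)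
    (hK : Fintype.card K = 2 ^ n) {v : K} (hv0 : v ≠ 0) (hv : Per f v) (x : K) :
    x ∈ perField h hn hK hv0 hv ↔ Per f (v * x) := Iff.rfl

omit [DecidableEq K] in
/-- elements fixed by the `q`-th power lie in the subfield with `q` elements -/
theorem mem_of_pow (F : Subfield K) {N : ℕ} (hF : Nat.card F = N) (hN : 1 < N) {y : K}
    (hy : y ^ N = y) : y ∈ F := by
  classical
  have hfin : Fintype F := Fintype.ofFinite F
  by_contra hyF
  set Z : Finset K := insert y (univ.image (fun x : F => (x : K))) with hZ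
  have hcard : Z.card = N + 1 := by
    rw [hZ, card_insert_of_notMem, card_image_of_injective _ Subtype.val_injective, card_univ,
      ← Nat.card_eq_fintype_card, hF]
    rw [mem_image]
    rintro ⟨x, _, rfl⟩
    exact hyF x.2
  have hne : (X ^ N - X : K[X]) ≠ 0 := FiniteField.X_pow_card_sub_X_ne_zero K hN
  have h1 : Z.val ⊆ (X ^ N - X : K[X]).roots := by
    intro z hz
    rw [mem_roots hne, IsRoot, eval_sub, eval_pow, eval_X, sub_eq_zero]
    rw [mem_val, hZ, mem_insert, mem_image] at hz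
    rcases hz with rfl | ⟨x, _, rfl⟩
    · exact hy
    · have h2 : x ^ N = x := by
        rw [← hF, Nat.card_eq_fintype_card, FiniteField.pow_card]
      exact_mod_cast congrArg (Subtype.val : F → K) h2
  have h2 := card_le_degree_of_subset_roots h1
  rw [hcard, FiniteField.X_pow_card_sub_X_natDegree_eq K hN] at h2
  omega

theorem ringHom_eq_pow {F : Type} [Field F] [Finite F] [CharP F 2] (t : F →+* F) :
    ∃ i, ∀ x, t x = x ^ 2 ^ i := by
  letI := ZMod.algebra F 2
  let φ : F →ₐ[ZMod 2] F :=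
    { t with
      commutes' := fun r => by
        have h1 : t.comp (algebraMap (ZMod 2) F) = algebraMap (ZMod 2) F := Subsingleton.elim _ _
        exact congrArg (fun g : ZMod 2 →+* F => g r) h1 }
  obtain ⟨i, hi⟩ := (FiniteField.bijective_frobeniusAlgHom_pow (ZMod 2) F).2 φ
  refine ⟨i, fun x => ?_⟩
  have h1 : φ x = t x := rfl
  rw [← h1, ← hi]
  simp only [AlgHom.coe_pow, FiniteField.coe_frobeniusAlgHom, pow_iterate, ZMod.card]

/-- **the subfield theorem** -/
theorem per_structure [CharP K 2] {f : K → K} (h : IsO f) {n : ℕ} (hn : 0 < n)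
    (hK : Fintype.card K = 2 ^ n) {v : K} (hv0 : v ≠ 0) (hv : Per f v) :
    ∃ (F : Subfield K) (m i : ℕ), m ∣ n ∧ Nat.card F = 2 ^ m ∧ 0 < m ∧
      (∀ x, Per f (v * x) ↔ x ∈ F) ∧ ∀ x ∈ F, f (v * x) = f v * x ^ 2 ^ i := by
  have hfv := f_ne_zero h hv0
  set F := perField h hn hK hv0 hv with hF
  have hfin : Fintype F := Fintype.ofFinite F
  -- the cardinality
  obtain ⟨m, hm, hmn⟩ : ∃ m, Nat.card F = 2 ^ m ∧ m ∣ n := by
    have h1 := Module.card_eq_pow_finrank (K := F) (V := K)
    rw [hK] at h1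
    have h2 : Fintype.card F ∣ 2 ^ n := by
      rw [h1]
      exact dvd_pow_self _ (Module.finrank_pos).ne'
    obtain ⟨m, _, hm⟩ := (Nat.dvd_prime_pow Nat.prime_two).mp h2
    refine ⟨m, by rw [Nat.card_eq_fintype_card, hm], ?_⟩
    rw [hm, ← pow_mul] at h1
    exact ⟨_, Nat.pow_right_injective (le_refl 2) h1⟩
  have hm0 : 0 < m := by
    rcases Nat.eq_zero_or_pos m with h0 | h0
    · have h1 : 1 < Nat.card F := Finite.one_lt_card
      rw [hm, h0, pow_zero] at h1
      exact absurd h1 (lt_irrefl _)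
    · exact h0
  -- the homomorphism
  let t0 : K → K := fun x => f (v * x) / f v
  have ht0 : t0 0 = 0 := by
    show f (v * 0) / f v = 0
    rw [mul_zero, h.zero, zero_div]
  have ht1 : t0 1 = 1 := by
    show f (v * 1) / f v = 1
    rw [mul_one, div_self hfv]
  have htdiv : ∀ x ∈ F, ∀ y ∈ F, y ≠ 0 → t0 (x / y) = t0 x / t0 y := by
    intro x hx y hy hy0
    by_cases hx0 : x = 0
    · rw [hx0, zero_div, ht0, zero_div]
    · exact (per_div h hn hK hv0 hv hx0 hx hy0 hy).2
  have htmul : ∀ x ∈ F, ∀ y ∈ F, t0 (x * y) = t0 x * t0 y := by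
    intro x hx y hy
    by_cases hy0 : y = 0
    · rw [hy0, mul_zero, ht0, mul_zero]
    · have h1 := htdiv 1 F.one_mem y hy hy0
      have h2 := htdiv x hx (1 / y) (F.div_mem F.one_mem hy) (one_div_ne_zero hy0)
      rw [h1, ht1] at h2
      have h3 : x / (1 / y) = x * y := by field_simp
      rw [h3] at h2
      rw [h2, div_div_eq_mul_div, div_one]
  have htadd : ∀ x ∈ F, ∀ y ∈ F, t0 (x + y) = t0 x + t0 y := by
    intro x hx y hy
    show f (v * (x + y)) / f v = f (v * x) / f v + f (v * y) / f v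
    have h1 : Per f (v * y) := hy
    rw [mul_add, h1, add_div]
  have htpow : ∀ x ∈ F, ∀ k, t0 (x ^ (k + 1)) = t0 x ^ (k + 1) := by
    intro x hx k
    induction k with
    | zero => rw [zero_add, pow_one, pow_one]
    | succ k ih => rw [pow_succ x (k + 1), htmul _ (F.pow_mem hx _) _ hx, ih, ← pow_succ]
  have hmem : ∀ x ∈ F, t0 x ∈ F := by
    intro x hx
    refine mem_of_pow F hm (Nat.one_lt_two_pow hm0.ne') ?_
    obtain ⟨k, hk⟩ : ∃ k, 2 ^ m = k + 1 := ⟨2 ^ m - 1, by
      have := Nat.one_le_two_pow (n := m)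
      omega⟩
    rw [hk, ← htpow x hx, ← hk]
    have h2 : (⟨x, hx⟩ : F) ^ 2 ^ m = ⟨x, hx⟩ := by
      rw [← hm, Nat.card_eq_fintype_card, FiniteField.pow_card]
    have h3 : x ^ 2 ^ m = x := congrArg (Subtype.val : F → K) h2
    rw [h3]
  let t : F →+* F :=
    { toFun := fun x => ⟨t0 x, hmem x x.2⟩
      map_one' := Subtype.ext ht1
      map_mul' := fun x y => Subtype.ext (htmul x x.2 y y.2)
      map_zero' := Subtype.ext ht0
      map_add' := fun x y => Subtype.ext (htadd x x.2 y y.2) }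
  have hchar : CharP F 2 := inferInstance
  obtain ⟨i, hi⟩ := ringHom_eq_pow t
  refine ⟨F, m, i, hmn, hm, hm0, fun x => (mem_perField h hn hK hv0 hv x).symm, ?_⟩
  intro x hx
  have h1 : t0 x = x ^ 2 ^ i := by
    exact congrArg (Subtype.val : F → K) (hi ⟨x, hx⟩)
  rw [← h1]
  show f (v * x) = f v * (f (v * x) / f v)
  rw [mul_div_cancel₀ _ hfv]

end

end Pool.Agent.H49.HO
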