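import Mathlib
import Pool.Agent.H49.HO.Sub
import Pool.Agent.H49.HO.LemL

/-!
# The field of periods is not a subfield of index 2
-/

set_option autoImplicit false

namespace Pool.Agent.H49.HO

open Finset Polynomial

section

variable {K : Type} [Field K] [Fintype K] [DecidableEq K]

theorem tr_double [CharP K 2] (m : ℕ) (z : K) : tr (2 * m) z = tr m (z + z ^ 2 ^ m) := by
  rw [tr_add, two_mul]
  unfold tr
  rw [sum_range_add]
  congr 1
  refine sum_congr rfl fun i _ => ?_
  rw [← pow_mul, ← pow_add]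

omit [Fintype K] [DecidableEq K] in
theorem tr_sq_add [CharP K 2] (m : ℕ) (z : K) : tr m (z ^ 2) + tr m z = z ^ 2 ^ m + z := by
  induction m with
  | zero =>
    unfold tr
    rw [sum_range_zero, sum_range_zero, pow_zero, pow_one, add_zero,
      CharTwo.add_self_eq_zero]
  | succ m ih =>
    unfold tr at ih ⊢
    rw [sum_range_succ, sum_range_succ, pow_succ 2 m, pow_mul]
    have h2 := CharTwo.two_eq_zero (R := K)
    rw [← pow_mul z 2, mul_comm 2 (2 ^ m), pow_mul z]
    linear_combination ih + z ^ 2 ^ m * h2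

omit [Fintype K] [DecidableEq K] in
theorem tr_pow [CharP K 2] {m : ℕ} {z : K} (hz : z ^ 2 ^ m = z) (k : ℕ) :
    tr m (z ^ 2 ^ k) = tr m z := by
  induction k with
  | zero => rw [pow_zero, pow_one]
  | succ k ih =>
    have h1 := tr_sq_add m (z ^ 2 ^ k)
    have h2 : (z ^ 2 ^ k) ^ 2 ^ m = z ^ 2 ^ k := by
      rw [← pow_mul, mul_comm, pow_mul, hz]
    rw [h2, CharTwo.add_self_eq_zero, ← pow_mul, ← pow_succ] at h1
    rw [CharTwo.add_eq_zero.mp h1, ih]

omit [Fintype K] [DecidableEq K] in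
theorem tr_pow' [CharP K 2] {m : ℕ} {z : K} (hz : z ^ 2 ^ m = z + 1) (k : ℕ) :
    tr m (z ^ 2 ^ k) + tr m z = k := by
  induction k with
  | zero => rw [pow_zero, pow_one, CharTwo.add_self_eq_zero, Nat.cast_zero]
  | succ k ih =>
    have h1 := tr_sq_add m (z ^ 2 ^ k)
    have h3 : (z ^ 2 ^ k) ^ 2 ^ m = z ^ 2 ^ k + 1 := by
      rw [← pow_mul, mul_comm, pow_mul, hz, add_pow_char_pow _ _ 2 k, one_pow]
    rw [h3, ← pow_mul, ← pow_succ] at h1
    have h2 := CharTwo.two_eq_zero (R := K)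
    rw [Nat.cast_succ]
    linear_combination h1 + ih + (z ^ 2 ^ k - tr m (z ^ 2 ^ k)) * h2

omit [Fintype K] [DecidableEq K] in
theorem pow_iter {m : ℕ} {z : K} (hz : z ^ 2 ^ m = z) (k : ℕ) : z ^ 2 ^ (m * k) = z := by
  induction k with
  | zero => rw [mul_zero, pow_zero, pow_one]
  | succ k ih => rw [mul_add, mul_one, pow_add, pow_mul, ih, hz]

omit [Fintype K] [DecidableEq K] in
theorem coe_tr (F : Subfield K) (m : ℕ) (x : F) : ((tr m x : F) : K) = tr m (x : K) := by
  unfold tr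
  rw [AddSubmonoidClass.coe_finsetSum]
  rfl

/-- the Baer case is impossible -/
theorem baer [CharP K 2] {f : K → K} (h : IsO f) {m i : ℕ} (hm : 0 < m)
    (hK : Fintype.card K = 2 ^ (2 * m)) (F : Subfield K) (hF : Nat.card F = 2 ^ m)
    (hper : ∀ x, Per f x ↔ x ∈ F) (hf : ∀ x ∈ F, f x = x ^ 2 ^ i) : False := by
  have h2 := CharTwo.two_eq_zero (R := K)
  have hn : 0 < 2 * m := by omega
  have hfin : Fintype F := Fintype.ofFinite F
  have hF' : Fintype.card F = 2 ^ m := by rw [← Nat.card_eq_fintype_card, hF]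
  have hQ : ∀ x : K, (x ^ 2 ^ m) ^ 2 ^ m = x := by
    intro x
    rw [← pow_mul, ← pow_add, ← two_mul, ← hK, FiniteField.pow_card]
  have hfix : ∀ x ∈ F, x ^ 2 ^ m = x := by
    intro x hx
    have h1 : (⟨x, hx⟩ : F) ^ 2 ^ m = ⟨x, hx⟩ := by
      rw [← hF', FiniteField.pow_card]
    exact congrArg (Subtype.val : F → K) h1
  have hmem : ∀ x : K, x ^ 2 ^ m = x → x ∈ F := fun x hx =>
    mem_of_pow F hF (Nat.one_lt_two_pow hm.ne') hx
  -- the trace to `F`
  have hT : ∀ x : K, x + x ^ 2 ^ m ∈ F := by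
    intro x
    apply hmem
    rw [add_pow_char_pow _ _ 2 m, hQ, add_comm]
  -- step 1
  have hstep1 : ∀ x : K, f x + f x ^ 2 ^ m = (x + x ^ 2 ^ m) ^ 2 ^ i := by
    intro x
    by_contra hne
    set C : K := (f x + f x ^ 2 ^ m) + (x + x ^ 2 ^ m) ^ 2 ^ i with hC
    have hC0 : C ≠ 0 := fun h1 => hne (CharTwo.add_eq_zero.mp h1)
    have hCF : C ∈ F := F.add_mem (hT _) (F.pow_mem (hT _) _)
    obtain ⟨u, hu⟩ := exists_tr_ne_zero (K := F) hm hF' (a := ⟨C, hCF⟩)
      (fun h1 => hC0 (congrArg (Subtype.val : F → K) h1))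
    have hu1 : tr m (C * (u : K)) ≠ 0 := by
      intro h1
      apply hu
      apply Subtype.ext
      rw [coe_tr]
      exact h1
    have hu0 : (u : K) ≠ 0 := by
      intro h1
      rw [h1, mul_zero, tr_zero] at hu1
      exact hu1 rfl
    set w : K := (1 / (u : K)) ^ 2 ^ ((m - 1) * i) with hw
    have hu' : (1 / (u : K)) ^ 2 ^ m = 1 / (u : K) := by
      rw [div_pow, one_pow, hfix _ u.2]
    have hwF : w ∈ F := F.pow_mem (F.div_mem F.one_mem u.2) _
    have hw0 : w ≠ 0 := pow_ne_zero _ (one_div_ne_zero hu0)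
    have hwσ : w ^ 2 ^ i = 1 / (u : K) := by
      rw [hw, ← pow_mul, ← pow_add]
      have h1 : (m - 1) * i + i = m * i := by
        obtain ⟨r, rfl⟩ : ∃ r, m = r + 1 := ⟨m - 1, by omega⟩
        rw [Nat.add_sub_cancel]
        ring
      rw [h1]
      exact pow_iter hu' i
    have h3 := tr_of_per h hn hK hw0 ((hper w).mpr hwF) x
    rw [hf w hwF, tr_double, tr_double, div_pow, div_pow, hfix w hwF,
      hfix _ (F.pow_mem hwF _), ← add_div, ← add_div] at h3
    have h4 : tr m ((x + x ^ 2 ^ m) / w) = tr m ((x + x ^ 2 ^ m) ^ 2 ^ i / w ^ 2 ^ i) := by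
      rw [← div_pow]
      exact (tr_pow (hfix _ (F.div_mem (hT x) hwF)) i).symm
    rw [h4] at h3
    apply hu1
    have h5 : C * (u : K) = (f x + f x ^ 2 ^ m) / w ^ 2 ^ i +
        (x + x ^ 2 ^ m) ^ 2 ^ i / w ^ 2 ^ i := by
      rw [← add_div, hwσ, div_div_eq_mul_div, div_one]
    rw [h5, tr_add, h3, CharTwo.add_self_eq_zero]
  -- step 2
  set N : K → K := fun x => f x + x ^ 2 ^ i with hN
  have hNF : ∀ x, N x ∈ F := by
    intro x
    apply hmem
    have h1 := hstep1 x
    rw [add_pow_char_pow _ _ 2 i, ← pow_mul x, mul_comm (2 ^ m), pow_mul x] at h1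
    show (f x + x ^ 2 ^ i) ^ 2 ^ m = f x + x ^ 2 ^ i
    rw [add_pow_char_pow _ _ 2 m]
    linear_combination h1 + ((x ^ 2 ^ i) ^ 2 ^ m - f x) * h2
  have hNper : ∀ x, ∀ w ∈ F, N (x + w) = N x := by
    intro x w hw
    show f (x + w) + (x + w) ^ 2 ^ i = f x + x ^ 2 ^ i
    rw [(hper w).mpr hw x, hf w hw, add_pow_char_pow _ _ 2 i]
    linear_combination w ^ 2 ^ i * h2
  -- the function `x ^ σ` on `F` is an o-polynomial
  have hFO : IsO (K := F) (fun x => x ^ 2 ^ i) := by
    refine ⟨?_, zero_pow (by positivity), ?_⟩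
    · intro x y hxy
      apply Subtype.ext
      apply h.inj
      rw [hf x x.2, hf y y.2]
      exact congrArg (Subtype.val : F → K) hxy
    · intro x y z hy hz hxy
      apply Subtype.ext
      refine h.slope x y z (fun h1 => hy (Subtype.ext h1)) (fun h1 => hz (Subtype.ext h1)) ?_
      rw [hf x x.2, hf y y.2, hf z z.2]
      exact congrArg (Subtype.val : F → K) hxy
  have himage : ∀ c ∈ F, tr m c = 0 → ∃ w ∈ F, w ^ 2 ^ i + w = c := by
    intro c hc htr
    have h1 : Im (K := F) (fun x => x ^ 2 ^ i) 1 = univ.filter fun y => tr m (1 * y) = 0 := by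
      apply eq_of_subset_of_card_le
      · intro y hy
        rw [Im, mem_image] at hy
        obtain ⟨x, _, rfl⟩ := hy
        rw [mem_filter]
        refine ⟨mem_univ _, ?_⟩
        rw [one_mul, one_mul, tr_add, tr_pow (by rw [← hF', FiniteField.pow_card]),
          CharTwo.add_self_eq_zero]
      · rw [card_Im hFO one_ne_zero hm hF']
        apply card_tr_le hm one_ne_zero
        intro x hx
        exact (mem_filter.mp hx).2
    have h3 : (⟨c, hc⟩ : F) ∈ Im (K := F) (fun x => x ^ 2 ^ i) 1 := by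
      rw [h1, mem_filter]
      refine ⟨mem_univ _, ?_⟩
      rw [one_mul]
      apply Subtype.ext
      rw [coe_tr]
      exact htr
    rw [Im, mem_image] at h3
    obtain ⟨w, _, hw⟩ := h3
    refine ⟨w, w.2, ?_⟩
    have h4 := congrArg (Subtype.val : F → K) hw
    rw [one_mul] at h4
    exact h4
  -- step 3
  have hstep3 : ∀ x x' : K, (x + x') + (x + x') ^ 2 ^ m ≠ 0 →
      tr m ((N x + N x') / ((x + x') + (x + x') ^ 2 ^ m) ^ 2 ^ i) = 1 + i := by
    intro x x' hD0
    set d := x + x' with hd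
    set D := d + d ^ 2 ^ m with hD
    have hDF : D ∈ F := hT d
    have hdF : d ∉ F := by
      intro h1
      apply hD0
      rw [hD, hfix d h1, CharTwo.add_self_eq_zero]
    have hb : D ^ 2 ^ i / D ≠ 0 := div_ne_zero (pow_ne_zero _ hD0) hD0
    have hbD : D ^ 2 ^ i / D * D = D ^ 2 ^ i := div_mul_cancel₀ _ hD0
    -- (a)
    have ha : ∀ w ∈ F, N x + N x' ≠ (d + w) ^ 2 ^ i + D ^ 2 ^ i / D * (d + w) := by
      intro w hw heq
      have h1 : x' + w ≠ x := by
        intro h3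
        apply hdF
        have h4 : d = w := by
          rw [hd]
          linear_combination (-1 : K) * h3 + x' * h2
        rw [h4]
        exact hw
      have h3 : x + D ≠ x := fun h4 => hD0 (by simpa using h4)
      have h4 : f (x' + w) = f x' + w ^ 2 ^ i := by rw [(hper w).mpr hw x', hf w hw]
      have h5 : f (x + D) = f x + D ^ 2 ^ i := by rw [(hper D).mpr hDF x, hf D hDF]
      have h6 : x' + w = x + D := by
        refine partner_unique h (b := D ^ 2 ^ i / D) h1 h3 ?_ ?_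
        · rw [h4]
          have h7 : N x + N x' = f x + x ^ 2 ^ i + (f x' + x' ^ 2 ^ i) := rfl
          rw [h7, hd, add_pow_char_pow _ _ 2 i, add_pow_char_pow _ _ 2 i] at heq
          grind
        · rw [h5]
          linear_combination hbD + D ^ 2 ^ i * h2
      apply hdF
      have h7 : d = D + w := by
        rw [hd]
        grind
      rw [h7]
      exact F.add_mem hDF hw
    set δ := d / D with hδ
    have hδQ : δ ^ 2 ^ m = δ + 1 := by
      rw [hδ, div_pow, hfix D hDF, div_add_one hD0, hD]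
      congr 1
      linear_combination (-d) * h2
    set c := (N x + N x') / D ^ 2 ^ i + (δ ^ 2 ^ i + δ) with hc
    have hDσ : D ^ 2 ^ i ≠ 0 := pow_ne_zero _ hD0
    have hcF : c ∈ F := by
      apply F.add_mem (F.div_mem (F.add_mem (hNF _) (hNF _)) (F.pow_mem hDF _))
      apply hmem
      rw [add_pow_char_pow _ _ 2 m, ← pow_mul, mul_comm (2 ^ i), pow_mul, hδQ,
        add_pow_char_pow _ _ 2 i, one_pow]
      linear_combination h2
    have htr : tr m c ≠ 0 := by
      intro h1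
      obtain ⟨w, hw, hwc⟩ := himage c hcF h1
      apply ha (D * w) (F.mul_mem hDF hw)
      have h3 : d = D * δ := by rw [hδ]; field_simp
      have h4 : (d + D * w) ^ 2 ^ i = D ^ 2 ^ i * (δ ^ 2 ^ i + w ^ 2 ^ i) := by
        rw [h3, ← mul_add, mul_pow, add_pow_char_pow δ w 2 i]
      have h5 : D ^ 2 ^ i / D * (d + D * w) = D ^ 2 ^ i * (δ + w) := by
        rw [h3]
        field_simp
      rw [h4, h5]
      have h6 : D ^ 2 ^ i * c = N x + N x' + D ^ 2 ^ i * (δ ^ 2 ^ i + δ) := by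
        rw [hc, mul_add, mul_div_cancel₀ _ hDσ]
      rw [← hwc] at h6
      grind
    have htr1 : tr m c = 1 := by
      rcases tr_cases (K := F) hm hF' ⟨c, hcF⟩ with h1 | h1
      · exfalso
        apply htr
        have h3 := congrArg (Subtype.val : F → K) h1
        rw [coe_tr] at h3
        exact h3
      · have h3 := congrArg (Subtype.val : F → K) h1
        rw [coe_tr] at h3
        exact h3
    have h7 := tr_pow' hδQ i
    rw [hc, tr_add, tr_add, h7] at htr1
    grind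
  -- step 4 : a section
  obtain ⟨x₀, hx₀⟩ : ∃ x₀ : K, x₀ ∉ F := by
    by_contra hcon
    push Not at hcon
    have h1 : Fintype.card K ≤ Fintype.card F :=
      Fintype.card_le_of_injective (fun x : K => (⟨x, hcon x⟩ : F))
        (fun x y hxy => congrArg (Subtype.val : F → K) hxy)
    rw [hK, hF'] at h1
    have h3 : 2 ^ m < 2 ^ (2 * m) := Nat.pow_lt_pow_right (by norm_num) (by omega)
    omega
  have hT0 : x₀ + x₀ ^ 2 ^ m ≠ 0 := by
    intro h1
    exact hx₀ (hmem x₀ (CharTwo.add_eq_zero.mp h1).symm)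
  set δ₀ := x₀ / (x₀ + x₀ ^ 2 ^ m) with hδ₀
  have hδ1 : δ₀ + δ₀ ^ 2 ^ m = 1 := by
    rw [hδ₀, div_pow, hfix _ (hT x₀), ← add_div, div_self hT0]
  have hTδ : ∀ y ∈ F, y * δ₀ + (y * δ₀) ^ 2 ^ m = y := by
    intro y hy
    rw [mul_pow, hfix y hy, ← mul_add, hδ1, mul_one]
  -- the function on `F`
  let g : F → F := fun y => ⟨N ((y : K) * δ₀), hNF _⟩
  let hh : F → F := fun y => g y ^ 2 ^ ((m - 1) * i)
  have hhσ : ∀ y, hh y ^ 2 ^ i = g y := by
    intro y
    show (g y ^ 2 ^ ((m - 1) * i)) ^ 2 ^ i = g y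
    rw [← pow_mul, ← pow_add]
    have h1 : (m - 1) * i + i = m * i := by
      obtain ⟨r, rfl⟩ : ∃ r, m = r + 1 := ⟨m - 1, by omega⟩
      rw [Nat.add_sub_cancel]
      ring
    rw [h1]
    exact pow_iter (by rw [← hF', FiniteField.pow_card]) i
  have haff := affine_of_trace (K := F) hm hF' (h := hh) (ε := 1 + i) (by
    intro y w hyw
    have h1 : ∀ z : F, z ^ 2 ^ m = z := fun z => by rw [← hF', FiniteField.pow_card]
    have h3 : ∑ l ∈ range m, ((hh y + hh w) / (y + w)) ^ 2 ^ l = tr m ((hh y + hh w) / (y + w)) :=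
      rfl
    rw [h3, ← tr_pow (h1 _) i, div_pow, add_pow_char_pow _ _ 2 i, hhσ, hhσ]
    apply Subtype.ext
    rw [coe_tr]
    have h4 := hstep3 ((y : K) * δ₀) ((w : K) * δ₀)
    have h5 : (y : K) * δ₀ + (w : K) * δ₀ + ((y : K) * δ₀ + (w : K) * δ₀) ^ 2 ^ m =
        (y : K) + (w : K) := by
      rw [← add_mul]
      exact hTδ _ (F.add_mem y.2 w.2)
    rw [h5] at h4
    have h6 : (y : K) + (w : K) ≠ 0 := by
      intro h7
      apply hyw
      apply Subtype.ext
      exact CharTwo.add_eq_zero.mp h7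
    have h7 := h4 h6
    have h8 : (((1 : F) + (i : F) : F) : K) = 1 + (i : K) := by
      push_cast
      rfl
    rw [h8, ← h7]
    rfl)
  obtain ⟨c, d, hcd⟩ := haff
  -- step 6
  have hNx : ∀ x, N x = (c : K) ^ 2 ^ i * (x + x ^ 2 ^ m) ^ 2 ^ i + (d : K) ^ 2 ^ i := by
    intro x
    have h1 : x + (x + x ^ 2 ^ m) * δ₀ ∈ F := by
      apply hmem
      have h3 := hTδ _ (hT x)
      rw [add_pow_char_pow _ _ 2 m]
      grind
    have h3 := hNper ((x + x ^ 2 ^ m) * δ₀) _ h1
    have h4 : (x + x ^ 2 ^ m) * δ₀ + (x + (x + x ^ 2 ^ m) * δ₀) = x := by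
      linear_combination ((x + x ^ 2 ^ m) * δ₀) * h2
    rw [h4] at h3
    have h5 := hhσ ⟨x + x ^ 2 ^ m, hT x⟩
    rw [hcd, add_pow_char_pow _ _ 2 i, mul_pow] at h5
    rw [h3]
    exact (congrArg (Subtype.val : F → K) h5).symm
  have hd0 : (d : K) ^ 2 ^ i = 0 := by
    have h1 := hNx 0
    have h3 : N 0 = 0 := by
      show f 0 + 0 ^ 2 ^ i = 0
      rw [h.zero, zero_pow (by positivity), add_zero]
    rw [h3, zero_pow (by positivity), add_zero, zero_pow (by positivity), mul_zero, zero_add] at h1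
    exact h1.symm
  apply hx₀
  rw [← hper]
  intro x
  have h1 : ∀ y, f y = N y + y ^ 2 ^ i := by
    intro y
    show f y = f y + y ^ 2 ^ i + y ^ 2 ^ i
    linear_combination (-(y ^ 2 ^ i)) * h2
  rw [h1 (x + x₀), h1 x, h1 x₀, hNx, hNx x, hNx x₀, hd0, add_pow_char_pow x x₀ 2 m,
    add_pow_char_pow x x₀ 2 i]
  have h3 : (x + x₀ + (x ^ 2 ^ m + x₀ ^ 2 ^ m)) ^ 2 ^ i =
      (x + x ^ 2 ^ m) ^ 2 ^ i + (x₀ + x₀ ^ 2 ^ m) ^ 2 ^ i := by
    rw [← add_pow_char_pow _ _ 2 i]
    congr 1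
    ring
  rw [h3]
  ring

end

end Pool.Agent.H49.HO
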