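import Mathlib
import Pool.Agent.H46.Hyp.Bound
import Pool.Agent.H53.OM.Geom
import Pool.Agent.H49.HO.Core

/-!
# Coordinates for hyperovals
-/

set_option autoImplicit false

namespace Pool.Agent.H49.HO

open Configuration Finset Pool.Agent.H46.Hyp Pool.Agent.H53.OM
open scoped LinearAlgebra.Projectivization MatrixGroups Pointwise

section

variable {K : Type} [Field K] [Fintype K] [DecidableEq K]

omit [Fintype K] [DecidableEq K] in
theorem e0_ne : (![1, 0, 0] : Fin 3 → K) ≠ 0 := fun h => one_ne_zero (congrFun h 0)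

omit [Fintype K] [DecidableEq K] in
theorem e1_ne : (![0, 1, 0] : Fin 3 → K) ≠ 0 := fun h => one_ne_zero (congrFun h 1)

omit [Fintype K] [DecidableEq K] in
theorem pt_ne (a c : K) : (![a, c, 1] : Fin 3 → K) ≠ 0 := fun h => one_ne_zero (congrFun h 2)

/-- the point `(1 : 0 : 0)` -/
def E0 : ℙ K (Fin 3 → K) := Projectivization.mk K ![1, 0, 0] e0_ne

/-- the point `(0 : 1 : 0)` -/
def E1 : ℙ K (Fin 3 → K) := Projectivization.mk K ![0, 1, 0] e1_ne

/-- the point `(a : c : 1)` -/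
def pt (a c : K) : ℙ K (Fin 3 → K) := Projectivization.mk K ![a, c, 1] (pt_ne a c)

omit [Fintype K] [DecidableEq K] in
theorem E0_ne_E1 : (E0 : ℙ K (Fin 3 → K)) ≠ E1 := by
  intro h
  rw [E0, E1, Projectivization.mk_eq_mk_iff'] at h
  obtain ⟨a, ha⟩ := h
  have := congrFun ha 0
  simp at this

omit [Fintype K] [DecidableEq K] in
theorem pt_ne_E0 (a c : K) : pt a c ≠ E0 := by
  intro h
  rw [pt, E0, Projectivization.mk_eq_mk_iff'] at h
  obtain ⟨b, hb⟩ := h
  have := congrFun hb 2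
  simp at this

omit [Fintype K] [DecidableEq K] in
theorem pt_ne_E1 (a c : K) : pt a c ≠ E1 := by
  intro h
  rw [pt, E1, Projectivization.mk_eq_mk_iff'] at h
  obtain ⟨b, hb⟩ := h
  have := congrFun hb 2
  simp at this

omit [Fintype K] [DecidableEq K] in
theorem pt_inj {a c a' c' : K} (h : pt a c = pt a' c') : a = a' ∧ c = c' := by
  rw [pt, pt, Projectivization.mk_eq_mk_iff'] at h
  obtain ⟨b, hb⟩ := h
  have h0 := congrFun hb 0
  have h1 := congrFun hb 1
  have h2 := congrFun hb 2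
  simp at h0 h1 h2
  rw [h2, one_mul] at h0 h1
  exact ⟨h0.symm, h1.symm⟩

omit [Fintype K] [DecidableEq K] in
/-- every point with third coordinate nonzero is `pt` -/
theorem eq_pt {v : Fin 3 → K} (hv : v ≠ 0) (h : v 2 ≠ 0) :
    Projectivization.mk K v hv = pt (v 0 / v 2) (v 1 / v 2) := by
  rw [pt, Projectivization.mk_eq_mk_iff']
  refine ⟨v 2, ?_⟩
  funext j
  fin_cases j
  · simp [mul_div_cancel₀ _ h]
  · simp [mul_div_cancel₀ _ h]
  · simp

omit [DecidableEq K] in
theorem mem_oSet (f : K → K) (p : ℙ K (Fin 3 → K)) :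
    p ∈ oSet K f ↔ (∃ c, p = pt (f c) c) ∨ p = E0 ∨ p = E1 := by
  classical
  rw [oSet, mem_union, mem_image, mem_insert, mem_singleton]
  constructor
  · rintro (⟨c, _, h⟩ | h)
    · exact Or.inl ⟨c, h.symm⟩
    · exact Or.inr h
  · rintro (⟨c, h⟩ | h)
    · exact Or.inl ⟨c, mem_univ c, h.symm⟩
    · exact Or.inr h

/-- incidence in coordinates -/
theorem mk_mem_mk {v l : Fin 3 → K} (hv : v ≠ 0) (hl : l ≠ 0) :
    Projectivization.mk K v hv ∈ Projectivization.mk K l hl ↔ v ⬝ᵥ l = 0 := by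
  rw [ofField.mem_iff, Projectivization.orthogonal_mk]

theorem isO_of_arc [CharP K 2] {f : K → K}
    (hH : IsArc (ℙ K (Fin 3 → K)) (ℙ K (Fin 3 → K)) (oSet K f)) (h0 : f 0 = 0) : IsO f := by
  have h2 := CharTwo.two_eq_zero (R := K)
  refine ⟨inj_of_arc hH, h0, ?_⟩
  intro x y z hy hz hyz
  set s := (f x + f y) / (x + y) with hs
  have h1 : f x + f y = s * (x + y) := by
    rw [hs, div_mul_cancel₀ _ (add_ne_zero' hy)]
  have h1' : f x + f z = s * (x + z) := by
    rw [hyz, div_mul_cancel₀ _ (add_ne_zero' hz)]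
  have hl : (![1, s, f x + s * x] : Fin 3 → K) ≠ 0 := fun h => one_ne_zero (congrFun h 0)
  have h := hH (Projectivization.mk K _ hl) (pt (f x) x) ((mem_oSet f _).mpr (Or.inl ⟨x, rfl⟩))
    (pt (f y) y) ((mem_oSet f _).mpr (Or.inl ⟨y, rfl⟩))
    (pt (f z) z) ((mem_oSet f _).mpr (Or.inl ⟨z, rfl⟩))
    (by
      rw [pt, mk_mem_mk]
      simp [dotProduct, Fin.sum_univ_three]
      grind)
    (by
      rw [pt, mk_mem_mk]
      simp [dotProduct, Fin.sum_univ_three]
      grind)
    (by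
      rw [pt, mk_mem_mk]
      simp [dotProduct, Fin.sum_univ_three]
      grind)
  rcases h with h | h | h
  · exact absurd (pt_inj h).2.symm hy
  · exact absurd (pt_inj h).2.symm hz
  · exact (pt_inj h).2

/-- the image of a hyperoval under a homography is a hyperoval -/
theorem hyperoval_smul [DecidableEq (ℙ K (Fin 3 → K))] {H : Finset (ℙ K (Fin 3 → K))}
    (hH : IsHyperoval (ℙ K (Fin 3 → K)) (ℙ K (Fin 3 → K)) H) (g : PGL(3, K)) :
    IsHyperoval (ℙ K (Fin 3 → K)) (ℙ K (Fin 3 → K)) (H.image (g • ·)) := by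
  refine ⟨?_, ?_⟩
  · rw [card_image_of_injective _ (MulAction.injective g), hH.1]
  · intro l a ha b hb c hc hal hbl hcl
    rw [mem_image] at ha hb hc
    obtain ⟨a, ha, rfl⟩ := ha
    obtain ⟨b, hb, rfl⟩ := hb
    obtain ⟨c, hc, rfl⟩ := hc
    obtain ⟨A, rfl⟩ := Matrix.ProjGenLinGroup.mk_surjective g
    induction l using Projectivization.ind with | _ l hl =>
    have hl' : (A : Matrix (Fin 3) (Fin 3) K).transpose.mulVec l ≠ 0 := by
      intro h0
      apply hl
      have h1 : (A : Matrix (Fin 3) (Fin 3) K).transpose.det ≠ 0 := by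
        rw [Matrix.det_transpose]
        exact (A.isUnit.map Matrix.detMonoidHom).ne_zero
      exact Matrix.eq_zero_of_mulVec_eq_zero h1 h0
    have key : ∀ p : ℙ K (Fin 3 → K), Matrix.ProjGenLinGroup.mk A • p ∈ Projectivization.mk K l hl →
        p ∈ Projectivization.mk K _ hl' := by
      intro p
      induction p using Projectivization.ind with | _ v hv =>
      rw [Projectivization.PGL.mk_smul_mk, mk_mem_mk, mk_mem_mk]
      intro h
      rw [Matrix.dotProduct_mulVec, Matrix.vecMul_transpose]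
      exact h
    have h := hH.2 _ a ha b hb c hc (key a hal) (key b hbl) (key c hcl)
    rcases h with h | h | h
    · exact Or.inl (by rw [h])
    · exact Or.inr (Or.inl (by rw [h]))
    · exact Or.inr (Or.inr (by rw [h]))

/-- a hyperoval through `(1:0:0)` and `(0:1:0)` is `oSet f` -/
theorem exists_f {H : Finset (ℙ K (Fin 3 → K))}
    (hH : IsHyperoval (ℙ K (Fin 3 → K)) (ℙ K (Fin 3 → K)) H) (h0 : E0 ∈ H) (h1 : E1 ∈ H) :
    ∃ f : K → K, H = oSet K f := by
  classical
  have := Fintype.ofFinite (ℙ K (Fin 3 → K))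
  have hl : ∀ c : K, (![0, 1, -c] : Fin 3 → K) ≠ 0 := fun c h => one_ne_zero (congrFun h 1)
  have hl0 : ∀ c : K, (E0 : ℙ K (Fin 3 → K)) ∈ Projectivization.mk K _ (hl c) := by
    intro c
    rw [E0, mk_mem_mk]
    simp [dotProduct, Fin.sum_univ_three]
  have hlpt : ∀ a c : K, pt a c ∈ Projectivization.mk K _ (hl c) := by
    intro a c
    rw [pt, mk_mem_mk]
    simp [dotProduct, Fin.sum_univ_three]
  have hex : ∀ c : K, ∃ a : K, pt a c ∈ H := by
    intro c
    obtain ⟨h', hh', hne, hmem⟩ := exists_other hH h0 (hl0 c)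
    induction h' using Projectivization.ind with | _ v hv =>
    rw [mk_mem_mk] at hmem
    simp [dotProduct, Fin.sum_univ_three] at hmem
    have hv2 : v 2 ≠ 0 := by
      intro h3
      apply hne
      rw [h3, zero_mul, add_neg_eq_zero] at hmem
      rw [E0, Projectivization.mk_eq_mk_iff']
      refine ⟨v 0, ?_⟩
      funext j
      fin_cases j
      · simp
      · simp [hmem]
      · simp [h3]
    refine ⟨v 0 / v 2, ?_⟩
    have h4 := eq_pt hv hv2
    have h5 : v 1 / v 2 = c := by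
      rw [div_eq_iff hv2]
      linear_combination hmem
    rw [h5] at h4
    rw [← h4]
    exact hh'
  choose f hf using hex
  refine ⟨f, ?_⟩
  ext p
  rw [mem_oSet]
  constructor
  · intro hp
    induction p using Projectivization.ind with | _ v hv =>
    by_cases hv2 : v 2 = 0
    · -- on the line through `E0` and `E1`
      have hl2 : (![0, 0, 1] : Fin 3 → K) ≠ 0 := fun h => one_ne_zero (congrFun h 2)
      have h := hH.2 (Projectivization.mk K _ hl2) _ hp _ h0 _ h1
        (by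
          rw [mk_mem_mk]
          simp [dotProduct, Fin.sum_univ_three, hv2])
        (by
          rw [E0, mk_mem_mk]
          simp [dotProduct, Fin.sum_univ_three])
        (by
          rw [E1, mk_mem_mk]
          simp [dotProduct, Fin.sum_univ_three])
      rcases h with h | h | h
      · exact Or.inr (Or.inl h)
      · exact Or.inr (Or.inr h)
      · exact absurd h E0_ne_E1
    · left
      refine ⟨v 1 / v 2, ?_⟩
      rw [eq_pt hv hv2] at hp ⊢
      have h := hH.2 (Projectivization.mk K _ (hl (v 1 / v 2))) _ hp _ (hf (v 1 / v 2)) _ h0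
        (hlpt _ _) (hlpt _ _) (hl0 _)
      rcases h with h | h | h
      · exact h
      · exact absurd h (pt_ne_E0 _ _)
      · exact absurd h (pt_ne_E0 _ _)
  · rintro (⟨c, rfl⟩ | rfl | rfl)
    · exact hf c
    · exact h0
    · exact h1

/-- the matrix of `(x, y, z) ↦ (x + a z, y + b z, z)` -/
def shM (a b : K) : Matrix (Fin 3) (Fin 3) K := !![1, 0, a; 0, 1, b; 0, 0, 1]

/-- the linear map `(x, y, z) ↦ (x + a z, y + b z, z)` -/
noncomputable def sh (a b : K) : GL (Fin 3) K :=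
  Matrix.GeneralLinearGroup.mkOfDetNeZero (shM a b) (by
    rw [shM, Matrix.det_fin_three]
    simp)

theorem sh_mulVec (a b : K) (v : Fin 3 → K) :
    sh a b • v = ![v 0 + a * v 2, v 1 + b * v 2, v 2] := by
  show (shM a b).mulVec v = _
  funext j
  fin_cases j <;> simp [shM, Matrix.mulVec, dotProduct, Fin.sum_univ_three]

theorem sh_pt (a b x y : K) :
    (Matrix.ProjGenLinGroup.mk (sh a b) : PGL(3, K)) • pt x y = pt (x + a) (y + b) := by
  rw [pt, Projectivization.PGL.mk_smul_mk, pt, Projectivization.mk_eq_mk_iff']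
  refine ⟨1, ?_⟩
  rw [one_smul, sh_mulVec]
  simp

theorem sh_E0 (a b : K) : (Matrix.ProjGenLinGroup.mk (sh a b) : PGL(3, K)) • (E0 : ℙ K (Fin 3 → K)) = E0 := by
  rw [E0, Projectivization.PGL.mk_smul_mk, Projectivization.mk_eq_mk_iff']
  refine ⟨1, ?_⟩
  rw [one_smul, sh_mulVec]
  simp

theorem sh_E1 (a b : K) : (Matrix.ProjGenLinGroup.mk (sh a b) : PGL(3, K)) • (E1 : ℙ K (Fin 3 → K)) = E1 := by
  rw [E1, Projectivization.PGL.mk_smul_mk, Projectivization.mk_eq_mk_iff']
  refine ⟨1, ?_⟩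
  rw [one_smul, sh_mulVec]
  simp

theorem two_transitive {P Q : ℙ K (Fin 3 → K)} (hPQ : P ≠ Q) :
    ∃ g : PGL(3, K), g • P = E0 ∧ g • Q = E1 := by
  have h0 : MulAction.IsMultiplyPretransitive (Matrix.SpecialLinearGroup (Fin 3) K)
    (ℙ K (Fin 3 → K)) 2 := inferInstance
  rw [MulAction.is_two_pretransitive_iff] at h0
  obtain ⟨s, hs1, hs2⟩ := h0 hPQ E0_ne_E1
  exact ⟨Matrix.ProjGenLinGroup.mk (Matrix.SpecialLinearGroup.toGL s), hs1, hs2⟩

/-- **coordinates** -/
theorem exists_coord [CharP K 2] {H : Finset (ℙ K (Fin 3 → K))}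
    (hH : IsHyperoval (ℙ K (Fin 3 → K)) (ℙ K (Fin 3 → K)) H) {P Q : ℙ K (Fin 3 → K)}
    (hP : P ∈ H) (hQ : Q ∈ H) (hPQ : P ≠ Q) :
    ∃ (g : PGL(3, K)) (f : K → K), IsO f ∧
      IsHyperoval (ℙ K (Fin 3 → K)) (ℙ K (Fin 3 → K)) (oSet K f) ∧
      g • P = E0 ∧ g • Q = E1 ∧ g • (H : Set (ℙ K (Fin 3 → K))) = (oSet K f : Set _) := by
  classical
  obtain ⟨g, hg0, hg1⟩ := two_transitive hPQ
  have hH' := hyperoval_smul hH g
  obtain ⟨f, hf⟩ := exists_f hH' (by rw [← hg0]; exact mem_image_of_mem _ hP)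
    (by rw [← hg1]; exact mem_image_of_mem _ hQ)
  rw [hf] at hH'
  have hH2 := hyperoval_smul hH' (Matrix.ProjGenLinGroup.mk (sh (f 0) 0))
  have himg : (oSet K f).image ((Matrix.ProjGenLinGroup.mk (sh (f 0) 0) : PGL(3, K)) • ·) =
      oSet K (fun c => f c + f 0) := by
    ext p
    rw [mem_image, mem_oSet]
    constructor
    · rintro ⟨r, hr, rfl⟩
      rw [mem_oSet] at hr
      rcases hr with ⟨c, rfl⟩ | rfl | rfl
      · left
        exact ⟨c, by rw [sh_pt, add_zero]⟩
      · right; left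
        rw [sh_E0]
      · right; right
        rw [sh_E1]
    · rintro (⟨c, rfl⟩ | rfl | rfl)
      · exact ⟨pt (f c) c, (mem_oSet f _).mpr (Or.inl ⟨c, rfl⟩), by rw [sh_pt, add_zero]⟩
      · exact ⟨E0, (mem_oSet f _).mpr (Or.inr (Or.inl rfl)), sh_E0 _ _⟩
      · exact ⟨E1, (mem_oSet f _).mpr (Or.inr (Or.inr rfl)), sh_E1 _ _⟩
  have hH3 : IsHyperoval (ℙ K (Fin 3 → K)) (ℙ K (Fin 3 → K)) (oSet K fun c => f c + f 0) := by
    rw [← himg]
    exact hH2
  refine ⟨Matrix.ProjGenLinGroup.mk (sh (f 0) 0) * g, fun c => f c + f 0,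
    isO_of_arc hH3.2 (CharTwo.add_self_eq_zero _), hH3, ?_, ?_, ?_⟩
  · rw [mul_smul, hg0, sh_E0]
  · rw [mul_smul, hg1, sh_E1]
  · rw [← himg, mul_smul, coe_image]
    have h3 : (g • (H : Set (ℙ K (Fin 3 → K))) : Set _) = (oSet K f : Set _) := by
      rw [← hf, coe_image]
      rfl
    rw [h3]
    rfl

end

end Pool.Agent.H49.HO
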