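import Mathlib
import Pool.Agent.H49.HO.Coord

/-!
# Homographies of 2-power order fixing two points of a hyperoval
-/

set_option autoImplicit false

namespace Pool.Agent.H49.HO

open Configuration Finset Pool.Agent.H46.Hyp Pool.Agent.H53.OM
open scoped LinearAlgebra.Projectivization MatrixGroups Pointwise

section

variable {K : Type} [Field K] [Fintype K] [DecidableEq K]

omit [Fintype K] [DecidableEq K] in
theorem one_of_pow [CharP K 2] {x : K} {r : ℕ} (h : x ^ 2 ^ r = 1) : x = 1 := by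
  have h1 : (x + 1) ^ 2 ^ r = 0 := by
    rw [add_pow_char_pow x 1 2 r, h, one_pow, CharTwo.add_self_eq_zero]
  exact CharTwo.add_eq_zero.mp (pow_eq_zero_iff (by positivity) |>.mp h1)

/-- a homography of 2-power order fixing `E0`, `E1` and the hyperoval is a translation by a
period -/
theorem elation_of_two_power [CharP K 2] {f : K → K} (h : IsO f) {g : PGL(3, K)} {r : ℕ}
    (hr : g ^ 2 ^ r = 1) (h0 : g • (E0 : ℙ K (Fin 3 → K)) = E0)
    (h1 : g • (E1 : ℙ K (Fin 3 → K)) = E1) (hf : ∀ c, g • pt (f c) c ∈ oSet K f) :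
    ∃ b, Per f b ∧ g = Matrix.ProjGenLinGroup.mk (sh (f b) b) := by
  obtain ⟨A, rfl⟩ := Matrix.ProjGenLinGroup.mk_surjective g
  set M : Matrix (Fin 3) (Fin 3) K := (A : Matrix (Fin 3) (Fin 3) K) with hM
  have hsm : ∀ v : Fin 3 → K, A • v = M.mulVec v := fun v => rfl
  -- the shape of `M`
  rw [E0, Projectivization.PGL.mk_smul_mk, Projectivization.mk_eq_mk_iff'] at h0
  rw [E1, Projectivization.PGL.mk_smul_mk, Projectivization.mk_eq_mk_iff'] at h1
  obtain ⟨α, hα⟩ := h0
  obtain ⟨β, hβ⟩ := h1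
  rw [hsm] at hα hβ
  have hM00 : M 0 0 = α := by
    have := congrFun hα 0
    simp [Matrix.mulVec, dotProduct, Fin.sum_univ_three] at this
    exact this.symm
  have hM10 : M 1 0 = 0 := by
    have := congrFun hα 1
    simp [Matrix.mulVec, dotProduct, Fin.sum_univ_three] at this
    exact this.symm
  have hM20 : M 2 0 = 0 := by
    have := congrFun hα 2
    simp [Matrix.mulVec, dotProduct, Fin.sum_univ_three] at this
    exact this.symm
  have hM01 : M 0 1 = 0 := by
    have := congrFun hβ 0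
    simp [Matrix.mulVec, dotProduct, Fin.sum_univ_three] at this
    exact this.symm
  have hM11 : M 1 1 = β := by
    have := congrFun hβ 1
    simp [Matrix.mulVec, dotProduct, Fin.sum_univ_three] at this
    exact this.symm
  have hM21 : M 2 1 = 0 := by
    have := congrFun hβ 2
    simp [Matrix.mulVec, dotProduct, Fin.sum_univ_three] at this
    exact this.symm
  have hdet : M.det ≠ 0 := (A.isUnit.map Matrix.detMonoidHom).ne_zero
  have hdet2 : M.det = α * β * M 2 2 := by
    rw [Matrix.det_fin_three, hM00, hM10, hM20, hM01, hM11, hM21]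
    ring
  set γ := M 2 2 with hγ
  have hγ0 : γ ≠ 0 := by
    intro h2
    rw [hdet2, h2, mul_zero] at hdet
    exact hdet rfl
  have hmul : ∀ v : Fin 3 → K, A • v = ![α * v 0 + M 0 2 * v 2, β * v 1 + M 1 2 * v 2, γ * v 2] := by
    intro v
    rw [hsm]
    funext j
    fin_cases j
    · simp [Matrix.mulVec, dotProduct, Fin.sum_univ_three, hM00, hM01]
    · simp [Matrix.mulVec, dotProduct, Fin.sum_univ_three, hM10, hM11]
    · simp [Matrix.mulVec, dotProduct, Fin.sum_univ_three, hM20, hM21, hγ]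
  -- powers
  have hpow : ∀ N : ℕ, ∀ v : Fin 3 → K, ∃ a b : K, (A ^ N) • v = ![a, b, γ ^ N * v 2] ∧
      (v 2 = 0 → a = α ^ N * v 0 ∧ b = β ^ N * v 1) := by
    intro N
    induction N with
    | zero =>
      intro v
      refine ⟨v 0, v 1, ?_, fun _ => by simp⟩
      rw [pow_zero, one_smul]
      funext j
      fin_cases j <;> simp
    | succ N ih =>
      intro v
      obtain ⟨a, b, hab, hab2⟩ := ih v
      refine ⟨α * a + M 0 2 * (γ ^ N * v 2), β * b + M 1 2 * (γ ^ N * v 2), ?_, ?_⟩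
      · rw [pow_succ', mul_smul, hab, hmul]
        funext j
        fin_cases j
        · simp
        · simp
        · simp
          ring
      · intro hv
        obtain ⟨h2, h3⟩ := hab2 hv
        rw [h2, h3, hv]
        constructor <;> ring
  have hscal : ∃ u : Kˣ, A ^ 2 ^ r * Matrix.GeneralLinearGroup.scalar (Fin 3) u = 1 := by
    rw [← map_pow] at hr
    have h2 : Matrix.ProjGenLinGroup.mk (A ^ 2 ^ r) = Matrix.ProjGenLinGroup.mk (1 : GL (Fin 3) K) := by
      rw [hr, map_one]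
    exact Matrix.ProjGenLinGroup.mk_eq_mk_iff.mp h2
  obtain ⟨u, hu⟩ := hscal
  have huv : ∀ v : Fin 3 → K, A ^ 2 ^ r • ((u : K) • v) = v := by
    intro v
    have h2 : (A ^ 2 ^ r * Matrix.GeneralLinearGroup.scalar (Fin 3) u) • v = v := by
      rw [hu, one_smul]
    rw [mul_smul] at h2
    have h3 : (Matrix.GeneralLinearGroup.scalar (Fin 3) u) • v = (u : K) • v := by
      show (Matrix.scalar (Fin 3) (u : K)).mulVec v = _
      funext j
      rw [Matrix.scalar_apply, Matrix.mulVec_diagonal]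
      rfl
    rw [h3] at h2
    exact h2
  have hα2 : α ^ 2 ^ r * u = 1 := by
    obtain ⟨a, b, hab, hab2⟩ := hpow (2 ^ r) ((u : K) • ![1, 0, 0])
    obtain ⟨h2, _⟩ := hab2 (by simp)
    rw [huv] at hab
    have h3 := congrFun hab 0
    rw [h2] at h3
    simp at h3
    exact h3.symm
  have hβ2 : β ^ 2 ^ r * u = 1 := by
    obtain ⟨a, b, hab, hab2⟩ := hpow (2 ^ r) ((u : K) • ![0, 1, 0])
    obtain ⟨_, h2⟩ := hab2 (by simp)
    rw [huv] at hab
    have h3 := congrFun hab 1
    rw [h2] at h3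
    simp at h3
    exact h3.symm
  have hγ2 : γ ^ 2 ^ r * u = 1 := by
    obtain ⟨a, b, hab, _⟩ := hpow (2 ^ r) ((u : K) • ![0, 0, 1])
    rw [huv] at hab
    have h3 := congrFun hab 2
    simp at h3
    exact h3.symm
  have hu0 : (u : K) ≠ 0 := u.ne_zero
  have hαγ : α = γ := by
    have h2 : (α / γ) ^ 2 ^ r = 1 := by
      rw [div_pow, div_eq_one_iff_eq (pow_ne_zero _ hγ0)]
      exact mul_right_cancel₀ hu0 (hα2.trans hγ2.symm)
    exact (div_eq_one_iff_eq hγ0).mp (one_of_pow h2)
  have hβγ : β = γ := by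
    have h2 : (β / γ) ^ 2 ^ r = 1 := by
      rw [div_pow, div_eq_one_iff_eq (pow_ne_zero _ hγ0)]
      exact mul_right_cancel₀ hu0 (hβ2.trans hγ2.symm)
    exact (div_eq_one_iff_eq hγ0).mp (one_of_pow h2)
  -- the action on the affine points
  have hact : ∀ c, f c + M 0 2 / γ = f (c + M 1 2 / γ) := by
    intro c
    have h2 := hf c
    rw [pt, Projectivization.PGL.mk_smul_mk, eq_pt _ (by rw [hmul]; simpa using hγ0), hmul,
      mem_oSet] at h2
    rcases h2 with ⟨d, hd⟩ | hd | hd
    · have h3 := pt_inj hd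
      simp at h3
      obtain ⟨h4, h5⟩ := h3
      rw [hαγ] at h4
      rw [hβγ] at h5
      have h6 : c + M 1 2 / γ = d := by
        rw [← h5]
        field_simp
      rw [h6, ← h4]
      field_simp
    · exact absurd hd (pt_ne_E0 _ _)
    · exact absurd hd (pt_ne_E1 _ _)
  have hfb : f (M 1 2 / γ) = M 0 2 / γ := by
    have h2 := hact 0
    rw [h.zero, zero_add, zero_add] at h2
    exact h2.symm
  refine ⟨M 1 2 / γ, fun x => ?_, ?_⟩
  · rw [hfb]
    exact (hact x).symm
  · rw [Matrix.ProjGenLinGroup.mk_eq_mk_iff]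
    refine ⟨(Units.mk0 γ hγ0)⁻¹, ?_⟩
    apply Units.ext
    rw [hfb]
    show M * (Matrix.scalar (Fin 3) (((Units.mk0 γ hγ0)⁻¹ : Kˣ) : K)) = shM (M 0 2 / γ) (M 1 2 / γ)
    ext i j
    rw [Matrix.scalar_apply, Matrix.mul_diagonal, shM]
    fin_cases i <;> fin_cases j <;>
      simp [hM00, hM10, hM20, hM01, hM11, hM21, hαγ, hβγ, ← hγ, hγ0, div_eq_mul_inv]

/-- the periods dominate the 2-groups fixing `E0`, `E1` and the hyperoval -/
theorem card_le_periods [CharP K 2] {f : K → K} (h : IsO f) (S : Subgroup PGL(3, K))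
    (hS : ∀ g ∈ S, ∃ r, g ^ 2 ^ r = 1)
    (h0 : ∀ g ∈ S, g • (E0 : ℙ K (Fin 3 → K)) = E0) (h1 : ∀ g ∈ S, g • (E1 : ℙ K (Fin 3 → K)) = E1)
    (hf : ∀ g ∈ S, ∀ c, g • pt (f c) c ∈ oSet K f) :
    Nat.card S ≤ Nat.card {b : K // Per f b} := by
  have hex : ∀ g : S, ∃ b, Per f b ∧ (g : PGL(3, K)) = Matrix.ProjGenLinGroup.mk (sh (f b) b) := by
    intro g
    obtain ⟨r, hr⟩ := hS g g.2
    exact elation_of_two_power h hr (h0 g g.2) (h1 g g.2) (hf g g.2)
  choose φ hφ1 hφ2 using hex
  have hfin : Finite {b : K // Per f b} := inferInstance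
  refine Nat.card_le_card_of_injective (fun g : S => (⟨φ g, hφ1 g⟩ : {b : K // Per f b})) ?_
  intro g g' hgg
  have h2 : φ g = φ g' := congrArg Subtype.val hgg
  apply Subtype.ext
  rw [hφ2 g, hφ2 g', h2]

instance finite_PGL : Finite PGL(3, K) :=
  Finite.of_surjective _ Matrix.ProjGenLinGroup.mk_surjective

/-- the action of a subgroup preserving `H` on `H` -/
@[reducible] def actH {H : Finset (ℙ K (Fin 3 → K))} (S : Subgroup PGL(3, K))
    (hS : ∀ g ∈ S, ∀ p ∈ H, g • p ∈ H) : MulAction S {p // p ∈ H} where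
  smul g p := ⟨(g : PGL(3, K)) • (p : ℙ K (Fin 3 → K)), hS g g.2 p p.2⟩
  one_smul p := Subtype.ext (one_smul PGL(3, K) (p : ℙ K (Fin 3 → K)))
  mul_smul g g' p := Subtype.ext (mul_smul (g : PGL(3, K)) (g' : PGL(3, K)) (p : ℙ K (Fin 3 → K)))

/-- if the number of points is 2 mod 4, a 2-group has an orbit of length at most two -/
theorem exists_small_orbit {S X : Type} [Group S] [Finite S] [MulAction S X] [Finite X]
    {k : ℕ} (hS : Nat.card S = 2 ^ k) (hX : Nat.card X % 4 = 2) :
    ∃ x : X, 2 ^ k ≤ 2 * Nat.card (MulAction.stabilizer S x) := by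
  classical
  by_contra hcon
  push Not at hcon
  have hfX : Fintype X := Fintype.ofFinite X
  have h4 : ∀ x : X, 4 ∣ Nat.card (MulAction.orbit S x) := by
    intro x
    have h1 : Nat.card (MulAction.orbit S x) * Nat.card (MulAction.stabilizer S x) = 2 ^ k := by
      rw [← hS, Nat.card_coe_set_eq, ← MulAction.index_stabilizer S x, mul_comm]
      exact Subgroup.card_mul_index _
    have h2 : Nat.card (MulAction.orbit S x) ∣ 2 ^ k := ⟨_, h1.symm⟩
    obtain ⟨j, _, hj⟩ := (Nat.dvd_prime_pow Nat.prime_two).mp h2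
    rw [hj]
    have h3 := hcon x
    rcases Nat.lt_or_ge j 2 with h5 | h5
    · exfalso
      rw [hj] at h1
      have h6 : 2 ^ j ≤ 2 := by
        calc 2 ^ j ≤ 2 ^ 1 := Nat.pow_le_pow_right (by norm_num) (by omega)
          _ = 2 := pow_one 2
      have h7 : 2 ^ j * Nat.card (MulAction.stabilizer S x) ≤
          2 * Nat.card (MulAction.stabilizer S x) := Nat.mul_le_mul_right _ h6
      omega
    · calc 4 = 2 ^ 2 := by norm_num
        _ ∣ 2 ^ j := pow_dvd_pow 2 h5
  have h5 := Nat.card_congr (MulAction.selfEquivSigmaOrbits S X)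
  have h6 : 4 ∣ Nat.card X := by
    rw [h5, Nat.card_sigma]
    refine Finset.dvd_sum fun ω _ => ?_
    exact h4 _
  omega

end

end Pool.Agent.H49.HO
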