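import Mathlib
import Pool.Agent.H49.HO.Core

/-!
# Periods and the images of `x ↦ f x + b x`
-/

set_option autoImplicit false

namespace Pool.Agent.H49.HO

open Finset

section

variable {K : Type} [Field K] [Fintype K] [DecidableEq K]

/-- the image of `x ↦ f x + b x` is closed under addition iff `b = f v / v` for a period `v` -/
theorem closed_iff [CharP K 2] {f : K → K} (h : IsO f) {n : ℕ} (hn : 0 < n)
    (hK : Fintype.card K = 2 ^ n) {b : K} (hb : b ≠ 0) :
    (∀ x y, ∃ z, f z + b * z = (f x + b * x) + (f y + b * y)) ↔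
      ∃ v, v ≠ 0 ∧ Per f v ∧ b = f v / v := by
  have h2 := CharTwo.two_eq_zero (R := K)
  constructor
  · intro hcl
    have hadd : ∀ {y w : K}, y ∈ Im f b → w ∈ Im f b → y + w ∈ Im f b := by
      intro y w hy hw
      rw [Im, mem_image] at hy hw ⊢
      obtain ⟨x, _, rfl⟩ := hy
      obtain ⟨x', _, rfl⟩ := hw
      obtain ⟨z, hz⟩ := hcl x x'
      exact ⟨z, mem_univ _, hz⟩
    set e : K := ∏ w ∈ (Im f b).erase 0, w with he
    have hconst : ∀ y ∈ Im f b, ∏ w ∈ (Im f b).erase y, (y + w) = e := by
      intro y hy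
      rw [he]
      refine prod_bij (fun w _ => y + w) ?_ ?_ ?_ ?_
      · intro w hw
        rw [mem_erase] at hw ⊢
        exact ⟨add_ne_zero' hw.1, hadd hy hw.2⟩
      · intro w _ w' _ hww
        exact add_left_cancel hww
      · intro w hw
        rw [mem_erase] at hw
        refine ⟨y + w, ?_, ?_⟩
        · rw [mem_erase]
          refine ⟨?_, hadd hy hw.2⟩
          intro h1
          exact hw.1 (by simpa using h1)
        · linear_combination y * h2
      · intro w _
        rfl
    have hflat := flat hn hK (card_Im h hb hn hK) (zero_mem_Im h _) hconst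
    have he2 : e ^ 2 ≠ 0 := pow_ne_zero _ hflat.1
    have hper := per_of_tr h hn hK (a := e ^ 2) (c := e ^ 2 * b) he2 (by
      intro x
      have h3 := (hflat.2 (f x + b * x)).mp (mem_image_of_mem _ (mem_univ _))
      rw [mul_add, tr_add, ← mul_assoc] at h3
      exact CharTwo.add_eq_zero.mp h3)
    have hv0 : 1 / (e ^ 2 * b) ≠ 0 := one_div_ne_zero hper.1
    have hfv : f (1 / (e ^ 2 * b)) = 1 / e ^ 2 := by
      have h3 := hper.2 0
      rw [zero_add, h.zero, zero_add] at h3
      exact h3
    refine ⟨1 / (e ^ 2 * b), hv0, ?_, ?_⟩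
    · intro x
      rw [hfv]
      exact hper.2 x
    · rw [hfv]
      have he0 := hflat.1
      rw [eq_div_iff hv0]
      field_simp
  · rintro ⟨v, hv0, hv, rfl⟩ x y
    have hfv := f_ne_zero h hv0
    have hY : Im f (f v / v) = univ.filter fun y => tr n (1 / f v * y) = 0 := by
      apply eq_of_subset_of_card_le
      · intro y hy
        rw [Im, mem_image] at hy
        obtain ⟨x, _, rfl⟩ := hy
        rw [mem_filter]
        refine ⟨mem_univ _, ?_⟩
        have h3 : 1 / f v * (f x + f v / v * x) = f x / f v + x / v := by field_simp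
        rw [h3, tr_add, tr_of_per h hn hK hv0 hv, CharTwo.add_self_eq_zero]
      · rw [card_Im h hb hn hK]
        apply card_tr_le hn (one_div_ne_zero hfv)
        intro x hx
        exact (mem_filter.mp hx).2
    have h3 : (f x + f v / v * x) + (f y + f v / v * y) ∈ Im f (f v / v) := by
      have hx : f x + f v / v * x ∈ Im f (f v / v) := mem_image_of_mem _ (mem_univ _)
      have hy : f y + f v / v * y ∈ Im f (f v / v) := mem_image_of_mem _ (mem_univ _)
      rw [hY, mem_filter] at hx hy ⊢
      refine ⟨mem_univ _, ?_⟩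
      rw [mul_add, tr_add, hx.2, hy.2, add_zero]
    rw [Im, mem_image] at h3
    obtain ⟨z, _, hz⟩ := h3
    exact ⟨z, hz⟩

end

end Pool.Agent.H49.HO
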