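import Mathlib
import Pool.Agent.H49.HO.Baer
import Pool.Agent.H49.HO.Group

/-!
# The 2-part of the homography group of a hyperoval
-/

set_option autoImplicit false

namespace Pool.Agent.H49.HO

open Configuration Finset Pool.Agent.H46.Hyp Pool.Agent.H53.OM
open scoped LinearAlgebra.Projectivization MatrixGroups Pointwise

section

variable {K : Type} [Field K] [Fintype K] [DecidableEq K]

omit [Fintype K] [DecidableEq K] in
theorem isO_scale {f : K → K} (h : IsO f) {v w : K} (hv : v ≠ 0) (hw : w ≠ 0) :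
    IsO (fun x => f (v * x) / w) := by
  refine ⟨?_, ?_, ?_⟩
  · intro x y hxy
    have h1 : f (v * x) = f (v * y) := by
      have h2 : f (v * x) / w = f (v * y) / w := hxy
      rwa [div_left_inj' hw] at h2
    exact mul_left_cancel₀ hv (h.inj h1)
  · show f (v * 0) / w = 0
    rw [mul_zero, h.zero, zero_div]
  · intro x y z hy hz hxy
    have h1 : (f (v * x) + f (v * y)) / (v * x + v * y) =
        (f (v * x) + f (v * z)) / (v * x + v * z) := by
      have h2 : ∀ y : K, (f (v * x) / w + f (v * y) / w) / (x + y) =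
          (f (v * x) + f (v * y)) / (v * x + v * y) * (v / w) := by
        intro y
        rw [← add_div, ← mul_add]
        by_cases h3 : x + y = 0
        · rw [h3]
          simp
        · field_simp
      rw [h2 y, h2 z] at hxy
      exact mul_right_cancel₀ (div_ne_zero hv hw) hxy
    exact mul_left_cancel₀ hv (h.slope _ _ _ (fun h3 => hy (mul_left_cancel₀ hv h3))
      (fun h3 => hz (mul_left_cancel₀ hv h3)) h1)

/-- **the periods of an o-polynomial** -/
theorem periods [CharP K 2] {f : K → K} (h : IsO f) {n : ℕ} (hn : 0 < n)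
    (hK : Fintype.card K = 2 ^ n) {v : K} (hv0 : v ≠ 0) (hv : Per f v) :
    ∃ (F : Subfield K) (m i : ℕ), m ∣ n ∧ 0 < m ∧ Nat.card F = 2 ^ m ∧
      (∀ x, Per f (v * x) ↔ x ∈ F) ∧ (∀ x ∈ F, f (v * x) = f v * x ^ 2 ^ i) ∧
      (m = n ∨ 3 * m ≤ n) := by
  obtain ⟨F, m, i, hmn, hF, hm0, hper, hf⟩ := per_structure h hn hK hv0 hv
  refine ⟨F, m, i, hmn, hm0, hF, hper, hf, ?_⟩
  obtain ⟨s, hs⟩ := hmn
  rcases Nat.lt_or_ge s 3 with h3 | h3
  · interval_cases s
    · omega
    · left
      omega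
    · exfalso
      have hfv := f_ne_zero h hv0
      refine baer (f := fun x => f (v * x) / f v) (isO_scale h hv0 hfv) (i := i) hm0
        (by rw [hK, hs, mul_comm m 2]) F hF ?_ ?_
      · intro x
        rw [← hper]
        constructor
        · intro h4 y
          have h5 := h4 (y / v)
          have h6 : f (v * (y / v + x)) / f v = f (v * (y / v)) / f v + f (v * x) / f v := h5
          rw [← add_div, div_left_inj' hfv, mul_add, mul_div_cancel₀ _ hv0] at h6
          exact h6
        · intro h4 y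
          show f (v * (y + x)) / f v = f (v * y) / f v + f (v * x) / f v
          rw [mul_add, h4, add_div]
      · intro x hx
        show f (v * x) / f v = x ^ 2 ^ i
        rw [hf x hx, mul_div_cancel_left₀ _ hfv]
  · right
    calc 3 * m = m * 3 := mul_comm _ _
      _ ≤ m * s := Nat.mul_le_mul_left _ h3
      _ = n := hs.symm

/-- the map `(x, y, z) ↦ (a x, b y, z)` -/
noncomputable def dg {a b : K} (ha : a ≠ 0) (hb : b ≠ 0) : GL (Fin 3) K :=
  Matrix.GeneralLinearGroup.mkOfDetNeZero (!![a, 0, 0; 0, b, 0; 0, 0, 1]) (by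
    rw [Matrix.det_fin_three]
    simpa using ⟨ha, hb⟩)

omit [Fintype K] [DecidableEq K] in
theorem dg_mulVec {a b : K} (ha : a ≠ 0) (hb : b ≠ 0) (v : Fin 3 → K) :
    dg ha hb • v = ![a * v 0, b * v 1, v 2] := by
  show (!![a, 0, 0; 0, b, 0; 0, 0, 1] : Matrix (Fin 3) (Fin 3) K).mulVec v = _
  funext j
  fin_cases j <;> simp [Matrix.mulVec, dotProduct, Fin.sum_univ_three]

omit [Fintype K] [DecidableEq K] in
theorem dg_pt {a b : K} (ha : a ≠ 0) (hb : b ≠ 0) (x y : K) :
    (Matrix.ProjGenLinGroup.mk (dg ha hb) : PGL(3, K)) • pt x y = pt (a * x) (b * y) := by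
  rw [pt, Projectivization.PGL.mk_smul_mk, pt, Projectivization.mk_eq_mk_iff']
  refine ⟨1, ?_⟩
  rw [one_smul, dg_mulVec]
  simp

omit [Fintype K] [DecidableEq K] in
theorem dg_E0 {a b : K} (ha : a ≠ 0) (hb : b ≠ 0) :
    (Matrix.ProjGenLinGroup.mk (dg ha hb) : PGL(3, K)) • (E0 : ℙ K (Fin 3 → K)) = E0 := by
  rw [E0, Projectivization.PGL.mk_smul_mk, Projectivization.mk_eq_mk_iff']
  refine ⟨a, ?_⟩
  rw [dg_mulVec]
  simp

omit [Fintype K] [DecidableEq K] in
theorem dg_E1 {a b : K} (ha : a ≠ 0) (hb : b ≠ 0) :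
    (Matrix.ProjGenLinGroup.mk (dg ha hb) : PGL(3, K)) • (E1 : ℙ K (Fin 3 → K)) = E1 := by
  rw [E1, Projectivization.PGL.mk_smul_mk, Projectivization.mk_eq_mk_iff']
  refine ⟨b, ?_⟩
  rw [dg_mulVec]
  simp

/-- the translation case -/
theorem translation_of_full [CharP K 2] {f : K → K} (h : IsO f) {v : K} (hv0 : v ≠ 0) {i : ℕ}
    (hf : ∀ x, f (v * x) = f v * x ^ 2 ^ i) :
    ∃ g : PGL(3, K), g • (oSet K f : Set (ℙ K (Fin 3 → K))) =
      (oSet K fun x => x ^ 2 ^ i : Finset (ℙ K (Fin 3 → K))) := by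
  have hfv := f_ne_zero h hv0
  have ha : (f v)⁻¹ ≠ 0 := inv_ne_zero hfv
  have hb : v⁻¹ ≠ 0 := inv_ne_zero hv0
  refine ⟨Matrix.ProjGenLinGroup.mk (dg ha hb), ?_⟩
  have hpt : ∀ c, (Matrix.ProjGenLinGroup.mk (dg ha hb) : PGL(3, K)) • pt (f c) c =
      pt ((v⁻¹ * c) ^ 2 ^ i) (v⁻¹ * c) := by
    intro c
    rw [dg_pt]
    congr 1
    have h1 := hf (v⁻¹ * c)
    rw [mul_inv_cancel_left₀ hv0] at h1
    rw [h1, inv_mul_cancel_left₀ hfv]
  ext p
  rw [Set.mem_smul_set]
  constructor
  · rintro ⟨r, hr, rfl⟩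
    rw [mem_coe, mem_oSet] at hr
    rw [mem_coe, mem_oSet]
    rcases hr with ⟨c, rfl⟩ | rfl | rfl
    · exact Or.inl ⟨_, hpt c⟩
    · exact Or.inr (Or.inl (dg_E0 ha hb))
    · exact Or.inr (Or.inr (dg_E1 ha hb))
  · intro hp
    rw [mem_coe, mem_oSet] at hp
    rcases hp with ⟨c, rfl⟩ | rfl | rfl
    · refine ⟨pt (f (v * c)) (v * c), mem_coe.mpr ((mem_oSet f _).mpr (Or.inl ⟨_, rfl⟩)), ?_⟩
      rw [hpt, inv_mul_cancel_left₀ hv0]
    · exact ⟨E0, mem_coe.mpr ((mem_oSet f _).mpr (Or.inr (Or.inl rfl))), dg_E0 ha hb⟩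
    · exact ⟨E1, mem_coe.mpr ((mem_oSet f _).mpr (Or.inr (Or.inr rfl))), dg_E1 ha hb⟩

/-- the full case: every element is a period -/
theorem translation_of_periods [CharP K 2] {f : K → K} (h : IsO f) {n : ℕ} (hn : 0 < n)
    (hK : Fintype.card K = 2 ^ n) {v : K} (hv0 : v ≠ 0) {F : Subfield K} {i : ℕ}
    (hF : Nat.card F = 2 ^ n) (hf : ∀ x ∈ F, f (v * x) = f v * x ^ 2 ^ i) :
    ∃ g : PGL(3, K), g • (oSet K f : Set (ℙ K (Fin 3 → K))) =
      (oSet K fun x => x ^ 2 ^ i : Finset (ℙ K (Fin 3 → K))) := by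
  refine translation_of_full h hv0 fun x => hf x ?_
  refine mem_of_pow F hF (Nat.one_lt_two_pow hn.ne') ?_
  rw [← hK, FiniteField.pow_card]

/-- **the 2-part of the homography group of a hyperoval** -/
theorem main {n : ℕ} (hn : 0 < n) (hK : Fintype.card K = 2 ^ n)
    {H : Finset (ℙ K (Fin 3 → K))} (hH : IsHyperoval (ℙ K (Fin 3 → K)) (ℙ K (Fin 3 → K)) H)
    {k : ℕ} (hk : 2 ^ k ∣ Nat.card (MulAction.stabilizer PGL(3, K) (H : Set (ℙ K (Fin 3 → K))))) :
    (∃ (g : PGL(3, K)) (i : ℕ), g • (H : Set (ℙ K (Fin 3 → K))) =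
      (oSet K fun x => x ^ 2 ^ i : Finset (ℙ K (Fin 3 → K)))) ∨
    k ≤ 1 ∨ ∃ m, m ∣ n ∧ 3 * m ≤ n ∧ k ≤ m + 1 := by
  classical
  have hchar : CharP K 2 := charP_two hn hK
  by_cases hk1 : k ≤ 1
  · exact Or.inr (Or.inl hk1)
  have hcardH : H.card = 2 ^ n + 2 := by rw [hH.1, order_eq, hK]
  rcases Nat.lt_or_ge n 2 with hn1 | hn2
  · -- the field with two elements
    left
    have hn1' : n = 1 := by omega
    subst hn1'
    obtain ⟨P, hP, Q, hQ, hPQ⟩ := Finset.one_lt_card.mp (show 1 < H.card by omega)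
    obtain ⟨g, f, hf, _, _, _, hgH⟩ := exists_coord hH hP hQ hPQ
    have h01 : ∀ x : K, x = 0 ∨ x = 1 := by
      intro x
      by_contra hcon
      push Not at hcon
      have h3 : ({0, 1, x} : Finset K).card ≤ Fintype.card K := card_le_univ _
      have h4 : ({0, 1, x} : Finset K).card = 3 := by
        rw [card_insert_of_notMem, card_pair hcon.2.symm]
        rw [mem_insert, mem_singleton, not_or]
        exact ⟨zero_ne_one, hcon.1.symm⟩
      rw [hK, h4] at h3
      omega
    have hf1 : f 1 = 1 := by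
      rcases h01 (f 1) with h | h
      · exact absurd h (f_ne_zero hf one_ne_zero)
      · exact h
    obtain ⟨g', hg'⟩ := translation_of_full hf (v := 1) (i := 0) one_ne_zero (by
      intro x
      rw [one_mul, hf1, one_mul, pow_zero, pow_one]
      rcases h01 x with rfl | rfl
      · exact hf.zero
      · exact hf1)
    exact ⟨g' * g, 0, by rw [mul_smul, hgH, hg']⟩
  · -- a Sylow subgroup
    have hp2 : Fact (Nat.Prime 2) := ⟨Nat.prime_two⟩
    set G := MulAction.stabilizer PGL(3, K) (H : Set (ℙ K (Fin 3 → K))) with hG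
    obtain ⟨T, hT⟩ := Sylow.exists_subgroup_card_pow_prime 2 hk
    set S : Subgroup PGL(3, K) := T.map G.subtype with hS
    have hScard : Nat.card S = 2 ^ k := by
      rw [hS, Subgroup.card_map_of_injective G.subtype_injective, hT]
    have hSG : ∀ g ∈ S, g • (H : Set (ℙ K (Fin 3 → K))) = H := by
      intro g hg
      rw [hS, Subgroup.mem_map] at hg
      obtain ⟨x, _, rfl⟩ := hg
      exact x.2
    have hSH : ∀ g ∈ S, ∀ p ∈ H, g • p ∈ H := by
      intro g hg p hp
      have h1 : g • p ∈ g • (H : Set (ℙ K (Fin 3 → K))) := Set.smul_mem_smul_set (mem_coe.mpr hp)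
      rw [hSG g hg] at h1
      exact mem_coe.mp h1
    let _ := actH S hSH
    have hX : Nat.card {p // p ∈ H} % 4 = 2 := by
      rw [Nat.card_eq_fintype_card, Fintype.card_coe, hcardH]
      obtain ⟨r, rfl⟩ : ∃ r, n = r + 2 := ⟨n - 2, by omega⟩
      rw [pow_add]
      omega
    obtain ⟨P, hP⟩ := exists_small_orbit (S := S) (X := {p // p ∈ H}) hScard hX
    -- the stabilizer of `P`
    set S0 : Subgroup PGL(3, K) := (MulAction.stabilizer S P).map S.subtype with hS0
    have hS0card : Nat.card S0 = Nat.card (MulAction.stabilizer S P) := by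
      rw [hS0, Subgroup.card_map_of_injective S.subtype_injective]
    have hS0S : ∀ g ∈ S0, g ∈ S := by
      intro g hg
      rw [hS0, Subgroup.mem_map] at hg
      obtain ⟨x, _, rfl⟩ := hg
      exact x.2
    have hS0P : ∀ g ∈ S0, g • (P : ℙ K (Fin 3 → K)) = P := by
      intro g hg
      rw [hS0, Subgroup.mem_map] at hg
      obtain ⟨x, hx, rfl⟩ := hg
      rw [MulAction.mem_stabilizer_iff] at hx
      exact congrArg Subtype.val hx
    have hS0dvd : ∃ j, Nat.card S0 = 2 ^ j := by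
      have h1 : Nat.card S0 ∣ 2 ^ k := by
        rw [hS0card, ← hScard]
        exact Subgroup.card_subgroup_dvd_card _
      obtain ⟨j, _, hj⟩ := (Nat.dvd_prime_pow Nat.prime_two).mp h1
      exact ⟨j, hj⟩
    obtain ⟨j, hj⟩ := hS0dvd
    have hS0H : ∀ g ∈ S0, ∀ p ∈ H, g • p ∈ H := fun g hg => hSH g (hS0S g hg)
    -- a second fixed point
    obtain ⟨Q, hQH, hQP, hQ⟩ : ∃ Q ∈ H, Q ≠ (P : ℙ K (Fin 3 → K)) ∧ ∀ g ∈ S0, g • Q = Q := by
      let _ := actH S0 hS0H
      have hpg : IsPGroup 2 S0 := IsPGroup.of_card hj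
      have h1 := hpg.card_modEq_card_fixedPoints {p // p ∈ H}
      have h2 : (P : {p // p ∈ H}) ∈ MulAction.fixedPoints S0 {p // p ∈ H} := by
        intro g
        exact Subtype.ext (hS0P g g.2)
      have h3 : Nat.card {p // p ∈ H} % 2 = 0 := by omega
      have h4 : Nat.card (MulAction.fixedPoints S0 {p // p ∈ H}) % 2 = 0 := by
        rw [← h3]
        exact h1.symm
      have h5 : 1 < Nat.card (MulAction.fixedPoints S0 {p // p ∈ H}) := by
        have h6 : 0 < Nat.card (MulAction.fixedPoints S0 {p // p ∈ H}) := by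
          have : Nonempty (MulAction.fixedPoints S0 {p // p ∈ H}) := ⟨⟨P, h2⟩⟩
          exact Nat.card_pos
        omega
      have hnt : Nontrivial (MulAction.fixedPoints S0 {p // p ∈ H}) :=
        Finite.one_lt_card_iff_nontrivial.mp h5
      obtain ⟨⟨Q, hQ⟩, hne⟩ := exists_ne (⟨P, h2⟩ : MulAction.fixedPoints S0 {p // p ∈ H})
      refine ⟨Q, Q.2, ?_, ?_⟩
      · intro h6
        apply hne
        apply Subtype.ext
        exact Subtype.ext h6
      · intro g hg
        exact congrArg Subtype.val (hQ ⟨g, hg⟩)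
    obtain ⟨g, f, hf, _, hgP, hgQ, hgH⟩ := exists_coord hH P.2 hQH hQP.symm
    -- conjugate
    set S1 : Subgroup PGL(3, K) := S0.map (MulAut.conj g).toMonoidHom with hS1
    have hS1card : Nat.card S1 = Nat.card S0 := by
      rw [hS1, Subgroup.card_map_of_injective (MulAut.conj g).injective]
    have hS1mem : ∀ x ∈ S1, ∃ y ∈ S0, x = g * y * g⁻¹ := by
      intro x hx
      rw [hS1, Subgroup.mem_map] at hx
      obtain ⟨y, hy, rfl⟩ := hx
      exact ⟨y, hy, rfl⟩
    have hginv0 : g⁻¹ • (E0 : ℙ K (Fin 3 → K)) = P := by rw [← hgP, inv_smul_smul]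
    have hginv1 : g⁻¹ • (E1 : ℙ K (Fin 3 → K)) = Q := by rw [← hgQ, inv_smul_smul]
    have hle := card_le_periods hf S1
      (by
        intro x hx
        refine ⟨j, ?_⟩
        rw [← hj, ← hS1card]
        have h1 : (⟨x, hx⟩ : S1) ^ Nat.card S1 = 1 := pow_card_eq_one'
        exact congrArg Subtype.val h1)
      (by
        intro x hx
        obtain ⟨y, hy, rfl⟩ := hS1mem x hx
        rw [mul_smul, mul_smul, hginv0, hS0P y hy, hgP])
      (by
        intro x hx
        obtain ⟨y, hy, rfl⟩ := hS1mem x hx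
        rw [mul_smul, mul_smul, hginv1, hQ y hy, hgQ])
      (by
        intro x hx c
        obtain ⟨y, hy, rfl⟩ := hS1mem x hx
        have h1 : pt (f c) c ∈ g • (H : Set (ℙ K (Fin 3 → K))) := by
          rw [hgH, mem_coe, mem_oSet]
          exact Or.inl ⟨c, rfl⟩
        rw [Set.mem_smul_set] at h1
        obtain ⟨p, hp, hp2⟩ := h1
        rw [← hp2, mul_smul, mul_smul, inv_smul_smul, ← mem_coe, ← hgH]
        exact Set.smul_mem_smul_set (mem_coe.mpr (hS0H y hy p (mem_coe.mp hp))))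
    rw [hS1card, hS0card] at hle
    have hlow : 2 ^ (k - 1) ≤ Nat.card {b : K // Per f b} := by
      have h1 : 2 ^ k = 2 * 2 ^ (k - 1) := by
        rw [← pow_succ']
        congr 1
        omega
      omega
    -- a nonzero period
    obtain ⟨v, hv0, hv⟩ : ∃ v, v ≠ 0 ∧ Per f v := by
      by_contra hcon
      push Not at hcon
      have h1 : Nat.card {b : K // Per f b} ≤ 1 := by
        rw [Finite.card_le_one_iff_subsingleton]
        refine ⟨fun a b => Subtype.ext ?_⟩
        have ha : (a : K) = 0 := by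
          by_contra h2
          exact hcon a h2 a.2
        have hb : (b : K) = 0 := by
          by_contra h2
          exact hcon b h2 b.2
        rw [ha, hb]
      have h2 : 2 ^ 1 ≤ 2 ^ (k - 1) := Nat.pow_le_pow_right (by norm_num) (by omega)
      omega
    obtain ⟨F, m, i, hmn, hm0, hF, hper, hfF, hcase⟩ := periods hf hn hK hv0 hv
    rcases hcase with hmn' | h3
    · left
      subst hmn'
      obtain ⟨g', hg'⟩ := translation_of_periods hf hn hK hv0 hF hfF
      exact ⟨g' * g, i, by rw [mul_smul, hgH, hg']⟩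
    · right; right
      refine ⟨m, hmn, h3, ?_⟩
      have h1 : Nat.card {b : K // Per f b} ≤ Nat.card F := by
        refine Nat.card_le_card_of_injective (fun b : {b : K // Per f b} =>
          (⟨(b : K) / v, (hper _).mp (by rw [mul_div_cancel₀ _ hv0]; exact b.2)⟩ : F)) ?_
        intro a b hab
        have h2 := congrArg (Subtype.val : F → K) hab
        apply Subtype.ext
        have h4 : (a : K) / v = (b : K) / v := h2
        rwa [div_left_inj' hv0] at h4
      rw [hF] at h1
      have h2 : 2 ^ (k - 1) ≤ 2 ^ m := hlow.trans h1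
      have h4 := (Nat.pow_le_pow_iff_right (show 1 < 2 by norm_num)).mp h2
      omega

end

end Pool.Agent.H49.HO
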