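import Mathlib
import Pool.Agent.H49.HO.Main

/-!
# Homographies which exchange the two fixed points of a large elation group
-/

set_option autoImplicit false

namespace Pool.Agent.H49.HO

open Configuration Finset Pool.Agent.H46.Hyp Pool.Agent.H53.OM
open scoped LinearAlgebra.Projectivization MatrixGroups Pointwise

section

variable {K : Type} [Field K] [Fintype K] [DecidableEq K]

/-- a homography which exchanges `E0` and `E1` and normalizes the group of all translations by
periods -/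
theorem swap_data [CharP K 2] {f : K → K} {g : PGL(3, K)}
    (h0 : g • (E0 : ℙ K (Fin 3 → K)) = E1) (h1 : g • (E1 : ℙ K (Fin 3 → K)) = E0)
    (hconj : ∀ b, Per f b → ∃ b', Per f b' ∧ g * Matrix.ProjGenLinGroup.mk (sh (f b) b) * g⁻¹ =
      Matrix.ProjGenLinGroup.mk (sh (f b') b')) :
    ∃ α β : K, α ≠ 0 ∧ β ≠ 0 ∧ ∀ b, Per f b → Per f (β * f b) ∧ f (β * f b) = α * b := by
  obtain ⟨A, rfl⟩ := Matrix.ProjGenLinGroup.mk_surjective g
  set M : Matrix (Fin 3) (Fin 3) K := (A : Matrix (Fin 3) (Fin 3) K) with hM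
  have hsm : ∀ v : Fin 3 → K, A • v = M.mulVec v := fun v => rfl
  rw [E0, Projectivization.PGL.mk_smul_mk, E1, Projectivization.mk_eq_mk_iff'] at h0
  rw [E1, Projectivization.PGL.mk_smul_mk, E0, Projectivization.mk_eq_mk_iff'] at h1
  obtain ⟨β, hβ⟩ := h0
  obtain ⟨α, hα⟩ := h1
  rw [hsm] at hα hβ
  have hM00 : M 0 0 = 0 := by
    have := congrFun hβ 0
    simp [Matrix.mulVec, dotProduct, Fin.sum_univ_three] at this
    exact this.symm
  have hM10 : M 1 0 = β := by
    have := congrFun hβ 1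
    simp [Matrix.mulVec, dotProduct, Fin.sum_univ_three] at this
    exact this.symm
  have hM20 : M 2 0 = 0 := by
    have := congrFun hβ 2
    simp [Matrix.mulVec, dotProduct, Fin.sum_univ_three] at this
    exact this.symm
  have hM01 : M 0 1 = α := by
    have := congrFun hα 0
    simp [Matrix.mulVec, dotProduct, Fin.sum_univ_three] at this
    exact this.symm
  have hM11 : M 1 1 = 0 := by
    have := congrFun hα 1
    simp [Matrix.mulVec, dotProduct, Fin.sum_univ_three] at this
    exact this.symm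
  have hM21 : M 2 1 = 0 := by
    have := congrFun hα 2
    simp [Matrix.mulVec, dotProduct, Fin.sum_univ_three] at this
    exact this.symm
  have hdet : M.det ≠ 0 := (A.isUnit.map Matrix.detMonoidHom).ne_zero
  have hdet2 : M.det = -(α * β * M 2 2) := by
    rw [Matrix.det_fin_three, hM00, hM10, hM20, hM01, hM11, hM21]
    ring
  set γ := M 2 2 with hγ
  have hγ0 : γ ≠ 0 := by
    intro h2
    rw [hdet2, h2, mul_zero, neg_zero] at hdet
    exact hdet rfl
  have hα0 : α ≠ 0 := by
    intro h2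
    rw [hdet2, h2, zero_mul, zero_mul, neg_zero] at hdet
    exact hdet rfl
  have hβ0 : β ≠ 0 := by
    intro h2
    rw [hdet2, h2, mul_zero, zero_mul, neg_zero] at hdet
    exact hdet rfl
  have hmul : ∀ v : Fin 3 → K, A • v = ![α * v 1 + M 0 2 * v 2, β * v 0 + M 1 2 * v 2, γ * v 2] := by
    intro v
    rw [hsm]
    funext j
    fin_cases j
    · simp [Matrix.mulVec, dotProduct, Fin.sum_univ_three, hM00, hM01]
    · simp [Matrix.mulVec, dotProduct, Fin.sum_univ_three, hM10, hM11]
    · simp [Matrix.mulVec, dotProduct, Fin.sum_univ_three, hM20, hM21, hγ]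
  refine ⟨α / γ, β / γ, div_ne_zero hα0 hγ0, div_ne_zero hβ0 hγ0, ?_⟩
  intro b hb
  obtain ⟨b', hb', hbb⟩ := hconj b hb
  have h2 : Matrix.ProjGenLinGroup.mk (A * sh (f b) b) =
      Matrix.ProjGenLinGroup.mk (sh (f b') b' * A) := by
    rw [map_mul, map_mul, ← hbb, inv_mul_cancel_right]
  obtain ⟨u, hu⟩ := Matrix.ProjGenLinGroup.mk_eq_mk_iff.mp h2
  have huv : ∀ v : Fin 3 → K, A • (sh (f b) b • ((u : K) • v)) = sh (f b') b' • (A • v) := by
    intro v
    have h3 : (A * sh (f b) b * Matrix.GeneralLinearGroup.scalar (Fin 3) u) • v =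
        (sh (f b') b' * A) • v := by rw [hu]
    rw [mul_smul, mul_smul, mul_smul] at h3
    have h4 : (Matrix.GeneralLinearGroup.scalar (Fin 3) u) • v = (u : K) • v := by
      show (Matrix.scalar (Fin 3) (u : K)).mulVec v = _
      funext j
      rw [Matrix.scalar_apply, Matrix.mulVec_diagonal]
      rfl
    rw [h4] at h3
    exact h3
  have hu1 : (u : K) = 1 := by
    have h3 := congrFun (huv ![1, 0, 0]) 1
    rw [sh_mulVec, hmul, hmul, sh_mulVec] at h3
    have h4 : β * (u : K) = β := by simpa using h3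
    exact mul_left_cancel₀ hβ0 (h4.trans (mul_one β).symm)
  have h3 := huv ![0, 0, 1]
  rw [hu1, one_smul, sh_mulVec, hmul, hmul, sh_mulVec] at h3
  have h30 := congrFun h3 0
  have h31 := congrFun h3 1
  simp at h30 h31
  have h4 : b' = β / γ * f b := by
    field_simp
    linear_combination (-1 : K) * h31
  have h5 : f b' = α / γ * b := by
    field_simp
    linear_combination (-1 : K) * h30
  rw [← h4]
  exact ⟨hb', h5⟩

/-- in this case the group of periods has at most four elements -/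
theorem card_le_of_swap [CharP K 2] {f : K → K} (h : IsO f) {v : K} (hv0 : v ≠ 0)
    {F : Subfield K} {m i : ℕ} (hF : Nat.card F = 2 ^ m) (hper : ∀ x, Per f (v * x) ↔ x ∈ F)
    (hf : ∀ x ∈ F, f (v * x) = f v * x ^ 2 ^ i) {α β : K} (hα0 : α ≠ 0)
    (hαβ : ∀ b, Per f b → Per f (β * f b) ∧ f (β * f b) = α * b) : m ≤ 2 := by
  classical
  by_contra hm
  push Not at hm
  have h2 := CharTwo.two_eq_zero (R := K)
  have hfv := f_ne_zero h hv0
  have hvper : Per f v := by
    have h1 := (hper 1).mpr F.one_mem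
    rwa [mul_one] at h1
  set c := β * f v / v with hc
  have hvc : v * c = β * f v := mul_div_cancel₀ _ hv0
  have hcF : c ∈ F := by
    rw [← hper, hvc]
    exact (hαβ v hvper).1
  have hc1 : f v * c ^ 2 ^ i = α * v := by
    rw [← hf c hcF, hvc]
    exact (hαβ v hvper).2
  -- `σ ^ 2 = 1` on `F`
  have hσσ : ∀ x ∈ F, (x ^ 2 ^ i) ^ 2 ^ i = x := by
    intro x hx
    have h3 := (hαβ (v * x) ((hper x).mpr hx)).2
    rw [hf x hx] at h3
    have h4 : β * (f v * x ^ 2 ^ i) = v * (c * x ^ 2 ^ i) := by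
      rw [← mul_assoc v, hvc]
      ring
    rw [h4, hf _ (F.mul_mem hcF (F.pow_mem hx _)), mul_pow, ← mul_assoc, hc1] at h3
    have hαv : α * v ≠ 0 := mul_ne_zero hα0 hv0
    exact mul_left_cancel₀ hαv (by rw [h3]; ring)
  -- `x ^ σ = 1 / x`
  have hinv : ∀ x ∈ F, x ≠ 0 → x ^ 2 ^ i * x = 1 := by
    intro x hx hx0
    set N := x ^ 2 ^ i * x with hN
    have hN0 : N ≠ 0 := mul_ne_zero (pow_ne_zero _ hx0) hx0
    have hNF : N ∈ F := F.mul_mem (F.pow_mem hx _) hx
    have hNσ : N ^ 2 ^ i = N := by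
      rw [hN, mul_pow, hσσ x hx, mul_comm]
    have h3 : v * N = v * 1 := by
      refine h.slope 0 (v * N) (v * 1) (mul_ne_zero hv0 hN0) (mul_ne_zero hv0 one_ne_zero) ?_
      rw [h.zero, zero_add, zero_add, zero_add, zero_add, hf N hNF, hNσ, hf 1 F.one_mem, one_pow]
      field_simp
    exact mul_left_cancel₀ hv0 h3
  -- the quadratic equation
  have hquad : ∀ x ∈ F, x ≠ 0 → x ≠ 1 → x ^ 2 + x + 1 = 0 := by
    intro x hx hx0 hx1
    have hx1' : x + 1 ≠ 0 := fun h3 => hx1 (CharTwo.add_eq_zero.mp h3)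
    have h3 := hinv x hx hx0
    have h4 := hinv (x + 1) (F.add_mem hx F.one_mem) hx1'
    rw [add_pow_char_pow x 1 2 i, one_pow] at h4
    have h5 : x * ((x ^ 2 ^ i + 1) * (x + 1)) = x := by rw [h4, mul_one]
    grind
  have hcard : 4 < Fintype.card F := by
    rw [← Nat.card_eq_fintype_card, hF]
    calc 4 < 2 ^ 3 := by norm_num
      _ ≤ 2 ^ m := Nat.pow_le_pow_right (by norm_num) hm
  -- two elements
  obtain ⟨x, hx⟩ : ∃ x : F, x ∉ ({0, 1} : Finset F) := by
    by_contra hcon
    push Not at hcon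
    have h3 : Fintype.card F ≤ ({0, 1} : Finset F).card := card_le_card fun y _ => hcon y
    have h4 : ({0, 1} : Finset F).card ≤ 2 := card_le_two
    omega
  obtain ⟨y, hy⟩ : ∃ y : F, y ∉ ({0, 1, x, x + 1} : Finset F) := by
    by_contra hcon
    push Not at hcon
    have h3 : Fintype.card F ≤ ({0, 1, x, x + 1} : Finset F).card := card_le_card fun y _ => hcon y
    have h4 : ({0, 1, x, x + 1} : Finset F).card ≤ 4 := card_le_four
    omega
  rw [mem_insert, mem_singleton, not_or] at hx
  rw [mem_insert, mem_insert, mem_insert, mem_singleton, not_or, not_or, not_or] at hy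
  have hx0 : (x : K) ≠ 0 := fun h3 => hx.1 (Subtype.ext h3)
  have hx1 : (x : K) ≠ 1 := fun h3 => hx.2 (Subtype.ext h3)
  have hy0 : (y : K) ≠ 0 := fun h3 => hy.1 (Subtype.ext h3)
  have hy1 : (y : K) ≠ 1 := fun h3 => hy.2.1 (Subtype.ext h3)
  have h3 := hquad x x.2 hx0 hx1
  have h4 := hquad y y.2 hy0 hy1
  have h5 : ((x : K) + y) * ((x : K) + y + 1) = 0 := by
    linear_combination h3 + h4 + ((x : K) * y - 1) * h2
  rcases mul_eq_zero.mp h5 with h6 | h6
  · apply hy.2.2.1
    apply Subtype.ext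
    exact (CharTwo.add_eq_zero.mp h6).symm
  · apply hy.2.2.2
    apply Subtype.ext
    show (y : K) = (x : K) + 1
    linear_combination h6 - ((x : K) + 1) * h2

end

end Pool.Agent.H49.HO
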