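import Mathlib
import Pool.Agent.H49.HO.Swap

/-!
# The 2-part of the homography group of a hyperoval, refined
-/

set_option autoImplicit false

namespace Pool.Agent.H49.HO

open Configuration Finset Pool.Agent.H46.Hyp Pool.Agent.H53.OM
open scoped LinearAlgebra.Projectivization MatrixGroups Pointwise

section

variable {K : Type} [Field K] [Fintype K] [DecidableEq K]

/-- **the 2-part of the homography group of a hyperoval** -/
theorem main2 {n : ℕ} (hn : 0 < n) (hK : Fintype.card K = 2 ^ n)
    {H : Finset (ℙ K (Fin 3 → K))} (hH : IsHyperoval (ℙ K (Fin 3 → K)) (ℙ K (Fin 3 → K)) H)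
    {k : ℕ} (hk : 2 ^ k ∣ Nat.card (MulAction.stabilizer PGL(3, K) (H : Set (ℙ K (Fin 3 → K))))) :
    (∃ (g : PGL(3, K)) (i : ℕ), g • (H : Set (ℙ K (Fin 3 → K))) =
      (oSet K fun x => x ^ 2 ^ i : Finset (ℙ K (Fin 3 → K)))) ∨
    k ≤ 2 ∨ (k = 3 ∧ 2 ∣ n ∧ 6 ≤ n) ∨ ∃ m, 3 ≤ m ∧ m ∣ n ∧ 3 * m ≤ n ∧ k ≤ m := by
  classical
  have hchar : CharP K 2 := charP_two hn hK
  by_cases hk1 : k ≤ 1
  · exact Or.inr (Or.inl (by omega))
  have hcardH : H.card = 2 ^ n + 2 := by rw [hH.1, order_eq, hK]
  rcases Nat.lt_or_ge n 2 with hn1 | hn2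
  · -- the field with two elements
    left
    have hn1' : n = 1 := by omega
    subst hn1'
    obtain ⟨P, hP, Q, hQ, hPQ⟩ := Finset.one_lt_card.mp (show 1 < H.card by omega)
    obtain ⟨g, f, hf, _, _, _, hgH⟩ := exists_coord hH hP hQ hPQ
    have h01 : ∀ x : K, x = 0 ∨ x = 1 := by
      intro x
      by_contra hcon
      push Not at hcon
      have h3 : ({0, 1, x} : Finset K).card ≤ Fintype.card K := card_le_univ _
      have h4 : ({0, 1, x} : Finset K).card = 3 := by
        rw [card_insert_of_notMem, card_pair hcon.2.symm]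
        rw [mem_insert, mem_singleton, not_or]
        exact ⟨zero_ne_one, hcon.1.symm⟩
      rw [hK, h4] at h3
      omega
    have hf1 : f 1 = 1 := by
      rcases h01 (f 1) with h | h
      · exact absurd h (f_ne_zero hf one_ne_zero)
      · exact h
    obtain ⟨g', hg'⟩ := translation_of_full hf (v := 1) (i := 0) one_ne_zero (by
      intro x
      rw [one_mul, hf1, one_mul, pow_zero, pow_one]
      rcases h01 x with rfl | rfl
      · exact hf.zero
      · exact hf1)
    exact ⟨g' * g, 0, by rw [mul_smul, hgH, hg']⟩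
  · -- a Sylow subgroup
    have hp2 : Fact (Nat.Prime 2) := ⟨Nat.prime_two⟩
    set G := MulAction.stabilizer PGL(3, K) (H : Set (ℙ K (Fin 3 → K))) with hG
    obtain ⟨T, hT⟩ := Sylow.exists_subgroup_card_pow_prime 2 hk
    set S : Subgroup PGL(3, K) := T.map G.subtype with hS
    have hScard : Nat.card S = 2 ^ k := by
      rw [hS, Subgroup.card_map_of_injective G.subtype_injective, hT]
    have hSG : ∀ g ∈ S, g • (H : Set (ℙ K (Fin 3 → K))) = H := by
      intro g hg
      rw [hS, Subgroup.mem_map] at hg
      obtain ⟨x, _, rfl⟩ := hg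
      exact x.2
    have hSH : ∀ g ∈ S, ∀ p ∈ H, g • p ∈ H := by
      intro g hg p hp
      have h1 : g • p ∈ g • (H : Set (ℙ K (Fin 3 → K))) := Set.smul_mem_smul_set (mem_coe.mpr hp)
      rw [hSG g hg] at h1
      exact mem_coe.mp h1
    let _ := actH S hSH
    have hX : Nat.card {p // p ∈ H} % 4 = 2 := by
      rw [Nat.card_eq_fintype_card, Fintype.card_coe, hcardH]
      obtain ⟨r, rfl⟩ : ∃ r, n = r + 2 := ⟨n - 2, by omega⟩
      rw [pow_add]
      omega
    obtain ⟨P, hP⟩ := exists_small_orbit (S := S) (X := {p // p ∈ H}) hScard hX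
    -- the stabilizer of `P`
    set S0 : Subgroup PGL(3, K) := (MulAction.stabilizer S P).map S.subtype with hS0
    have hS0card : Nat.card S0 = Nat.card (MulAction.stabilizer S P) := by
      rw [hS0, Subgroup.card_map_of_injective S.subtype_injective]
    have hS0S : ∀ g ∈ S0, g ∈ S := by
      intro g hg
      rw [hS0, Subgroup.mem_map] at hg
      obtain ⟨x, _, rfl⟩ := hg
      exact x.2
    have hS0P : ∀ g ∈ S0, g • (P : ℙ K (Fin 3 → K)) = P := by
      intro g hg
      rw [hS0, Subgroup.mem_map] at hg
      obtain ⟨x, hx, rfl⟩ := hg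
      rw [MulAction.mem_stabilizer_iff] at hx
      exact congrArg Subtype.val hx
    have hS0dvd : ∃ j, Nat.card S0 = 2 ^ j := by
      have h1 : Nat.card S0 ∣ 2 ^ k := by
        rw [hS0card, ← hScard]
        exact Subgroup.card_subgroup_dvd_card _
      obtain ⟨j, _, hj⟩ := (Nat.dvd_prime_pow Nat.prime_two).mp h1
      exact ⟨j, hj⟩
    obtain ⟨j, hj⟩ := hS0dvd
    have hS0H : ∀ g ∈ S0, ∀ p ∈ H, g • p ∈ H := fun g hg => hSH g (hS0S g hg)
    -- a second fixed point
    obtain ⟨Q, hQH, hQP, hQ⟩ : ∃ Q ∈ H, Q ≠ (P : ℙ K (Fin 3 → K)) ∧ ∀ g ∈ S0, g • Q = Q := by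
      let _ := actH S0 hS0H
      have hpg : IsPGroup 2 S0 := IsPGroup.of_card hj
      have h1 := hpg.card_modEq_card_fixedPoints {p // p ∈ H}
      have h2 : (P : {p // p ∈ H}) ∈ MulAction.fixedPoints S0 {p // p ∈ H} := by
        intro g
        exact Subtype.ext (hS0P g g.2)
      have h3 : Nat.card {p // p ∈ H} % 2 = 0 := by omega
      have h4 : Nat.card (MulAction.fixedPoints S0 {p // p ∈ H}) % 2 = 0 := by
        rw [← h3]
        exact h1.symm
      have h5 : 1 < Nat.card (MulAction.fixedPoints S0 {p // p ∈ H}) := by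
        have h6 : 0 < Nat.card (MulAction.fixedPoints S0 {p // p ∈ H}) := by
          have : Nonempty (MulAction.fixedPoints S0 {p // p ∈ H}) := ⟨⟨P, h2⟩⟩
          exact Nat.card_pos
        omega
      have hnt : Nontrivial (MulAction.fixedPoints S0 {p // p ∈ H}) :=
        Finite.one_lt_card_iff_nontrivial.mp h5
      obtain ⟨⟨Q, hQ⟩, hne⟩ := exists_ne (⟨P, h2⟩ : MulAction.fixedPoints S0 {p // p ∈ H})
      refine ⟨Q, Q.2, ?_, ?_⟩
      · intro h6
        apply hne
        apply Subtype.ext
        exact Subtype.ext h6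
      · intro g hg
        exact congrArg Subtype.val (hQ ⟨g, hg⟩)
    obtain ⟨g, f, hf, _, hgP, hgQ, hgH⟩ := exists_coord hH P.2 hQH hQP.symm
    -- conjugate
    set S1 : Subgroup PGL(3, K) := S0.map (MulAut.conj g).toMonoidHom with hS1
    have hS1card : Nat.card S1 = Nat.card S0 := by
      rw [hS1, Subgroup.card_map_of_injective (MulAut.conj g).injective]
    have hS1mem : ∀ x ∈ S1, ∃ y ∈ S0, x = g * y * g⁻¹ := by
      intro x hx
      rw [hS1, Subgroup.mem_map] at hx
      obtain ⟨y, hy, rfl⟩ := hx
      exact ⟨y, hy, rfl⟩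
    have hginv0 : g⁻¹ • (E0 : ℙ K (Fin 3 → K)) = P := by rw [← hgP, inv_smul_smul]
    have hginv1 : g⁻¹ • (E1 : ℙ K (Fin 3 → K)) = Q := by rw [← hgQ, inv_smul_smul]
    have hS1a : ∀ x ∈ S1, x • (E0 : ℙ K (Fin 3 → K)) = E0 := by
      intro x hx
      obtain ⟨y, hy, rfl⟩ := hS1mem x hx
      rw [mul_smul, mul_smul, hginv0, hS0P y hy, hgP]
    have hS1b : ∀ x ∈ S1, x • (E1 : ℙ K (Fin 3 → K)) = E1 := by
      intro x hx
      obtain ⟨y, hy, rfl⟩ := hS1mem x hx
      rw [mul_smul, mul_smul, hginv1, hQ y hy, hgQ]
    have hS1c : ∀ x ∈ S1, ∀ c, x • pt (f c) c ∈ oSet K f := by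
      intro x hx c
      obtain ⟨y, hy, rfl⟩ := hS1mem x hx
      have h1 : pt (f c) c ∈ g • (H : Set (ℙ K (Fin 3 → K))) := by
        rw [hgH, mem_coe, mem_oSet]
        exact Or.inl ⟨c, rfl⟩
      rw [Set.mem_smul_set] at h1
      obtain ⟨p, hp, hp2⟩ := h1
      rw [← hp2, mul_smul, mul_smul, inv_smul_smul, ← mem_coe, ← hgH]
      exact Set.smul_mem_smul_set (mem_coe.mpr (hS0H y hy p (mem_coe.mp hp)))
    have hle := card_le_periods hf S1
      (by
        intro x hx
        refine ⟨j, ?_⟩
        rw [← hj, ← hS1card]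
        have h1 : (⟨x, hx⟩ : S1) ^ Nat.card S1 = 1 := pow_card_eq_one'
        exact congrArg Subtype.val h1)
      hS1a hS1b hS1c
    rw [hS1card, hS0card] at hle
    have hlow : 2 ^ (k - 1) ≤ Nat.card {b : K // Per f b} := by
      have h1 : 2 ^ k = 2 * 2 ^ (k - 1) := by
        rw [← pow_succ']
        congr 1
        omega
      omega
    -- a nonzero period
    obtain ⟨v, hv0, hv⟩ : ∃ v, v ≠ 0 ∧ Per f v := by
      by_contra hcon
      push Not at hcon
      have h1 : Nat.card {b : K // Per f b} ≤ 1 := by
        rw [Finite.card_le_one_iff_subsingleton]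
        refine ⟨fun a b => Subtype.ext ?_⟩
        have ha : (a : K) = 0 := by
          by_contra h2
          exact hcon a h2 a.2
        have hb : (b : K) = 0 := by
          by_contra h2
          exact hcon b h2 b.2
        rw [ha, hb]
      have h2 : 2 ^ 1 ≤ 2 ^ (k - 1) := Nat.pow_le_pow_right (by norm_num) (by omega)
      omega
    obtain ⟨F, m, i, hmn, hm0, hF, hper, hfF, hcase⟩ := periods hf hn hK hv0 hv
    rcases hcase with hmn' | h3
    · left
      subst hmn'
      obtain ⟨g', hg'⟩ := translation_of_periods hf hn hK hv0 hF hfF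
      exact ⟨g' * g, i, by rw [mul_smul, hgH, hg']⟩
    · right
      have hinj1 : Function.Injective (fun b : {b : K // Per f b} =>
          (⟨(b : K) / v, (hper _).mp (by rw [mul_div_cancel₀ _ hv0]; exact b.2)⟩ : F)) := by
        intro a b hab
        have h2 := congrArg (Subtype.val : F → K) hab
        apply Subtype.ext
        have h4 : (a : K) / v = (b : K) / v := h2
        rwa [div_left_inj' hv0] at h4
      have h1 : Nat.card {b : K // Per f b} ≤ Nat.card F :=
        Nat.card_le_card_of_injective _ hinj1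
      rw [hF] at h1
      have h2 : 2 ^ (k - 1) ≤ 2 ^ m := hlow.trans h1
      have h4 := (Nat.pow_le_pow_iff_right (show 1 < 2 by norm_num)).mp h2
      rcases Nat.lt_or_ge m 3 with hm3 | hm3
      · have hm12 : m = 1 ∨ m = 2 := by omega
        rcases hm12 with rfl | rfl
        · left
          omega
        · by_cases hk2 : k ≤ 2
          · exact Or.inl hk2
          · exact Or.inr (Or.inl ⟨by omega, hmn, by omega⟩)
      · right; right
        refine ⟨m, hm3, hmn, h3, ?_⟩
        by_contra hkm
        have hkm1 : k = m + 1 := by omega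
        -- the group `S1` is the group of all translations by periods
        have hS1le : Nat.card S1 ≤ 2 ^ m := by
          rw [hS1card, hS0card]
          exact hle.trans h1
        have hSge : 2 ^ m ≤ Nat.card S1 := by
          rw [hS1card, hS0card]
          have h5 : 2 ^ k = 2 * 2 ^ m := by rw [hkm1, pow_succ']
          omega
        have hS1eq : Nat.card S1 = 2 ^ m := le_antisymm hS1le hSge
        have hall : ∀ b, Per f b → Matrix.ProjGenLinGroup.mk (sh (f b) b) ∈ S1 := by
          have hex : ∀ x : S1, ∃ b, Per f b ∧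
              (x : PGL(3, K)) = Matrix.ProjGenLinGroup.mk (sh (f b) b) := by
            intro x
            exact elation_of_two_power hf (r := m)
              (by
                rw [← hS1eq]
                have h5 : x ^ Nat.card S1 = 1 := pow_card_eq_one'
                exact congrArg Subtype.val h5)
              (hS1a x x.2) (hS1b x x.2) (hS1c x x.2)
          choose φ hφ1 hφ2 using hex
          have hinj : Function.Injective
              (fun x : S1 => (⟨φ x, hφ1 x⟩ : {b : K // Per f b})) := by
            intro x y hxy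
            have h5 : φ x = φ y := congrArg Subtype.val hxy
            apply Subtype.ext
            rw [hφ2 x, hφ2 y, h5]
          have hbij := (Nat.bijective_iff_injective_and_card _).mpr ⟨hinj, le_antisymm
            (Nat.card_le_card_of_injective _ hinj) (h1.trans hS1eq.ge)⟩
          intro b hb
          obtain ⟨x, hx⟩ := hbij.2 ⟨b, hb⟩
          have h5 : φ x = b := congrArg Subtype.val hx
          rw [← h5, ← hφ2 x]
          exact x.2
        -- fixed points of `S0`
        have hfixH : ∀ R ∈ H, (∀ y ∈ S0, y • R = R) → R = (P : ℙ K (Fin 3 → K)) ∨ R = Q := by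
          intro R hR hfix
          have h5 : g • R ∈ g • (H : Set (ℙ K (Fin 3 → K))) :=
            Set.smul_mem_smul_set (mem_coe.mpr hR)
          rw [hgH, mem_coe, mem_oSet] at h5
          rcases h5 with ⟨c, hc⟩ | h5 | h5
          · exfalso
            obtain ⟨y, hy, hy2⟩ := hS1mem _ (hall v hv)
            have h6 : (Matrix.ProjGenLinGroup.mk (sh (f v) v) : PGL(3, K)) • pt (f c) c =
                pt (f c) c := by
              rw [hy2, ← hc, mul_smul, mul_smul, inv_smul_smul, hfix y hy]
            rw [sh_pt] at h6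
            have h7 := (pt_inj h6).2
            exact hv0 (by simpa using h7)
          · left
            rw [← hginv0, ← h5, inv_smul_smul]
          · right
            rw [← hginv1, ← h5, inv_smul_smul]
        -- an element of `S` outside of `S0`
        have hnormal : (MulAction.stabilizer S P).Normal := by
          apply Subgroup.normal_of_index_eq_two
          have h5 := Subgroup.card_mul_index (MulAction.stabilizer S P)
          rw [hScard, ← hS0card, ← hS1card, hS1eq, hkm1, pow_succ] at h5
          exact Nat.eq_of_mul_eq_mul_left (by positivity) h5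
        obtain ⟨a, ha⟩ : ∃ a : S, a ∉ MulAction.stabilizer S P := by
          by_contra hcon
          push Not at hcon
          have h5 : Nat.card S ≤ Nat.card (MulAction.stabilizer S P) :=
            Nat.card_le_card_of_injective (fun a : S => (⟨a, hcon a⟩ : MulAction.stabilizer S P))
              (fun a b hab => congrArg Subtype.val hab)
          rw [hScard, ← hS0card, ← hS1card, hS1eq, hkm1, pow_succ] at h5
          have h6 : 0 < 2 ^ m := by positivity
          omega
        have haP : (a : PGL(3, K)) • (P : ℙ K (Fin 3 → K)) ≠ P := by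
          intro h5
          apply ha
          rw [MulAction.mem_stabilizer_iff]
          exact Subtype.ext h5
        -- conjugation by `a` preserves `S0`
        have hconj0 : ∀ y ∈ S0, (a : PGL(3, K)) * y * (a : PGL(3, K))⁻¹ ∈ S0 := by
          intro y hy
          rw [hS0, Subgroup.mem_map] at hy ⊢
          obtain ⟨x, hx, rfl⟩ := hy
          exact ⟨a * x * a⁻¹, hnormal.conj_mem x hx a, rfl⟩
        have hconj0' : ∀ y ∈ S0, (a : PGL(3, K))⁻¹ * y * (a : PGL(3, K)) ∈ S0 := by
          intro y hy
          rw [hS0, Subgroup.mem_map] at hy ⊢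
          obtain ⟨x, hx, rfl⟩ := hy
          refine ⟨a⁻¹ * x * a, ?_, rfl⟩
          have h5 := hnormal.conj_mem x hx a⁻¹
          rwa [inv_inv] at h5
        have hmove : ∀ R : ℙ K (Fin 3 → K), (∀ y ∈ S0, y • R = R) →
            ∀ y ∈ S0, y • ((a : PGL(3, K)) • R) = (a : PGL(3, K)) • R := by
          intro R hR y hy
          have h5 := hR _ (hconj0' y hy)
          rw [mul_smul, mul_smul, inv_smul_eq_iff] at h5
          exact h5
        have haQ1 : (a : PGL(3, K)) • (P : ℙ K (Fin 3 → K)) = Q := by
          rcases hfixH _ (hSH a a.2 P P.2) (hmove P hS0P) with h5 | h5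
          · exact absurd h5 haP
          · exact h5
        have haQ2 : (a : PGL(3, K)) • Q = (P : ℙ K (Fin 3 → K)) := by
          rcases hfixH _ (hSH a a.2 Q hQH) (hmove Q hQ) with h5 | h5
          · exact h5
          · exfalso
            exact hQP (MulAction.injective (a : PGL(3, K)) (h5.trans haQ1.symm))
        obtain ⟨α, β, hα0, _, hαβ⟩ := swap_data (f := f)
          (g := g * (a : PGL(3, K)) * g⁻¹)
          (by rw [mul_smul, mul_smul, hginv0, haQ1, hgQ])
          (by rw [mul_smul, mul_smul, hginv1, haQ2, hgP])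
          (by
            intro b hb
            obtain ⟨y, hy, hy2⟩ := hS1mem _ (hall b hb)
            rw [hy2]
            have h5 : g * (a : PGL(3, K)) * g⁻¹ * (g * y * g⁻¹) * (g * (a : PGL(3, K)) * g⁻¹)⁻¹ =
                g * ((a : PGL(3, K)) * y * (a : PGL(3, K))⁻¹) * g⁻¹ := by group
            have h6 : g * ((a : PGL(3, K)) * y * (a : PGL(3, K))⁻¹) * g⁻¹ ∈ S1 := by
              rw [hS1, Subgroup.mem_map]
              exact ⟨_, hconj0 y hy, rfl⟩
            obtain ⟨b', hb', hbb⟩ := elation_of_two_power hf (r := m)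
              (g := g * ((a : PGL(3, K)) * y * (a : PGL(3, K))⁻¹) * g⁻¹)
              (by
                rw [← hS1eq]
                have h7 : (⟨_, h6⟩ : S1) ^ Nat.card S1 = 1 := pow_card_eq_one'
                exact congrArg Subtype.val h7)
              (hS1a _ h6) (hS1b _ h6) (hS1c _ h6)
            exact ⟨b', hb', by rw [h5, hbb]⟩)
        have := card_le_of_swap hf hv0 hF hper hfF hα0 hαβ
        omega

end

end Pool.Agent.H49.HO
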