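import Mathlib
import Pool.Agent.H49.HO.Swap

/-!
# Homographies which exchange the two fixed points of an elation group
-/

set_option autoImplicit false

namespace Pool.Agent.H49.HO

open Configuration Finset Pool.Agent.H46.Hyp Pool.Agent.H53.OM
open scoped LinearAlgebra.Projectivization MatrixGroups Pointwise

section

variable {K : Type} [Field K] [Fintype K] [DecidableEq K]

/-- the square of an exchanging homography which commutes with an elation is not the identity -/
theorem swap_ne [CharP K 2] {f : K → K} (h : IsO f) {n : ℕ} (hn : 3 ≤ n)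
    (hK : Fintype.card K = 2 ^ n) {α β a b v : K} (hαβ : α * β = 1)
    (hf : ∀ c, f (β * f c + b) = α * c + a) (hv0 : v ≠ 0) (hv : Per f v) (hfv : f v = α * v) :
    β * a + b ≠ 0 := by
  intro hw
  have h2 := CharTwo.two_eq_zero (R := K)
  have hα0 : α ≠ 0 := left_ne_zero_of_mul_eq_one hαβ
  have hab : a = α * b := by
    have h1 : α * (β * a + b) = 0 := by rw [hw, mul_zero]
    linear_combination h1 - a * hαβ + a * 0 + (-(α * b)) * h2
  have hsub : Im f α ⊆ {a, f v + a} := by
    intro y hy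
    rw [Im, mem_image] at hy
    obtain ⟨c, _, rfl⟩ := hy
    rw [mem_insert, mem_singleton]
    have h3 : f (β * f c + b) + α * (β * f c + b) = f c + α * c := by
      rw [hf c, hab]
      linear_combination (f c) * hαβ + (α * b) * h2
    have h4 : f (c + v) + α * (c + v) = f c + α * c := by
      rw [hv c, hfv]
      linear_combination (α * v) * h2
    by_cases h5 : β * f c + b = c
    · left
      have h6 : α * (β * f c + b) = α * c := by rw [h5]
      rw [hab]
      linear_combination h6 - f c * hαβ - (α * b) * h2 + (α * c) * h2 + (f c) * h2 * 0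
    · right
      have h7 : c + v ≠ c := fun h8 => hv0 (by simpa using h8)
      have h6 := partner_unique h h5 h7 h3 h4
      have h8 : α * (β * f c + b) = α * (c + v) := by rw [h6]
      rw [hab, hfv]
      linear_combination h8 - f c * hαβ - (α * b) * h2 + (α * c) * h2
  have h3 := card_le_card hsub
  rw [card_Im h hα0 (by omega) hK] at h3
  have h4 : ({a, f v + a} : Finset K).card ≤ 2 := card_le_two
  have h5 : 2 ^ 2 ≤ 2 ^ (n - 1) := Nat.pow_le_pow_right (by norm_num) (by omega)
  omega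

/-- if its square is the elation, then `n` is even -/
theorem swap_even [CharP K 2] {f : K → K} (h : IsO f) {n : ℕ} (hn : 0 < n)
    (hK : Fintype.card K = 2 ^ n) {α β a b v : K} (hαβ : α * β = 1)
    (hf : ∀ c, f (β * f c + b) = α * c + a) (hv0 : v ≠ 0) (hv : Per f v) (hfv : f v = α * v)
    (hw : β * a + b = v) : 2 ∣ n := by
  have h2 := CharTwo.two_eq_zero (R := K)
  have hα0 : α ≠ 0 := left_ne_zero_of_mul_eq_one hαβ
  have hβ0 : β ≠ 0 := right_ne_zero_of_mul_eq_one hαβ
  have hfv0 := f_ne_zero h hv0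
  have h1 := tr_of_per h hn hK hv0 hv (β * f 0 + b)
  rw [hf, h.zero, mul_zero, mul_zero, zero_add, zero_add] at h1
  have h3 : a / f v + b / v = 1 := by
    rw [hfv, div_add_div _ _ (mul_ne_zero hα0 hv0) hv0,
      div_eq_one_iff_eq (mul_ne_zero (mul_ne_zero hα0 hv0) hv0)]
    rw [← hw]
    linear_combination (-(a * (β * a + b))) * hαβ + 0
  have h4 : tr n (1 : K) = 0 := by
    rw [← h3, tr_add, h1, CharTwo.add_self_eq_zero]
  have h5 : tr n (1 : K) = (n : K) := by
    unfold tr
    simp only [one_pow, sum_const, card_range, nsmul_eq_mul, mul_one]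
  rw [h5] at h4
  exact (CharP.cast_eq_zero_iff K 2 n).mp h4

/-- a vector fixed by the exchanging homography -/
theorem exists_fixed [CharP K 2] {f : K → K} {α β b₀ : K} (hαβ : α * β = 1) (hb0 : b₀ ≠ 0)
    (hb : Per f b₀) (hb1 : Per f (β * f b₀)) (hfb : f (β * f b₀) = α * b₀) :
    ∃ v, v ≠ 0 ∧ Per f v ∧ f v = α * v := by
  have h2 := CharTwo.two_eq_zero (R := K)
  by_cases h1 : b₀ = β * f b₀
  · exact ⟨b₀, hb0, hb, by rw [← h1] at hfb; exact hfb⟩
  · refine ⟨b₀ + β * f b₀, fun h3 => h1 (CharTwo.add_eq_zero.mp h3), per_add hb hb1, ?_⟩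
    rw [hb1 b₀, hfb]
    linear_combination (-(f b₀)) * hαβ

/-- the coordinates of an exchanging homography which preserves the hyperoval -/
theorem swap_coord [CharP K 2] {f : K → K} {g : PGL(3, K)}
    (h0 : g • (E0 : ℙ K (Fin 3 → K)) = E1) (h1 : g • (E1 : ℙ K (Fin 3 → K)) = E0)
    (hf : ∀ c, g • pt (f c) c ∈ oSet K f) :
    ∃ α β a b : K, α ≠ 0 ∧ β ≠ 0 ∧ (∀ x y, g • pt x y = pt (α * y + a) (β * x + b)) ∧
      ∀ c, f (β * f c + b) = α * c + a := by
  obtain ⟨A, rfl⟩ := Matrix.ProjGenLinGroup.mk_surjective g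
  set M : Matrix (Fin 3) (Fin 3) K := (A : Matrix (Fin 3) (Fin 3) K) with hM
  have hsm : ∀ v : Fin 3 → K, A • v = M.mulVec v := fun v => rfl
  rw [E0, Projectivization.PGL.mk_smul_mk, E1, Projectivization.mk_eq_mk_iff'] at h0
  rw [E1, Projectivization.PGL.mk_smul_mk, E0, Projectivization.mk_eq_mk_iff'] at h1
  obtain ⟨β, hβ⟩ := h0
  obtain ⟨α, hα⟩ := h1
  rw [hsm] at hα hβ
  have hM00 : M 0 0 = 0 := by
    have := congrFun hβ 0
    simp [Matrix.mulVec, dotProduct, Fin.sum_univ_three] at this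
    exact this.symm
  have hM10 : M 1 0 = β := by
    have := congrFun hβ 1
    simp [Matrix.mulVec, dotProduct, Fin.sum_univ_three] at this
    exact this.symm
  have hM20 : M 2 0 = 0 := by
    have := congrFun hβ 2
    simp [Matrix.mulVec, dotProduct, Fin.sum_univ_three] at this
    exact this.symm
  have hM01 : M 0 1 = α := by
    have := congrFun hα 0
    simp [Matrix.mulVec, dotProduct, Fin.sum_univ_three] at this
    exact this.symm
  have hM11 : M 1 1 = 0 := by
    have := congrFun hα 1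
    simp [Matrix.mulVec, dotProduct, Fin.sum_univ_three] at this
    exact this.symm
  have hM21 : M 2 1 = 0 := by
    have := congrFun hα 2
    simp [Matrix.mulVec, dotProduct, Fin.sum_univ_three] at this
    exact this.symm
  have hdet : M.det ≠ 0 := (A.isUnit.map Matrix.detMonoidHom).ne_zero
  have hdet2 : M.det = -(α * β * M 2 2) := by
    rw [Matrix.det_fin_three, hM00, hM10, hM20, hM01, hM11, hM21]
    ring
  set γ := M 2 2 with hγ
  have hγ0 : γ ≠ 0 := by
    intro h2
    rw [hdet2, h2, mul_zero, neg_zero] at hdet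
    exact hdet rfl
  have hα0 : α ≠ 0 := by
    intro h2
    rw [hdet2, h2, zero_mul, zero_mul, neg_zero] at hdet
    exact hdet rfl
  have hβ0 : β ≠ 0 := by
    intro h2
    rw [hdet2, h2, mul_zero, zero_mul, neg_zero] at hdet
    exact hdet rfl
  have hmul : ∀ v : Fin 3 → K, A • v = ![α * v 1 + M 0 2 * v 2, β * v 0 + M 1 2 * v 2, γ * v 2] := by
    intro v
    rw [hsm]
    funext j
    fin_cases j
    · simp [Matrix.mulVec, dotProduct, Fin.sum_univ_three, hM00, hM01]
    · simp [Matrix.mulVec, dotProduct, Fin.sum_univ_three, hM10, hM11]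
    · simp [Matrix.mulVec, dotProduct, Fin.sum_univ_three, hM20, hM21, hγ]
  have hact : ∀ x y, (Matrix.ProjGenLinGroup.mk A : PGL(3, K)) • pt x y =
      pt (α / γ * y + M 0 2 / γ) (β / γ * x + M 1 2 / γ) := by
    intro x y
    rw [pt, Projectivization.PGL.mk_smul_mk, eq_pt _ (by rw [hmul]; simpa using hγ0), hmul]
    congr 1
    · simp
      field_simp
    · simp
      field_simp
  refine ⟨α / γ, β / γ, M 0 2 / γ, M 1 2 / γ, div_ne_zero hα0 hγ0, div_ne_zero hβ0 hγ0, hact, ?_⟩
  intro c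
  have h2 := hf c
  rw [hact, mem_oSet] at h2
  rcases h2 with ⟨d, hd⟩ | hd | hd
  · have h3 := pt_inj hd
    rw [h3.2, ← h3.1]
  · exact absurd hd (pt_ne_E0 _ _)
  · exact absurd hd (pt_ne_E1 _ _)

/-- conjugates of translations -/
theorem conj_data [CharP K 2] {f : K → K} {g : PGL(3, K)} {α β a b : K}
    (hact : ∀ x y : K, g • pt x y = pt (α * y + a) (β * x + b)) {b₀ b' : K}
    (hbb : g * Matrix.ProjGenLinGroup.mk (sh (f b₀) b₀) * g⁻¹ =
      Matrix.ProjGenLinGroup.mk (sh (f b') b')) : β * f b₀ = b' ∧ f b' = α * b₀ := by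
  have h5 : ∀ x y : K, g • ((Matrix.ProjGenLinGroup.mk (sh (f b₀) b₀) : PGL(3, K)) • pt x y) =
      (Matrix.ProjGenLinGroup.mk (sh (f b') b') : PGL(3, K)) • (g • pt x y) := by
    intro x y
    rw [← mul_smul, ← mul_smul, ← hbb, inv_mul_cancel_right]
  have h6 := h5 0 0
  rw [sh_pt, hact, hact, sh_pt] at h6
  have h7 := pt_inj h6
  exact ⟨by linear_combination h7.2, by linear_combination (-1 : K) * h7.1⟩

/-- the conclusion for an exchanging homography whose square is a translation by a period -/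
theorem swap_core [CharP K 2] {f : K → K} (h : IsO f) {n : ℕ} (hn : 3 ≤ n)
    (hK : Fintype.card K = 2 ^ n) {g : PGL(3, K)}
    (h0 : g • (E0 : ℙ K (Fin 3 → K)) = E1) (h1 : g • (E1 : ℙ K (Fin 3 → K)) = E0)
    (hf : ∀ c, g • pt (f c) c ∈ oSet K f)
    (hsq : ∃ w, Per f w ∧ g * g = Matrix.ProjGenLinGroup.mk (sh (f w) w))
    {b₀ : K} (hb0 : b₀ ≠ 0) (hb : Per f b₀)
    (hconj : ∃ b', Per f b' ∧ g * Matrix.ProjGenLinGroup.mk (sh (f b₀) b₀) * g⁻¹ =
      Matrix.ProjGenLinGroup.mk (sh (f b') b')) :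
    ∃ α β a b v : K, (∀ x y : K, g • pt x y = pt (α * y + a) (β * x + b)) ∧ α * β = 1 ∧
      (∀ c, f (β * f c + b) = α * c + a) ∧ v ≠ 0 ∧ Per f v ∧
      f v = α * v ∧ β * a + b = v ∧ 2 ∣ n := by
  have h2 := CharTwo.two_eq_zero (R := K)
  obtain ⟨α, β, a, b, hα0, hβ0, hact, hfc⟩ := swap_coord h0 h1 hf
  obtain ⟨w, hw, hgg⟩ := hsq
  have hgg2 : ∀ x y, pt (α * (β * x + b) + a) (β * (α * y + a) + b) = pt (x + f w) (y + w) := by
    intro x y
    calc pt (α * (β * x + b) + a) (β * (α * y + a) + b) = g • (g • pt x y) := by rw [hact, hact]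
      _ = (g * g) • pt x y := (mul_smul _ _ _).symm
      _ = pt (x + f w) (y + w) := by rw [hgg, sh_pt]
  have h3 := pt_inj (hgg2 0 0)
  have h4 := pt_inj (hgg2 1 0)
  have hαβ : α * β = 1 := by
    linear_combination h4.1 - h3.1
  have hw1 : β * a + b = w := by linear_combination h3.2
  -- the conjugate
  obtain ⟨b', hb', hbb⟩ := hconj
  obtain ⟨h8, h9⟩ := conj_data hact hbb
  obtain ⟨v, hv0, hv, hfv⟩ := exists_fixed hαβ hb0 hb (by rw [h8]; exact hb')
    (by rw [h8]; exact h9)
  -- `w` is `0` or `v`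
  have hwne := swap_ne h hn hK hαβ hfc hv0 hv hfv
  rw [hw1] at hwne
  have hfw : f w = α * w := by
    rw [← hw1]
    have h10 : f w = α * b + a := by linear_combination (-1 : K) * h3.1
    rw [hw1, h10, ← hw1]
    linear_combination (-a) * hαβ
  have hwv : w = v := by
    refine h.slope 0 w v hwne hv0 ?_
    rw [h.zero, zero_add, zero_add, zero_add, zero_add, hfw, hfv, mul_div_cancel_right₀ _ hwne,
      mul_div_cancel_right₀ _ hv0]
  rw [hwv] at hw1
  exact ⟨α, β, a, b, v, hact, hαβ, hfc, hv0, hv, hfv, hw1, swap_even h (by omega) hK hαβ hfc hv0 hv hfv hw1⟩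

/-- if moreover the homography normalizes the group of all translations by periods, there are only
two periods -/
theorem swap_full [CharP K 2] {f : K → K} (h : IsO f) {n : ℕ} (hn : 3 ≤ n)
    (hK : Fintype.card K = 2 ^ n) {α β a b v : K} (hαβ : α * β = 1)
    (hfc : ∀ c, f (β * f c + b) = α * c + a) (hv0 : v ≠ 0) (hv : Per f v) (hfv : f v = α * v)
    (hw : β * a + b = v) (hall : ∀ u, Per f u → Per f (β * f u) ∧ f (β * f u) = α * u)
    {F : Subfield K} {m i : ℕ} (hF : Nat.card F = 2 ^ m) (hper : ∀ x, Per f (v * x) ↔ x ∈ F)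
    (hf : ∀ x ∈ F, f (v * x) = f v * x ^ 2 ^ i) : m ≤ 1 := by
  classical
  by_contra hm
  push Not at hm
  have h2 := CharTwo.two_eq_zero (R := K)
  have hα0 : α ≠ 0 := left_ne_zero_of_mul_eq_one hαβ
  have hfv0 := f_ne_zero h hv0
  have hβv : β * f v = v := by
    rw [hfv]
    linear_combination v * hαβ
  -- `σ ^ 2 = 1` on `F`
  have hβx : ∀ x ∈ F, β * f (v * x) = v * x ^ 2 ^ i := by
    intro x hx
    rw [hf x hx, ← mul_assoc, hβv]
  have hσσ : ∀ x ∈ F, (x ^ 2 ^ i) ^ 2 ^ i = x := by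
    intro x hx
    have h3 := (hall (v * x) ((hper x).mpr hx)).2
    rw [hβx x hx, hf _ (F.pow_mem hx _), hfv] at h3
    have hαv : α * v ≠ 0 := mul_ne_zero hα0 hv0
    exact mul_left_cancel₀ hαv (by rw [h3]; ring)
  -- `x ^ σ = 1 / x`
  have hinv : ∀ x ∈ F, x ≠ 0 → x ^ 2 ^ i * x = 1 := by
    intro x hx hx0
    set N := x ^ 2 ^ i * x with hN
    have hN0 : N ≠ 0 := mul_ne_zero (pow_ne_zero _ hx0) hx0
    have hNF : N ∈ F := F.mul_mem (F.pow_mem hx _) hx
    have hNσ : N ^ 2 ^ i = N := by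
      rw [hN, mul_pow, hσσ x hx, mul_comm]
    have h3 : v * N = v * 1 := by
      refine h.slope 0 (v * N) (v * 1) (mul_ne_zero hv0 hN0) (mul_ne_zero hv0 one_ne_zero) ?_
      rw [h.zero, zero_add, zero_add, zero_add, zero_add, hf N hNF, hNσ, hf 1 F.one_mem, one_pow]
      field_simp
    exact mul_left_cancel₀ hv0 h3
  have hquad : ∀ x ∈ F, x ≠ 0 → x ≠ 1 → x ^ 2 + x + 1 = 0 := by
    intro x hx hx0 hx1
    have hx1' : x + 1 ≠ 0 := fun h3 => hx1 (CharTwo.add_eq_zero.mp h3)
    have h3 := hinv x hx hx0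
    have h4 := hinv (x + 1) (F.add_mem hx F.one_mem) hx1'
    rw [add_pow_char_pow x 1 2 i, one_pow] at h4
    have h5 : x * ((x ^ 2 ^ i + 1) * (x + 1)) = x := by rw [h4, mul_one]
    grind
  have hcard : 2 < Fintype.card F := by
    rw [← Nat.card_eq_fintype_card, hF]
    calc 2 < 2 ^ 2 := by norm_num
      _ ≤ 2 ^ m := Nat.pow_le_pow_right (by norm_num) hm
  obtain ⟨x, hx⟩ : ∃ x : F, x ∉ ({0, 1} : Finset F) := by
    by_contra hcon
    push Not at hcon
    have h3 : Fintype.card F ≤ ({0, 1} : Finset F).card := card_le_card fun y _ => hcon y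
    have h4 : ({0, 1} : Finset F).card ≤ 2 := card_le_two
    omega
  rw [mem_insert, mem_singleton, not_or] at hx
  have hx0 : (x : K) ≠ 0 := fun h3 => hx.1 (Subtype.ext h3)
  have hx1 : (x : K) ≠ 1 := fun h3 => hx.2 (Subtype.ext h3)
  have h3 := hquad x x.2 hx0 hx1
  have h4 := hinv x x.2 hx0
  have hxσ : (x : K) ^ 2 ^ i = x + 1 := by
    have h5 : ((x : K) + 1) * x = 1 := by linear_combination h3 - h2
    exact mul_right_cancel₀ hx0 (h4.trans h5.symm)
  -- the product of the homography with the translation by `v x` is an involution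
  have hvx : Per f (v * x) := (hper x).mpr x.2
  have h6 := swap_ne h hn hK (a := α * (v * x) + a) (b := β * f (v * x) + b) hαβ (by
    intro c
    have h7 := hfc (c + v * x)
    rw [hvx c] at h7
    have h8 : β * f c + (β * f (v * x) + b) = β * (f c + f (v * x)) + b := by ring
    rw [h8, h7]
    ring) hv0 hv hfv
  apply h6
  rw [hβx x x.2, hxσ]
  linear_combination hw + (v * x) * hαβ + (v * x + v) * h2

end

end Pool.Agent.H49.HO
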